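import Pool.Agent.Lib.MP_55ef7c_ag.Model

/-!
The part of the models that concerns the first two points.
-/

namespace Pool.Agent.Lib.MP_55ef7c_ag

open MvPolynomial WeierstrassCurve WeierstrassCurve.Affine

section General

variable {L : Type*} [Field L]

/-- Nonvanishing conditions for the normalised pair `(t, t)`, `(t r, p t r)`. -/
def G2 (p r t : L) : Prop :=
  t ≠ 0 ∧ r ≠ 0 ∧ 1 - p ≠ 0 ∧ 64 * cB p r t ^ 3 + 27 * cA p r t ^ 4 ≠ 0 ∧ t * r - t ≠ 0 ∧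
    aX t t 0 0 ≠ 0 ∧ aY (cA p r t) t t 0 0 ≠ 0 ∧ aX (t * r) (p * (t * r)) t t ≠ 0

lemma isOp_G2 {ι K : Type*} [Field K] [Algebra K L] {G : (ι → L) → Prop} {p r t : (ι → L) → L}
    (hG : IsOp K G) (hp : Rep K G p) (hr : Rep K G r) (ht : Rep K G t) :
    IsOp K (fun v => G v ∧ G2 (p v) (r v) (t v)) := by
  have h1 := hG.and ht
  have h2 := h1.and (hr.mono fun v h => h.1)
  have h3 := h2.and ((Rep.one.sub hp).mono fun v h => h.1.1)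
  have hp3 := hp.mono (G' := fun v => ((G v ∧ t v ≠ 0) ∧ r v ≠ 0) ∧ 1 - p v ≠ 0) fun v h => h.1.1.1
  have hr3 := hr.mono (G' := fun v => ((G v ∧ t v ≠ 0) ∧ r v ≠ 0) ∧ 1 - p v ≠ 0) fun v h => h.1.1.1
  have ht3 := ht.mono (G' := fun v => ((G v ∧ t v ≠ 0) ∧ r v ≠ 0) ∧ 1 - p v ≠ 0) fun v h => h.1.1.1
  have hA := hp3.cA hr3 ht3 fun v h => h.2
  have hB := hp3.cB hr3 ht3 fun v h => h.2
  have h4 := h3.and (((Rep.ofNat 64).mul (hB.pow 3)).add ((Rep.ofNat 27).mul (hA.pow 4)))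
  have h5 := h4.and (((ht3.mul hr3).sub ht3).mono fun v h => h.1)
  have h6 := h5.and ((ht3.aX ht3 Rep.zero Rep.zero fun v h => by
    rw [sub_zero]; exact h.1.1.2).mono fun v h => h.1.1)
  have h7 := h6.and ((hA.aY ht3 ht3 Rep.zero Rep.zero fun v h => by
    rw [sub_zero]; exact h.1.1.2).mono fun v h => h.1.1.1)
  have h8 := h7.and (Rep.aX ((ht3.mul hr3).mono fun v h => h.1.1.1.1)
    ((hp3.mul (ht3.mul hr3)).mono fun v h => h.1.1.1.1) (ht3.mono fun v h => h.1.1.1.1)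
    (ht3.mono fun v h => h.1.1.1.1) fun v h => h.1.1.2)
  simpa only [G2, and_assoc] using h8

variable [DecidableEq L] {a b : L}

lemma core_eq (hD : 64 * b ^ 3 + 27 * a ^ 4 ≠ 0) {P Q : (W a b).Point} (hx1 : px P ≠ 0)
    (hy1 : py P ≠ 0) (hx2 : px Q ≠ 0) {l p r t : L} (hl : l = px P / py P)
    (hp : p = (py Q / px Q) / (py P / px P)) (hr : r = px Q / px P) (ht : t = l ^ 2 * px P)
    (hp1 : 1 - p ≠ 0) (hne : px Q ≠ px P) :
    aX t t 0 0 = l ^ 2 * px (P + pt0 hD) ∧ aY (cA p r t) t t 0 0 = l ^ 3 * py (P + pt0 hD) ∧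
      aX (t * r) (p * (t * r)) t t = l ^ 2 * px (Q + P) ∧
      aY (cA p r t) (t * r) (p * (t * r)) t t = l ^ 3 * py (Q + P) := by
  obtain ⟨e1, e2, e3, e4⟩ := normalise (p_eq P) (p_eq Q) hx1 hy1 hx2 hl hp hr ht
  obtain ⟨eA, -⟩ := e4 hp1
  have hl0 : l ≠ 0 := by rw [hl]; exact div_ne_zero hx1 hy1
  obtain ⟨k1, k2⟩ := p_add0 hD hx1
  obtain ⟨k3, k4⟩ := p_add (ne_zero_of_px hx2) (ne_zero_of_px hx1) hne
  rw [k1, k2, k3, k4, ← aX_scale0 hl0 hx1, ← aY_scale0 hl0 hx1, ← aX_scale hl0 hne,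
    ← aY_scale hl0 hne, ← eA, ← e1, ← e2, ← e3, ← ht]
  exact ⟨rfl, rfl, rfl, rfl⟩

omit [DecidableEq L] in
lemma ne_of_G2 {P Q : (W a b).Point} (hx1 : px P ≠ 0) {p r t : L} (hr : r = px Q / px P)
    (h : G2 p r t) : px Q ≠ px P := by
  intro h0
  apply h.2.2.2.2.1
  rw [hr, h0, div_self hx1]; ring

lemma G2_of (hD : 64 * b ^ 3 + 27 * a ^ 4 ≠ 0) {P Q : (W a b).Point} (hx1 : px P ≠ 0)
    (hy1 : py P ≠ 0) (hx2 : px Q ≠ 0) {l p r t : L} (hl : l = px P / py P)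
    (hp : p = (py Q / px Q) / (py P / px P)) (hr : r = px Q / px P) (ht : t = l ^ 2 * px P)
    (hne : px Q ≠ px P) (hne' : px Q ≠ px (P + pt0 hD)) (n1 : px (P + pt0 hD) ≠ 0)
    (n2 : py (P + pt0 hD) ≠ 0) (n3 : px (Q + P) ≠ 0) : G2 p r t := by
  have hp1 : 1 - p ≠ 0 := by
    rw [hp, sub_ne_zero, ne_comm, ne_eq, div_eq_one_iff_eq (div_ne_zero hy1 hx1)]
    exact (slope_ne hD hx1 hx2 hne hne').symm
  obtain ⟨e1, e2, e3, e4⟩ := normalise (p_eq P) (p_eq Q) hx1 hy1 hx2 hl hp hr ht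
  obtain ⟨eA, eB⟩ := e4 hp1
  obtain ⟨k1, k2, k3, -⟩ := core_eq hD hx1 hy1 hx2 hl hp hr ht hp1 hne
  have hl0 : l ≠ 0 := by rw [hl]; exact div_ne_zero hx1 hy1
  refine ⟨by rw [ht]; positivity, by rw [hr]; positivity, hp1, ?_, ?_, by rw [k1]; positivity,
    by rw [k2]; positivity, by rw [k3]; positivity⟩
  · rw [eA, eB]
    have : 64 * (l ^ 4 * b) ^ 3 + 27 * (l ^ 3 * a) ^ 4 = l ^ 12 * (64 * b ^ 3 + 27 * a ^ 4) := by
      ring
    rw [this]; positivity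
  · rw [e2, ht, ← mul_sub]
    exact mul_ne_zero (pow_ne_zero _ hl0) (sub_ne_zero.2 hne)

end General

end Pool.Agent.Lib.MP_55ef7c_ag
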