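import Mathlib

/-!
Rational self-maps of projective space, their iterates and degrees.
-/

namespace Pool.Agent.Lib.MP_55ef7c_ag

open MvPolynomial

variable {K : Type*} [Field K] {N : ℕ}

/-- `f = [f 0 : ... : f N]` is a rational self-map of projective `N`-space of degree `d`:
the `f i` are homogeneous of degree `d` and have no common factor other than units. -/
def IsMap (f : Fin (N + 1) → MvPolynomial (Fin (N + 1)) K) (d : ℕ) : Prop :=
  (∀ i, (f i).IsHomogeneous d) ∧ ∀ c, (∀ i, c ∣ f i) → IsUnit c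

/-- The `n`-th iterate of `f` by substitution, before common factors are removed. -/
noncomputable def iter (f : Fin (N + 1) → MvPolynomial (Fin (N + 1)) K) :
    ℕ → Fin (N + 1) → MvPolynomial (Fin (N + 1)) K
  | 0 => X
  | n + 1 => fun i => aeval (iter f n) (f i)

/-- After removal of a common factor, `G` is a rational map of degree `e`. -/
def HasDeg (G : Fin (N + 1) → MvPolynomial (Fin (N + 1)) K) (e : ℕ) : Prop :=
  ∃ h g, IsMap g e ∧ ∀ i, G i = h * g i

/-- `F` and `G` have the same order of growth. -/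
def Asymp (F G : ℕ → ℝ) : Prop :=
  ∃ c₁ c₂ : ℝ, 0 < c₁ ∧ 0 < c₂ ∧ ∃ c₃ : ℕ, ∀ n ≥ c₃, c₁ * F n ≤ G n ∧ G n ≤ c₂ * F n

end Pool.Agent.Lib.MP_55ef7c_ag
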