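import Mathlib

/-!
Homogeneous polynomials, and functions given by quotients of homogeneous polynomials.
-/

namespace Pool.Agent.Lib.MP_55ef7c_ag

open MvPolynomial

variable {ι K : Type*} [Field K]

lemma aeval_scale {A : Type*} [CommRing A] [Algebra K A] {p : MvPolynomial ι K} {n : ℕ}
    (hp : p.IsHomogeneous n) (c : A) (v : ι → A) :
    aeval (fun i => c * v i) p = c ^ n * aeval v p := by
  conv_lhs => rw [p.as_sum]
  conv_rhs => rw [p.as_sum]
  rw [map_sum, map_sum, Finset.mul_sum]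
  refine Finset.sum_congr rfl fun s hs => ?_
  rw [aeval_monomial, aeval_monomial, hp.degree_eq_sum_deg_support hs]
  simp only [Finsupp.prod, mul_pow, Finset.prod_mul_distrib, Finset.prod_pow_eq_pow_sum]
  ring

/-- The grading homomorphism. -/
noncomputable def grad (p : MvPolynomial ι K) : Polynomial (MvPolynomial ι K) :=
  aeval (fun i => Polynomial.X * Polynomial.C (X i : MvPolynomial ι K)) p

lemma grad_of_hom {p : MvPolynomial ι K} {n : ℕ} (hp : p.IsHomogeneous n) :
    grad p = Polynomial.monomial n p := by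
  rw [grad, aeval_scale hp]
  have : aeval (fun i => Polynomial.C (X i : MvPolynomial ι K)) p = Polynomial.C p := by
    have := DFunLike.congr_fun (comp_aeval (fun i => (X i : MvPolynomial ι K))
      (Polynomial.CAlgHom (R := K) (A := MvPolynomial ι K))) p
    simpa using this.symm
  rw [this, mul_comm, Polynomial.C_mul_X_pow_eq_monomial]

lemma coeff_grad (p : MvPolynomial ι K) (k : ℕ) : (grad p).coeff k = homogeneousComponent k p := by
  have : grad p = ∑ i ∈ Finset.range (p.totalDegree + 1),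
      Polynomial.monomial i (homogeneousComponent i p) := by
    conv_lhs => rw [← sum_homogeneousComponent p]
    rw [grad, map_sum]
    exact Finset.sum_congr rfl fun i _ => grad_of_hom (homogeneousComponent_isHomogeneous i p)
  rw [this, Polynomial.finsetSum_coeff]
  simp only [Polynomial.coeff_monomial, Finset.sum_ite_eq', Finset.mem_range]
  split_ifs with h
  · rfl
  · exact (homogeneousComponent_eq_zero _ _ (by omega)).symm

lemma exists_hom_of_mul {g h : MvPolynomial ι K} {n : ℕ} (hn : (h * g).IsHomogeneous n)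
    (hne : h * g ≠ 0) : ∃ a b, a + b = n ∧ h.IsHomogeneous a ∧ g.IsHomogeneous b := by
  have e : grad h * grad g = Polynomial.monomial n (h * g) := by
    rw [← grad_of_hom hn, grad, grad, grad, map_mul]
  have e0 : grad h * grad g ≠ 0 := by rw [e]; simpa using hne
  have h1 := Polynomial.natDegree_mul (left_ne_zero_of_mul e0) (right_ne_zero_of_mul e0)
  have h2 := Polynomial.natTrailingDegree_mul (left_ne_zero_of_mul e0) (right_ne_zero_of_mul e0)
  rw [e, Polynomial.natDegree_monomial_eq _ hne] at h1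
  rw [e, Polynomial.natTrailingDegree_monomial hne] at h2
  have h3 := (grad h).natTrailingDegree_le_natDegree
  have h4 := (grad g).natTrailingDegree_le_natDegree
  have aux : ∀ p : MvPolynomial ι K, (grad p).natTrailingDegree = (grad p).natDegree →
      p.IsHomogeneous (grad p).natDegree := by
    intro p hp
    conv_lhs => rw [← sum_homogeneousComponent p]
    refine IsHomogeneous.sum _ _ _ fun i _ => ?_
    by_cases hi : i = (grad p).natDegree
    · rw [← hi]; exact homogeneousComponent_isHomogeneous i p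
    · have : homogeneousComponent i p = 0 := by
        rw [← coeff_grad]
        rcases lt_or_gt_of_ne hi with hi | hi
        · exact Polynomial.coeff_eq_zero_of_lt_natTrailingDegree (by omega)
        · exact Polynomial.coeff_eq_zero_of_natDegree_lt hi
      rw [this]; exact isHomogeneous_zero _ _ _
  exact ⟨_, _, h1.symm, aux h (by omega), aux g (by omega)⟩

variable {L : Type*} [Field L] [Algebra K L]

variable (K) in
/-- `G` is the nonvanishing locus of a homogeneous polynomial. -/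
def IsOp (G : (ι → L) → Prop) : Prop :=
  ∃ (H : MvPolynomial ι K) (e : ℕ), H.IsHomogeneous e ∧ ∀ v, G v ↔ aeval v H ≠ 0

variable (K) in
/-- On `G`, the function `φ` is a quotient of homogeneous polynomials of equal degree. -/
def Rep (G : (ι → L) → Prop) (φ : (ι → L) → L) : Prop :=
  ∃ (A B : MvPolynomial ι K) (e : ℕ), A.IsHomogeneous e ∧ B.IsHomogeneous e ∧
    ∀ v, G v → aeval v B ≠ 0 ∧ φ v * aeval v B = aeval v A

variable {G G' : (ι → L) → Prop} {φ ψ : (ι → L) → L}

lemma Rep.mono (h : Rep K G φ) (hG : ∀ v, G' v → G v) : Rep K G' φ := by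
  obtain ⟨A, B, e, hA, hB, h⟩ := h
  exact ⟨A, B, e, hA, hB, fun v hv => h v (hG v hv)⟩

lemma Rep.add (h : Rep K G φ) (h' : Rep K G ψ) : Rep K G (fun v => φ v + ψ v) := by
  obtain ⟨A, B, e, hA, hB, h⟩ := h
  obtain ⟨A', B', e', hA', hB', h'⟩ := h'
  refine ⟨A * B' + B * A', B * B', e + e', (hA.mul hB').add (hB.mul hA'), hB.mul hB',
    fun v hv => ?_⟩
  obtain ⟨h1, h2⟩ := h v hv
  obtain ⟨h1', h2'⟩ := h' v hv
  simp only [map_mul, map_add]
  exact ⟨mul_ne_zero h1 h1', by rw [← h2, ← h2']; ring⟩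

lemma Rep.mul (h : Rep K G φ) (h' : Rep K G ψ) : Rep K G (fun v => φ v * ψ v) := by
  obtain ⟨A, B, e, hA, hB, h⟩ := h
  obtain ⟨A', B', e', hA', hB', h'⟩ := h'
  refine ⟨A * A', B * B', e + e', hA.mul hA', hB.mul hB', fun v hv => ?_⟩
  obtain ⟨h1, h2⟩ := h v hv
  obtain ⟨h1', h2'⟩ := h' v hv
  simp only [map_mul]
  exact ⟨mul_ne_zero h1 h1', by rw [← h2, ← h2']; ring⟩

lemma Rep.neg (h : Rep K G φ) : Rep K G (fun v => -φ v) := by
  obtain ⟨A, B, e, hA, hB, h⟩ := h
  refine ⟨-A, B, e, hA.neg, hB, fun v hv => ?_⟩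
  obtain ⟨h1, h2⟩ := h v hv
  simp only [map_neg]
  exact ⟨h1, by rw [← h2]; ring⟩

lemma Rep.sub (h : Rep K G φ) (h' : Rep K G ψ) : Rep K G (fun v => φ v - ψ v) := by
  simpa only [sub_eq_add_neg] using h.add h'.neg

lemma Rep.inv (h : Rep K G φ) (hne : ∀ v, G v → φ v ≠ 0) : Rep K G (fun v => (φ v)⁻¹) := by
  obtain ⟨A, B, e, hA, hB, h⟩ := h
  refine ⟨B, A, e, hB, hA, fun v hv => ?_⟩
  obtain ⟨h1, h2⟩ := h v hv
  have := hne v hv
  exact ⟨by rw [← h2]; exact mul_ne_zero this h1, by rw [← h2]; field_simp⟩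

lemma Rep.div (h : Rep K G φ) (h' : Rep K G ψ) (hne : ∀ v, G v → ψ v ≠ 0) :
    Rep K G (fun v => φ v / ψ v) := by
  simpa only [div_eq_mul_inv] using h.mul (h'.inv hne)

lemma Rep.nat (k : ℕ) : Rep K G (fun _ => (k : L)) :=
  ⟨C (k : K), 1, 0, isHomogeneous_C _ _, isHomogeneous_one _ _, fun v _ => by simp⟩

lemma Rep.ofNat (k : ℕ) [k.AtLeastTwo] : Rep K G (fun _ => (OfNat.ofNat k : L)) := Rep.nat k

lemma Rep.one : Rep K G (fun _ => (1 : L)) := by simpa using Rep.nat (K := K) (G := G) 1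

lemma Rep.zero : Rep K G (fun _ => (0 : L)) := by simpa using Rep.nat (K := K) (G := G) 0

lemma Rep.pow (h : Rep K G φ) (k : ℕ) : Rep K G (fun v => φ v ^ k) := by
  induction k with
  | zero => simpa using Rep.one
  | succ k ih => simpa only [pow_succ] using ih.mul h

lemma Rep.coord (i j : ι) (hne : ∀ v, G v → v j ≠ 0) : Rep K G (fun v => v i / v j) :=
  ⟨X i, X j, 1, isHomogeneous_X _ _, isHomogeneous_X _ _, fun v hv => by
    have := hne v hv
    simp [this]⟩

lemma IsOp.coord (j : ι) : IsOp K (fun v : ι → L => v j ≠ 0) :=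
  ⟨X j, 1, isHomogeneous_X _ _, fun v => by simp⟩

lemma IsOp.and (hG : IsOp K G) (h : Rep K G φ) : IsOp K (fun v => G v ∧ φ v ≠ 0) := by
  obtain ⟨H, e, hH, hG⟩ := hG
  obtain ⟨A, B, e', hA, hB, h⟩ := h
  refine ⟨H * A, e + e', hH.mul hA, fun v => ?_⟩
  rw [map_mul, mul_ne_zero_iff, ← hG]
  refine and_congr_right fun hv => ?_
  obtain ⟨h1, h2⟩ := h v hv
  rw [← h2, mul_ne_zero_iff]
  exact ⟨fun h => ⟨h, h1⟩, fun h => h.1⟩

lemma IsOp.scale (hG : IsOp K G) {c : L} (hc : c ≠ 0) (v : ι → L) :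
    G (fun i => c * v i) ↔ G v := by
  obtain ⟨H, e, hH, hG⟩ := hG
  rw [hG, hG, aeval_scale hH, mul_ne_zero_iff]
  exact ⟨fun h => h.2, fun h => ⟨pow_ne_zero _ hc, h⟩⟩

/-- A tuple of such functions is given by homogeneous polynomials of a common degree. -/
lemma exists_poly [Fintype ι] (hG : IsOp K G) {Φ : ι → (ι → L) → L} (h : ∀ i, Rep K G (Φ i)) :
    ∃ (F : ι → MvPolynomial ι K) (d : ℕ), (∀ i, (F i).IsHomogeneous d) ∧
      (∀ v, G v → ∃ c : L, c ≠ 0 ∧ ∀ i, aeval v (F i) = c * Φ i v) ∧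
      ∀ v i, aeval v (F i) ≠ 0 → G v := by
  classical
  obtain ⟨H, e, hH, hG⟩ := hG
  choose A B d hA hB h using h
  refine ⟨fun i => H * (A i * ∏ j ∈ Finset.univ.erase i, B j), e + ∑ j, d j, fun i => ?_,
    fun v hv => ⟨aeval v H * ∏ j, aeval v (B j), ?_, fun i => ?_⟩, fun v i hv => ?_⟩
  · refine hH.mul ?_
    rw [← Finset.add_sum_erase _ _ (Finset.mem_univ i)]
    exact (hA i).mul (IsHomogeneous.prod _ _ _ fun j _ => hB j)
  · exact mul_ne_zero ((hG v).1 hv) (Finset.prod_ne_zero_iff.2 fun j _ => (h j v hv).1)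
  · rw [map_mul, map_mul, map_prod, ← (h i v hv).2,
      ← Finset.mul_prod_erase _ _ (Finset.mem_univ i)]
    ring
  · rw [map_mul] at hv
    exact (hG v).2 (left_ne_zero_of_mul hv)

end Pool.Agent.Lib.MP_55ef7c_ag
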