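import Pool.Agent.Lib.MP_55ef7c_ag.Height
import Pool.Agent.Lib.MP_55ef7c_ag.Rep
import Pool.Agent.Lib.MP_55ef7c_ag.Defs

/-!
Degrees of rational maps compared with heights of rational functions.
-/

namespace Pool.Agent.Lib.MP_55ef7c_ag

open MvPolynomial

variable {K : Type*} [Field K] {N : ℕ}

/-- The polynomial ring of projective `N`-space. -/
abbrev PR (N : ℕ) (K : Type*) [Field K] := MvPolynomial (Fin (N + 1)) K

lemma exists_isMap {G : Fin (N + 1) → PR N K} {n : ℕ} (hG : ∀ i, (G i).IsHomogeneous n)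
    (h0 : G 0 ≠ 0) : ∃ h g e, IsMap g e ∧ e ≤ n ∧ ∀ i, G i = h * g i := by
  classical
  let : StrongNormalizationMonoid (PR N K) := UniqueFactorizationMonoid.strongNormalizationMonoid
  let : NormalizedGCDMonoid (PR N K) := UniqueFactorizationMonoid.toNormalizedGCDMonoid _
  obtain ⟨g, hg, hg1⟩ := Finset.extract_gcd G (Finset.univ_nonempty (α := Fin (N + 1)))
  generalize Finset.univ.gcd G = h at hg
  have hg' : ∀ i, G i = h * g i := fun i => hg i (Finset.mem_univ i)
  have hh : h ≠ 0 := by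
    rw [hg'] at h0; exact left_ne_zero_of_mul h0
  obtain ⟨a, b, hab, ha, -⟩ := exists_hom_of_mul (hg' 0 ▸ hG 0) (hg' 0 ▸ h0)
  refine ⟨h, g, b, ⟨fun i => ?_, fun c hc => ?_⟩, by omega, hg'⟩
  · by_cases hi : g i = 0
    · rw [hi]; exact isHomogeneous_zero _ _ _
    · obtain ⟨a', b', hab', ha', hb'⟩ := exists_hom_of_mul (hg' i ▸ hG i) (mul_ne_zero hh hi)
      have := ha.inj_right ha' hh
      have : b = b' := by omega
      rwa [this]
  · exact isUnit_of_dvd_one (hg1 ▸ Finset.dvd_gcd fun i _ => hc i)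

lemma IsMap.dvd {g : Fin (N + 1) → PR N K} {e : ℕ} (hg : IsMap g e) (h0 : g 0 ≠ 0) {B : PR N K}
    (h : ∀ i, g 0 ∣ B * g i) : g 0 ∣ B := by
  obtain ⟨w, u, k, hc, rfl, hu⟩ := UniqueFactorizationMonoid.exists_reduced_factors' B (g 0) h0
  have hk : k ≠ 0 := by rw [← hu] at h0; exact left_ne_zero_of_mul h0
  have : IsUnit u := hg.2 u fun i => by
    have := h i
    rw [← hu, mul_assoc, mul_dvd_mul_iff_left hk] at this
    exact hc.symm.dvd_of_dvd_mul_left this
  rw [← hu]
  exact mul_dvd_mul_left _ this.dvd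

lemma hasDeg_unique {G : Fin (N + 1) → PR N K} (h0 : G 0 ≠ 0) {e e' : ℕ} (h : HasDeg G e)
    (h' : HasDeg G e') : e = e' := by
  have aux : ∀ {e e' : ℕ}, HasDeg G e → HasDeg G e' → e ≤ e' := by
    rintro e e' ⟨h, g, hg, hG⟩ ⟨h', g', hg', hG'⟩
    have k : h * g 0 ≠ 0 := hG 0 ▸ h0
    have k' : h' * g' 0 ≠ 0 := hG' 0 ▸ h0
    have : g 0 ∣ g' 0 := hg.dvd (right_ne_zero_of_mul k) fun i => ⟨g' i, by
      apply mul_left_cancel₀ (left_ne_zero_of_mul k)
      have e1 := (hG i).symm.trans (hG' i)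
      have e2 := (hG 0).symm.trans (hG' 0)
      linear_combination g' 0 * e1 - g' i * e2⟩
    rw [← (hg.1 0).totalDegree (right_ne_zero_of_mul k),
      ← (hg'.1 0).totalDegree (right_ne_zero_of_mul k')]
    exact deg_le_of_dvd this (right_ne_zero_of_mul k')
  exact le_antisymm (aux h h') (aux h' h)

/-- Clearing denominators in a tuple of rational functions. -/
lemma exists_common (w : Fin (N + 1) → Fn (Fin (N + 1)) K) {m : ℕ} (hw : ∀ i, ht (w i) ≤ m) :
    ∃ (B : PR N K) (A : Fin (N + 1) → PR N K), B ≠ 0 ∧ Bd B ((N + 1) * m) ∧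
      ∀ i, emb (A i) = emb B * w i := by
  choose A B hB e _ dB using fun i => exists_rep' (w i)
  refine ⟨∏ i, B i, fun i => A i * ∏ j ∈ Finset.univ.erase i, B j,
    Finset.prod_ne_zero_iff.2 fun j _ => hB j, ?_, fun i => ?_⟩
  · refine (totalDegree_finsetProd _ _).trans ?_
    refine (Finset.sum_le_card_nsmul _ _ m fun i _ => (dB i).trans (hw i)).trans ?_
    simp
  · rw [← Finset.mul_prod_erase _ _ (Finset.mem_univ i)]
    have := e i
    simp only [emb, map_mul] at *
    rw [← this]; ring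

lemma IsMap.deg_le {g : Fin (N + 1) → PR N K} {e : ℕ} (hg : IsMap g e) (h0 : g 0 ≠ 0)
    {w : Fin (N + 1) → Fn (Fin (N + 1)) K} (hw : ∀ i, emb (g i) = emb (g 0) * w i) {m : ℕ}
    (hm : ∀ i, ht (w i) ≤ m) : e ≤ (N + 1) * m := by
  obtain ⟨B, A, hB, dB, h⟩ := exists_common w hm
  have : g 0 ∣ B := hg.dvd h0 fun i => ⟨A i, emb_inj (by
    have h1 := h i
    have h2 := hw i
    simp only [emb, map_mul] at *
    rw [h1, h2]; ring)⟩
  rw [← (hg.1 0).totalDegree h0]
  exact (deg_le_of_dvd this hB).trans dB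

lemma bd_aeval {σ τ : Type*} {p : σ → MvPolynomial τ K} {m : ℕ} (hp : ∀ i, Bd (p i) m)
    {g : MvPolynomial σ K} {e : ℕ} (hg : g.IsHomogeneous e) : Bd (aeval p g) (e * m) := by
  rw [g.as_sum, map_sum]
  refine (totalDegree_finsetSum_le fun s hs => ?_)
  rw [aeval_monomial]
  refine (totalDegree_mul _ _).trans ?_
  rw [algebraMap_eq, totalDegree_C, zero_add, Finsupp.prod]
  refine (totalDegree_finsetProd _ _).trans ?_
  rw [hg.degree_eq_sum_deg_support hs, Finset.sum_mul]
  exact Finset.sum_le_sum fun i _ => (hp i).pow _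

lemma aeval_emb {σ τ : Type*} (p : σ → MvPolynomial τ K) (g : MvPolynomial σ K) :
    aeval (fun i => emb (p i)) g = emb (aeval p g) :=
  (aeval_algebraMap_apply (Fn τ K) p g)

lemma iter_hom {f : Fin (N + 1) → PR N K} {d : ℕ} (hf : ∀ i, (f i).IsHomogeneous d) (n : ℕ) :
    ∀ i, (iter f n i).IsHomogeneous (d ^ n) := by
  induction n with
  | zero => exact fun i => isHomogeneous_X _ _
  | succ n ih => exact fun i => by rw [pow_succ]; exact (hf i).aeval _ ih

lemma aeval_iter_succ {L : Type*} [CommRing L] [Algebra K L] (f : Fin (N + 1) → PR N K) (n : ℕ)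
    (v : Fin (N + 1) → L) (i : Fin (N + 1)) :
    aeval v (iter f (n + 1) i) = aeval (fun j => aeval v (iter f n j)) (f i) := by
  have := DFunLike.congr_fun (comp_aeval (iter f n) (aeval v : PR N K →ₐ[K] L)) (f i)
  simpa [iter] using this

/-- Values of the iterates along an orbit. -/
lemma orbit {L : Type*} [Field L] [Algebra K L] {f : Fin (N + 1) → PR N K} {d : ℕ}
    (hf : ∀ i, (f i).IsHomogeneous d) {s : ℕ → Fin (N + 1) → L} {c0 : L} (hc0 : c0 ≠ 0)
    {v : Fin (N + 1) → L} (hv : ∀ i, v i = c0 * s 0 i) (n : ℕ)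
    (hs : ∀ k < n, ∃ c : L, c ≠ 0 ∧ ∀ i, aeval (s k) (f i) = c * s (k + 1) i) :
    ∃ c : L, c ≠ 0 ∧ ∀ i, aeval v (iter f n i) = c * s n i := by
  induction n with
  | zero => exact ⟨c0, hc0, fun i => by simp [iter, hv]⟩
  | succ n ih =>
    obtain ⟨c, hc, h⟩ := ih fun k hk => hs k (by omega)
    obtain ⟨c', hc', h'⟩ := hs n (by omega)
    refine ⟨c ^ d * c', mul_ne_zero (pow_ne_zero _ hc) hc', fun i => ?_⟩
    rw [aeval_iter_succ, funext h, aeval_scale (hf i), h', mul_assoc]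

/-- Dominance from invertibility at the generic point. -/
lemma algInd {f : Fin (N + 1) → PR N K} {d : ℕ} (hf : ∀ i, (f i).IsHomogeneous d) (hd : 0 < d)
    (h0 : f 0 ≠ 0)
    (h : ∀ M : Subfield (Fn (Fin (N + 1)) K), (∀ i, emb (f i) / emb (f 0) ∈ M) →
      ∀ i, emb (X i : PR N K) / emb (X 0) ∈ M) : AlgebraicIndependent K f := by
  let S := Algebra.adjoin K (Set.range f)
  let M : Subfield (Fn (Fin (N + 1)) K) :=
    { (Subalgebra.algebraicClosure S (Fn (Fin (N + 1)) K)).toSubring with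
      inv_mem' := fun x hx => IsAlgebraic.inv hx }
  have hM : ∀ z, z ∈ M ↔ IsAlgebraic S z := fun z => Iff.rfl
  have hfM : ∀ i, emb (f i) ∈ M := fun i =>
    isAlgebraic_algebraMap (R := S) (A := Fn (Fin (N + 1)) K)
      ⟨f i, Algebra.subset_adjoin ⟨i, rfl⟩⟩
  have hu := h M fun i => M.div_mem (hfM i) (hfM 0)
  have hX0 : emb (X 0 : PR N K) ≠ 0 := emb_ne (X_ne_zero 0)
  have hK : ∀ k : K, algebraMap K (Fn (Fin (N + 1)) K) k ∈ M := fun k =>
    isAlgebraic_algebraMap (R := S) (A := Fn (Fin (N + 1)) K) (algebraMap K S k)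
  have hev : ∀ (v : Fin (N + 1) → Fn (Fin (N + 1)) K), (∀ i, v i ∈ M) → ∀ p : PR N K,
      aeval v p ∈ M := fun v hv p => by
    induction p using MvPolynomial.induction_on with
    | C a => rw [aeval_C]; exact hK a
    | add p q hp hq => rw [map_add]; exact M.add_mem hp hq
    | mul_X p i hp => rw [map_mul, aeval_X]; exact M.mul_mem hp (hv i)
  have e0 : emb (f 0) = emb (X 0 : PR N K) ^ d
      * aeval (fun i => emb (X i : PR N K) / emb (X 0)) (f 0) := by
    rw [← aeval_scale (hf 0)]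
    have : (fun i => emb (X 0 : PR N K) * (emb (X i : PR N K) / emb (X 0)))
        = fun i => emb (X i : PR N K) := funext fun i => by field_simp
    rw [this, aeval_emb, aeval_X_left_apply]
  have e1 : aeval (fun i => emb (X i : PR N K) / emb (X 0)) (f 0) ≠ 0 := by
    intro h1
    rw [h1, mul_zero] at e0
    exact emb_ne h0 e0
  have hp : emb (X 0 : PR N K) ^ d ∈ M := by
    rw [← div_eq_iff e1] at e0
    rw [← e0]
    exact M.div_mem (hfM 0) (hev _ hu _)
  have hX : emb (X 0 : PR N K) ∈ M := IsAlgebraic.of_pow hd hp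
  have hXi : ∀ i, emb (X i : PR N K) ∈ M := fun i => by
    have := M.mul_mem (hu i) hX
    rwa [div_mul_cancel₀ _ hX0] at this
  have : Algebra.IsAlgebraic S (PR N K) := ⟨fun p => by
    have := hev _ hXi p
    rw [aeval_emb, aeval_X_left_apply, hM] at this
    exact (isAlgebraic_algebraMap_iff (IsFractionRing.injective (PR N K) _)).1 this⟩
  refine (Algebra.IsAlgebraic.isTranscendenceBasis_of_lift_le_trdeg_of_finite K f ?_).1
  rw [MvPolynomial.trdeg_of_isDomain]
  simp

end Pool.Agent.Lib.MP_55ef7c_ag
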