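import Pool.Agent.Lib.MP_55ef7c_ag.Height

/-!
Naive heights on the curves `y ^ 2 + a y = x ^ 3 + b x` over a field of rational functions.
-/

namespace Pool.Agent.Lib.MP_55ef7c_ag

open MvPolynomial WeierstrassCurve WeierstrassCurve.Affine

/-- The curve `y ^ 2 + a y = x ^ 3 + b x`. -/
def W {L : Type*} [Field L] (a b : L) : Affine L := ⟨0, 0, a, b, 0⟩

section General

variable {L : Type*} [Field L] {a b : L}

lemma W_eq {x y : L} : (W a b).Equation x y ↔ y ^ 2 + a * y = x ^ 3 + b * x := by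
  rw [equation_iff]
  simp [W]

lemma W_negY (x y : L) : (W a b).negY x y = -y - a := by simp [W, negY]

lemma W_addX (x1 x2 l : L) : (W a b).addX x1 x2 l = l ^ 2 - x1 - x2 := by simp [W, addX]

lemma W_addY (x1 x2 y1 l : L) :
    (W a b).addY x1 x2 y1 l = -(l * (l ^ 2 - x1 - x2 - x1) + y1) - a := by
  simp [W, addY, negAddY, negY, addX]

lemma W_nonsing {x y : L} (hD : 64 * b ^ 3 + 27 * a ^ 4 ≠ 0)
    (h : y ^ 2 + a * y = x ^ 3 + b * x) : (W a b).Nonsingular x y := by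
  rw [← equation_iff_nonsingular_of_Δ_ne_zero, W_eq]
  · exact h
  · intro h0
    apply hD
    simp only [W, WeierstrassCurve.Δ, b₂, b₄, b₆, b₈] at h0
    linear_combination -h0

variable [DecidableEq L]

/-- The quadratic equation satisfied by the abscissa of a sum. -/
lemma add_quadratic {x1 y1 x2 y2 : L} (h1 : (W a b).Equation x1 y1) (h2 : (W a b).Equation x2 y2)
    (hxy : ¬(x1 = x2 ∧ y1 = (W a b).negY x2 y2)) :
    ((x1 - x2) ^ 2 ≠ 0 ∨ 2 * x1 * x2 * (x1 + x2) + 2 * b * (x1 + x2) + a ^ 2 ≠ 0) ∧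
    (x1 - x2) ^ 2 * ((W a b).addX x1 x2 ((W a b).slope x1 x2 y1 y2)) ^ 2
      - (2 * x1 * x2 * (x1 + x2) + 2 * b * (x1 + x2) + a ^ 2)
        * ((W a b).addX x1 x2 ((W a b).slope x1 x2 y1 y2))
      + ((x1 * x2 - b) ^ 2 - a ^ 2 * (x1 + x2)) = 0 := by
  by_cases hx : x1 = x2
  · have hy : y1 ≠ (W a b).negY x2 y2 := fun h => hxy ⟨hx, h⟩
    have hy2 : y1 = y2 := Y_eq_of_Y_ne h1 h2 hx hy
    subst hx hy2
    rw [slope_of_Y_ne rfl hy, W_addX, W_negY]
    rw [W_negY] at hy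
    rw [W_eq] at h1
    have hd : y1 - (-y1 - a) ≠ 0 := sub_ne_zero.mpr hy
    have e1 : 2 * x1 * x1 * (x1 + x1) + 2 * b * (x1 + x1) + a ^ 2 = (y1 - (-y1 - a)) ^ 2 := by
      linear_combination -4 * h1
    refine ⟨Or.inr (by rw [e1]; exact pow_ne_zero _ hd), ?_⟩
    rw [e1]
    simp only [W]
    field_simp
    linear_combination (8 * x1 * (2 * y1 + a) ^ 4) * h1
  · have hd : x1 - x2 ≠ 0 := sub_ne_zero.mpr hx
    refine ⟨Or.inl (pow_ne_zero _ hd), ?_⟩
    rw [slope_of_X_ne hx, W_addX]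
    rw [W_eq] at h1 h2
    set l := (y1 - y2) / (x1 - x2) with hl
    have hl' : y1 = y2 + l * (x1 - x2) := by rw [hl]; field_simp; ring
    clear_value l
    subst hl'
    -- dividing the difference of the two equations by `x1 - x2`
    have h3 : 2 * y2 * l + l ^ 2 * (x1 - x2) + a * l = x1 ^ 2 + x1 * x2 + x2 ^ 2 + b := by
      apply mul_left_cancel₀ hd
      linear_combination h1 - h2
    linear_combination (l ^ 2 * (x1 - x2) - 2 * y2 * l - a * l
      - (x1 ^ 2 + x1 * x2 + x2 ^ 2 + b)) * h3 + (4 * l ^ 2) * h2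

end General

variable {σ K : Type*} [Field K] {a b : Fn σ K}

/-- The naive height of a point. -/
noncomputable def hx : (W a b).Point → ℕ
  | .zero => 0
  | .some x _ _ => ht x

@[simp] lemma hx_zero : hx (0 : (W a b).Point) = 0 := rfl

@[simp] lemma hx_some {x y : Fn σ K} (h : (W a b).Nonsingular x y) :
    hx (.some x y h) = ht x := rfl

lemma hx_neg (P : (W a b).Point) : hx (-P) = hx P := by
  cases P <;> rfl

lemma ht_y {x y : Fn σ K} (h : y ^ 2 + a * y = x ^ 3 + b * x) :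
    ht y ≤ 4 * ht x + ht a + ht b := by
  have e : y ^ 2 = (x ^ 3 + b * x) - a * y := by linear_combination h
  have h1 := ht_pow y 2
  have h2 := ht_sub (x ^ 3 + b * x) (a * y)
  have h3 := ht_add (x ^ 3) (b * x)
  have h4 := ht_pow x 3
  have h5 := ht_mul b x
  have h6 := ht_mul a y
  rw [e] at h1
  omega

variable [DecidableEq (Fn σ K)]

lemma hx_add (P Q : (W a b).Point) : hx (P + Q) ≤ 2 * hx P + 2 * hx Q + (2 * ht a + 2 * ht b) := by
  rcases P with _ | ⟨x1, y1, h1⟩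
  · change hx (0 + Q) ≤ _
    rw [zero_add]; omega
  rcases Q with _ | ⟨x2, y2, h2⟩
  · change hx (_ + 0) ≤ _
    rw [add_zero]; omega
  by_cases hxy : x1 = x2 ∧ y1 = (W a b).negY x2 y2
  · rw [Point.add_of_Y_eq hxy.1 hxy.2]; simp
  rw [Point.add_some hxy, hx_some, hx_some, hx_some]
  obtain ⟨hne, hq⟩ := add_quadratic h1.1 h2.1 hxy
  generalize (W a b).addX x1 x2 ((W a b).slope x1 x2 y1 y2) = T at hq ⊢
  obtain ⟨A1, B1, hB1, e1, dA1, dB1⟩ := exists_rep' x1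
  obtain ⟨A2, B2, hB2, e2, dA2, dB2⟩ := exists_rep' x2
  obtain ⟨Aa, Ba, hBa, ea, dAa, dBa⟩ := exists_rep' a
  obtain ⟨Ab, Bb, hBb, eb, dAb, dBb⟩ := exists_rep' b
  have dp := dA1.mul dA2
  have dq := (dA1.mul dB2).add (dB1.mul dA2)
  have dr := dB1.mul dB2
  have ds := (dA1.mul dB2).sub (dB1.mul dA2)
  have hD : emb ((B1 * B2 * Ba * Bb) ^ 2) ≠ 0 := emb_ne (by positivity)
  have c2 : emb ((A1 * B2 - B1 * A2) ^ 2 * Ba ^ 2 * Bb ^ 2)
      = (x1 - x2) ^ 2 * emb ((B1 * B2 * Ba * Bb) ^ 2) := by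
    simp only [emb, map_mul, map_sub, map_pow] at *
    rw [← e1, ← e2]; ring
  have c1 : emb ((2 * ((A1 * A2) * (A1 * B2 + B1 * A2) * Bb ^ 2)
      + 2 * ((A1 * B2 + B1 * A2) * (B1 * B2) * (Ab * Bb))) * Ba ^ 2
      + (B1 * B2) ^ 2 * Bb ^ 2 * Aa ^ 2)
      = (2 * x1 * x2 * (x1 + x2) + 2 * b * (x1 + x2) + a ^ 2) * emb ((B1 * B2 * Ba * Bb) ^ 2) := by
    simp only [emb, map_mul, map_add, map_pow, map_ofNat] at *
    rw [← e1, ← e2, ← ea, ← eb]; ring
  have c0 : emb (((A1 * A2) * Bb - (B1 * B2) * Ab) ^ 2 * Ba ^ 2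
      - (A1 * B2 + B1 * A2) * (B1 * B2) * Bb ^ 2 * Aa ^ 2)
      = ((x1 * x2 - b) ^ 2 - a ^ 2 * (x1 + x2)) * emb ((B1 * B2 * Ba * Bb) ^ 2) := by
    simp only [emb, map_mul, map_add, map_sub, map_pow] at *
    rw [← e1, ← e2, ← ea, ← eb]; ring
  refine ht_root (c2 := (A1 * B2 - B1 * A2) ^ 2 * Ba ^ 2 * Bb ^ 2)
    (c1 := (2 * ((A1 * A2) * (A1 * B2 + B1 * A2) * Bb ^ 2)
      + 2 * ((A1 * B2 + B1 * A2) * (B1 * B2) * (Ab * Bb))) * Ba ^ 2
      + (B1 * B2) ^ 2 * Bb ^ 2 * Aa ^ 2)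
    (c0 := ((A1 * A2) * Bb - (B1 * B2) * Ab) ^ 2 * Ba ^ 2
      - (A1 * B2 + B1 * A2) * (B1 * B2) * Bb ^ 2 * Aa ^ 2) ?_ ?_ ?_ ?_ ?_
  · exact (((ds.pow 2).mul (dBa.pow 2)).mul (dBb.pow 2)).mono (by omega)
  · refine Bd.add (Bd.mono (Bd.mul (Bd.add (n := 2 * ht x1 + 2 * ht x2 + 2 * ht b) ?_ ?_)
      (dBa.pow 2)) (by omega)) ?_
    · exact (((dp.mul dq).mul (dBb.pow 2)).cmul 2).mono (by omega)
    · exact (((dq.mul dr).mul (dAb.mul dBb)).cmul 2).mono (by omega)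
    · exact (((dr.pow 2).mul (dBb.pow 2)).mul (dAa.pow 2)).mono (by omega)
  · refine Bd.sub ?_ ?_
    · exact (((((dp.mul dBb).sub (dr.mul dAb))).pow 2).mul (dBa.pow 2)).mono (by omega)
    · exact (((dq.mul dr).mul (dBb.pow 2)).mul (dAa.pow 2)).mono (by omega)
  · rcases hne with h | h
    · left
      intro h0
      rw [h0] at c2
      exact mul_ne_zero h hD (by rw [← c2]; simp [emb])
    · right
      intro h0
      rw [h0] at c1
      exact mul_ne_zero h hD (by rw [← c1]; simp [emb])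
  · rw [c2, c1, c0]
    linear_combination emb ((B1 * B2 * Ba * Bb) ^ 2) * hq

lemma hx_nsmul_aux (T : (W a b).Point) (j : ℕ) (hj : 1 ≤ j) :
    hx (j • T) + (2 * ht a + 2 * ht b) + (hx T + (2 * ht a + 2 * ht b))
      ≤ 2 * j ^ 2 * (hx T + (2 * ht a + 2 * ht b)) := by
  induction j using Nat.strong_induction_on with
  | _ j ih =>
    rcases Nat.eq_or_lt_of_le hj with rfl | hj
    · rw [one_nsmul]; omega
    · obtain ⟨m, rfl | rfl⟩ := Nat.even_or_odd' j
      · have h1 := ih m (by omega) (by omega)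
        have h2 := hx_add (m • T) (m • T)
        rw [← add_nsmul, ← two_mul] at h2
        generalize hx T + (2 * ht a + 2 * ht b) = H at *
        have : 2 * (2 * m) ^ 2 * H = 4 * (2 * m ^ 2 * H) := by ring
        omega
      · have h1 := ih m (by omega) (by omega)
        have h1' := ih (m + 1) (by omega) (by omega)
        have h2 := hx_add (m • T) ((m + 1) • T)
        rw [← add_nsmul, show m + (m + 1) = 2 * m + 1 by ring] at h2
        generalize hx T + (2 * ht a + 2 * ht b) = H at *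
        have : 2 * (2 * m + 1) ^ 2 * H + 2 * H = 2 * (2 * m ^ 2 * H) + 2 * (2 * (m + 1) ^ 2 * H) := by
          ring
        omega

lemma hx_nsmul (T : (W a b).Point) (j : ℕ) :
    hx (j • T) ≤ 2 * j ^ 2 * (hx T + (2 * ht a + 2 * ht b)) := by
  rcases Nat.eq_zero_or_pos j with rfl | hj
  · simp
  · have := hx_nsmul_aux T j hj
    omega

end Pool.Agent.Lib.MP_55ef7c_ag
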