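import Pool.Agent.Lib.MP_55ef7c_ag.Degree

/-!
A criterion for polynomial degree growth of exact order.
-/

namespace Pool.Agent.Lib.MP_55ef7c_ag

open MvPolynomial Filter Topology

lemma tendsto_root {D : ℕ → ℕ} {l c1 c2 n0 : ℕ}
    (h : ∀ n ≥ n0, n ^ l ≤ c1 * D n ∧ D n ≤ c2 * n ^ l) :
    Tendsto (fun n : ℕ => (D n : ℝ) ^ (1 / (n : ℝ))) atTop (𝓝 1) := by
  have t1 : Tendsto (fun n : ℕ => (n : ℝ) ^ (1 / (n : ℝ))) atTop (𝓝 1) :=
    tendsto_rpow_div.comp tendsto_natCast_atTop_atTop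
  have t2 : Tendsto (fun n : ℕ => ((c2 : ℝ) + 1) ^ (1 / (n : ℝ))) atTop (𝓝 1) := by
    have := (Real.continuousAt_const_rpow (a := (c2 : ℝ) + 1) (b := 0) (by positivity)).tendsto.comp
      tendsto_one_div_atTop_nhds_zero_nat
    simpa [Function.comp_def] using this
  have t3 := t2.mul (t1.pow l)
  rw [one_pow, mul_one] at t3
  refine tendsto_of_tendsto_of_tendsto_of_le_of_le' tendsto_const_nhds t3 ?_ ?_
  · filter_upwards [eventually_ge_atTop n0, eventually_ge_atTop 1] with n hn hn1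
    have h1 := (h n hn).1
    have : D n ≠ 0 := by
      intro h0
      rw [h0, mul_zero] at h1
      have : 0 < n ^ l := by positivity
      omega
    exact Real.one_le_rpow (by exact_mod_cast Nat.pos_of_ne_zero this) (by positivity)
  · filter_upwards [eventually_ge_atTop n0] with n hn
    have h2 : (D n : ℝ) ≤ (c2 + 1) * (n : ℝ) ^ l := by
      have := (h n hn).2
      have h3 : D n ≤ (c2 + 1) * n ^ l := this.trans (Nat.mul_le_mul_right _ (by omega))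
      exact_mod_cast h3
    rw [← Real.rpow_natCast ((n : ℝ) ^ (1 / (n : ℝ))), ← Real.rpow_mul (by positivity), mul_comm _ (l : ℝ),
      Real.rpow_mul (by positivity), Real.rpow_natCast, ← Real.mul_rpow (by positivity) (by positivity)]
    exact Real.rpow_le_rpow (by positivity) h2 (by positivity)

lemma asymp_of {D : ℕ → ℕ} {l c1 c2 n0 : ℕ}
    (h : ∀ n ≥ n0, n ^ l ≤ c1 * D n ∧ D n ≤ c2 * n ^ l) :
    Asymp (fun n => (D n : ℝ)) (fun n => (n : ℝ) ^ l * 1 ^ n) := by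
  refine ⟨1 / (c2 + 1), c1 + 1, by positivity, by positivity, n0, fun n hn => ⟨?_, ?_⟩⟩
  · have h3 : D n ≤ (c2 + 1) * n ^ l := (h n hn).2.trans (Nat.mul_le_mul_right _ (by omega))
    have h2 : (D n : ℝ) ≤ (c2 + 1) * (n : ℝ) ^ l := by exact_mod_cast h3
    simp only [one_pow, mul_one]
    rw [one_div, inv_mul_le_iff₀ (by positivity)]
    exact h2
  · have h3 : n ^ l ≤ (c1 + 1) * D n := (h n hn).1.trans (Nat.mul_le_mul_right _ (by omega))
    simp only [one_pow, mul_one]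
    exact_mod_cast h3

lemma not_asymp_of {D : ℕ → ℕ} {l c1 c2 n0 : ℕ}
    (h : ∀ n ≥ n0, n ^ l ≤ c1 * D n ∧ D n ≤ c2 * n ^ l) {j : ℕ} (hj : j < l) :
    ¬ Asymp (fun n => (D n : ℝ)) (fun n => (n : ℝ) ^ j * 1 ^ n) := by
  rintro ⟨a, b, ha, -, n1, h1⟩
  obtain ⟨n, hn⟩ := exists_nat_gt (c1 / a)
  have k0 := (h (n + n0 + n1 + 1) (by omega)).1
  have k1 := (h1 (n + n0 + n1 + 1) (by omega)).1
  set m := n + n0 + n1 + 1 with hm
  have hm1 : (1 : ℝ) ≤ m := by exact_mod_cast (by omega : 1 ≤ m)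
  have hnm : (n : ℝ) ≤ m := by exact_mod_cast (by omega : n ≤ m)
  have k0' : (m : ℝ) ^ l ≤ c1 * D m := by exact_mod_cast k0
  simp only [one_pow, mul_one] at k1
  have k2 : (m : ℝ) ^ j * m ≤ m ^ l := by
    rw [← pow_succ]; exact pow_le_pow_right₀ hm1 hj
  rw [div_lt_iff₀ ha] at hn
  have hp : (0 : ℝ) < (m : ℝ) ^ j := by positivity
  have k3 : a * ((m : ℝ) ^ j * m) ≤ c1 * (m : ℝ) ^ j := by
    calc a * ((m : ℝ) ^ j * m) ≤ a * (c1 * D m) := mul_le_mul_of_nonneg_left (k2.trans k0') ha.le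
      _ = c1 * (a * D m) := by ring
      _ ≤ c1 * (m : ℝ) ^ j := by gcongr
  have k4 : (c1 : ℝ) < m * a := lt_of_lt_of_le hn (by gcongr)
  nlinarith

variable {K : Type*} [Field K] {N : ℕ}

/-- The orbit of the generic point. -/
noncomputable def gen (Φ : Fin (N + 1) → (Fin (N + 1) → Fn (Fin (N + 1)) K) → Fn (Fin (N + 1)) K) :
    ℕ → Fin (N + 1) → Fn (Fin (N + 1)) K
  | 0 => fun i => emb (X i : PR N K) / emb (X 0)
  | n + 1 => fun i => Φ i (gen Φ n)

theorem framework {G : (Fin (N + 1) → Fn (Fin (N + 1)) K) → Prop}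
    {Φ : Fin (N + 1) → (Fin (N + 1) → Fn (Fin (N + 1)) K) → Fn (Fin (N + 1)) K}
    (hG : IsOp K G) (hΦ : ∀ i, Rep K G (Φ i)) (hΦ0 : ∀ v, Φ 0 v = 1) {k : ℕ}
    (s : ℕ → Fin (N + 1) → Fn (Fin (N + 1)) K) (hs0 : s 0 0 = 1) (hsG : ∀ n, G (s n))
    (hs : ∀ n i, s (n + 1) i = Φ i (s n))
    (low : ∃ C i, ∀ n, n ^ (k + 1) ≤ C * ht (s n i) + C * (n + 1) ^ k)
    (up : (∀ n, G (gen Φ n)) → ∃ C, ∀ n i, ht (gen Φ n i) ≤ C * (n + 1) ^ (k + 1))
    (dom : (∀ n, G (gen Φ n)) → ∀ M : Subfield (Fn (Fin (N + 1)) K), (∀ i, gen Φ 1 i ∈ M) →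
      ∀ i, gen Φ 0 i ∈ M) :
    ∃ (f : Fin (N + 1) → MvPolynomial (Fin (N + 1)) K) (d : ℕ) (D : ℕ → ℕ),
      IsMap f d ∧ AlgebraicIndependent K f ∧ (∀ n e, HasDeg (iter f n) e ↔ e = D n) ∧
      ∃ c1 c2 n0 : ℕ, ∀ n ≥ n0, n ^ (k + 1) ≤ c1 * D n ∧ D n ≤ c2 * n ^ (k + 1) := by
  obtain ⟨F, dF, hF, hF1, hF2⟩ := exists_poly hG hΦ
  have hX0 : emb (X 0 : PR N K) ≠ 0 := emb_ne (X_ne_zero 0)
  have hsn : ∀ n, s n 0 = 1 := fun n => by
    cases n
    · exact hs0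
    · rw [hs, hΦ0]
  have hgn : ∀ n, gen Φ n 0 = 1 := fun n => by
    cases n
    · exact div_self hX0
    · exact hΦ0 _
  have hXv : ∀ i, emb (X i : PR N K) = emb (X 0 : PR N K) * gen Φ 0 i := fun i => by
    simp only [gen]; field_simp
  -- the generic orbit is good
  have hit : ∀ n, iter F n 0 ≠ 0 := fun n h => by
    obtain ⟨c, hc, h1⟩ := orbit hF (s := s) (v := s 0) one_ne_zero (fun i => (one_mul _).symm) n
      fun j _ => by simpa only [hs] using hF1 _ (hsG j)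
    have := h1 0
    rw [h, map_zero, hsn, mul_one] at this
    exact hc this.symm
  have good : ∀ n, G (gen Φ n) := fun n => by
    induction n using Nat.strong_induction_on with
    | _ n ih =>
      obtain ⟨c, hc, h1⟩ := orbit hF (s := gen Φ) hX0 hXv n fun j hj => hF1 _ (ih j hj)
      have h2 := aeval_iter_succ F n (fun i => emb (X i : PR N K)) 0
      rw [funext h1, aeval_scale (hF 0), aeval_emb, aeval_X_left_apply] at h2
      exact hF2 _ 0 (right_ne_zero_of_mul (h2 ▸ emb_ne (hit (n + 1))))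
  -- the reduced map
  have hF0 : F 0 ≠ 0 := fun h => by
    obtain ⟨c, hc, h1⟩ := hF1 _ (hsG 0)
    have := h1 0
    rw [h, map_zero, hΦ0, mul_one] at this
    exact hc this.symm
  obtain ⟨h, f, d, hf, -, hFf⟩ := exists_isMap hF hF0
  have hf1 : ∀ v, G v → ∃ c, c ≠ 0 ∧ ∀ i, aeval v (f i) = c * Φ i v := fun v hv => by
    obtain ⟨c, hc, h1⟩ := hF1 v hv
    have h2 : aeval v h ≠ 0 := by
      have := h1 0
      rw [hFf, map_mul, hΦ0, mul_one] at this
      exact left_ne_zero_of_mul (this ▸ hc)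
    refine ⟨c / aeval v h, div_ne_zero hc h2, fun i => ?_⟩
    have := h1 i
    rw [hFf, map_mul] at this
    field_simp
    rw [← this]; ring
  have og : ∀ n, ∃ c, c ≠ 0 ∧ ∀ i, emb (iter f n i) = c * gen Φ n i := fun n => by
    obtain ⟨c, hc, h1⟩ := orbit hf.1 (s := gen Φ) hX0 hXv n fun j _ => hf1 _ (good j)
    exact ⟨c, hc, fun i => by rw [← h1, aeval_emb, aeval_X_left_apply]⟩
  have hit' : ∀ n, iter f n 0 ≠ 0 := fun n h => by
    obtain ⟨c, hc, h1⟩ := og n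
    have := h1 0
    rw [h, hgn, mul_one] at this
    exact hc (by rw [← this]; simp [emb])
  choose H g D hg hD hHg using fun n => exists_isMap (iter_hom hf.1 n) (hit' n)
  have hg0 : ∀ n, g n 0 ≠ 0 := fun n => right_ne_zero_of_mul (hHg n 0 ▸ hit' n)
  have hH0 : ∀ n, H n ≠ 0 := fun n => left_ne_zero_of_mul (hHg n 0 ▸ hit' n)
  obtain ⟨C1, up⟩ := up good
  obtain ⟨C2, i0, low⟩ := low
  have upD : ∀ n, D n ≤ (N + 1) * (C1 * (n + 1) ^ (k + 1)) := fun n => by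
    refine (hg n).deg_le (hg0 n) (w := gen Φ n) (fun i => ?_) (up n)
    obtain ⟨c, hc, h1⟩ := og n
    apply mul_left_cancel₀ (emb_ne (hH0 n))
    have e1 := h1 i
    have e0 := h1 0
    rw [hHg, hgn] at e0
    rw [hHg] at e1
    simp only [emb, map_mul] at *
    rw [e1, ← mul_assoc, e0]; ring
  obtain ⟨B, p, hB, -, hp⟩ := exists_common (s 0) (m := ∑ i, ht (s 0 i))
    fun i => Finset.single_le_sum (f := fun i => ht (s 0 i)) (fun _ _ => Nat.zero_le _)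
      (Finset.mem_univ i)
  have hpm : ∀ i, Bd (p i) (∑ i, (p i).totalDegree) := fun i =>
    Finset.single_le_sum (f := fun i => (p i).totalDegree) (fun _ _ => Nat.zero_le _)
      (Finset.mem_univ i)
  generalize ∑ i, (p i).totalDegree = m at hpm
  have lowD : ∀ n, ht (s n i0) ≤ D n * m := fun n => by
    obtain ⟨c, hc, h1⟩ := orbit hf.1 (s := s) (emb_ne hB) hp n
      fun j _ => by simpa only [hs] using hf1 _ (hsG j)
    have e1 := h1 i0
    have e0 := h1 0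
    rw [hHg, map_mul] at e0 e1
    rw [hsn, mul_one] at e0
    have e2 := left_ne_zero_of_mul (e0 ▸ hc)
    have e3 := right_ne_zero_of_mul (e0 ▸ hc)
    rw [aeval_emb] at e3
    refine ht_le' (A := aeval p (g n i0)) (B := aeval p (g n 0)) (fun h => e3 (by rw [h]; simp [emb])) ?_
      (bd_aeval hpm ((hg n).1 i0)) (bd_aeval hpm ((hg n).1 0))
    apply mul_left_cancel₀ e2
    rw [← aeval_emb, ← aeval_emb, e1, mul_left_comm, e0]; ring
  have main : ∀ n ≥ 2 * C2 * 2 ^ k + 1, n ^ (k + 1) ≤ (2 * C2 * m) * D n ∧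
      D n ≤ ((N + 1) * C1 * 2 ^ (k + 1)) * n ^ (k + 1) := fun n hn => by
    have hn1 : n + 1 ≤ 2 * n := by omega
    constructor
    · have h1 := low n
      have h2 : C2 * ht (s n i0) ≤ C2 * (D n * m) := Nat.mul_le_mul_left _ (lowD n)
      have h3 : 2 * (C2 * (n + 1) ^ k) ≤ n ^ (k + 1) := by
        calc 2 * (C2 * (n + 1) ^ k) ≤ 2 * (C2 * (2 * n) ^ k) := by gcongr
          _ = n ^ k * (2 * C2 * 2 ^ k) := by rw [mul_pow]; ring
          _ ≤ n ^ k * n := Nat.mul_le_mul_left _ (by omega)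
          _ = n ^ (k + 1) := by ring
      have h4 : (2 * C2 * m) * D n = 2 * (C2 * (D n * m)) := by ring
      omega
    · calc D n ≤ (N + 1) * (C1 * (n + 1) ^ (k + 1)) := upD n
        _ ≤ (N + 1) * (C1 * (2 * n) ^ (k + 1)) := by gcongr
        _ = _ := by rw [mul_pow]; ring
  have hd : 0 < d := by
    rcases Nat.eq_zero_or_pos d with rfl | hd
    · have h1 := (main _ le_rfl).1
      have h2 := hD (2 * C2 * 2 ^ k + 1)
      rw [zero_pow (by omega), Nat.le_zero] at h2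
      rw [h2, mul_zero] at h1
      exact absurd h1 (by positivity : 0 < (2 * C2 * 2 ^ k + 1) ^ (k + 1)).not_ge
    · exact hd
  have hf0 : f 0 ≠ 0 := right_ne_zero_of_mul (hFf 0 ▸ hF0)
  refine ⟨f, d, D, hf, algInd hf.1 hd hf0 fun M hM => dom good M fun i => ?_,
    fun n e => ⟨fun he => hasDeg_unique (hit' n) he ⟨_, _, hg n, hHg n⟩, ?_⟩, _, _, _, main⟩
  · obtain ⟨c, hc, h1⟩ := og 1
    have e : ∀ i, iter f 1 i = f i := fun i => by simp [iter]
    have := hM i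
    rw [← e, ← e, h1, h1, hgn] at this
    rwa [mul_one, mul_div_cancel_left₀ _ hc] at this
  · rintro rfl
    exact ⟨_, _, hg n, hHg n⟩

/-- The statement in terms of real asymptotics. -/
theorem conclusion {l : ℕ}
    (h : ∃ (f : Fin (N + 1) → MvPolynomial (Fin (N + 1)) K) (d : ℕ) (D : ℕ → ℕ),
      IsMap f d ∧ AlgebraicIndependent K f ∧ (∀ n e, HasDeg (iter f n) e ↔ e = D n) ∧
      ∃ c1 c2 n0 : ℕ, ∀ n ≥ n0, n ^ l ≤ c1 * D n ∧ D n ≤ c2 * n ^ l) :
    ∃ (f : Fin (N + 1) → MvPolynomial (Fin (N + 1)) K) (d : ℕ) (D : ℕ → ℕ) (δ : ℝ),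
      IsMap f d ∧ AlgebraicIndependent K f ∧ (∀ n e, HasDeg (iter f n) e ↔ e = D n) ∧
      Tendsto (fun n : ℕ => (D n : ℝ) ^ (1 / (n : ℝ))) atTop (𝓝 δ) ∧ δ = 1 ∧
      Asymp (fun n => (D n : ℝ)) (fun n => (n : ℝ) ^ l * δ ^ n) ∧
      ∀ j < l, ¬ Asymp (fun n => (D n : ℝ)) (fun n => (n : ℝ) ^ j * δ ^ n) := by
  obtain ⟨f, d, D, h1, h2, h3, c1, c2, n0, h4⟩ := h
  exact ⟨f, d, D, 1, h1, h2, h3, tendsto_root h4, rfl, asymp_of h4, fun j hj => not_asymp_of h4 hj⟩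

end Pool.Agent.Lib.MP_55ef7c_ag
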