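import Mathlib

/-!
Heights on the field of rational functions in several variables.
-/

namespace Pool.Agent.Lib.MP_55ef7c_ag

open MvPolynomial

/-- The field of rational functions. -/
abbrev Fn (σ K : Type*) [Field K] := FractionRing (MvPolynomial σ K)

variable {σ K : Type*} [Field K]

/-- The inclusion of polynomials into rational functions. -/
noncomputable abbrev emb (A : MvPolynomial σ K) : Fn σ K := algebraMap (MvPolynomial σ K) (Fn σ K) A

lemma emb_inj {A B : MvPolynomial σ K} (h : emb A = emb B) : A = B :=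
  IsFractionRing.injective (MvPolynomial σ K) (Fn σ K) h

lemma emb_ne {A : MvPolynomial σ K} (h : A ≠ 0) : emb A ≠ 0 := fun h' =>
  h (emb_inj (by rw [h']; simp [emb]))

/-- The height (degree) of a rational function. -/
noncomputable def ht (u : Fn σ K) : ℕ :=
  max (IsFractionRing.num (MvPolynomial σ K) u).totalDegree
    (IsFractionRing.den (MvPolynomial σ K) u : MvPolynomial σ K).totalDegree

lemma exists_rep (u : Fn σ K) : ∃ A B : MvPolynomial σ K, B ≠ 0 ∧ IsRelPrime A B ∧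
    u * emb B = emb A ∧ ht u = max A.totalDegree B.totalDegree := by
  refine ⟨_, _, nonZeroDivisors.coe_ne_zero (IsFractionRing.den (MvPolynomial σ K) u),
    IsFractionRing.num_den_reduced _ u, ?_, rfl⟩
  have h := IsFractionRing.mk'_num_den' (MvPolynomial σ K) u
  have h2 := emb_ne (nonZeroDivisors.coe_ne_zero (IsFractionRing.den (MvPolynomial σ K) u))
  rw [div_eq_iff h2] at h
  exact h.symm

lemma deg_le_of_dvd {A B : MvPolynomial σ K} (h : A ∣ B) (hB : B ≠ 0) :
    A.totalDegree ≤ B.totalDegree := totalDegree_le_of_dvd_of_isDomain h hB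

/-- Any representation is a multiple of a coprime one. -/
lemma exists_mul_of_rep {A B A' B' : MvPolynomial σ K} (hB : B ≠ 0) (hc : IsRelPrime A B)
    (h : A * B' = A' * B) : ∃ g, A' = g * A ∧ B' = g * B := by
  have h1 : B ∣ B' := hc.symm.dvd_of_dvd_mul_left ⟨A', by rw [h]; ring⟩
  obtain ⟨g, rfl⟩ := h1
  refine ⟨g, ?_, by ring⟩
  apply mul_right_cancel₀ hB
  rw [← h]; ring

lemma max_deg_le {A B g : MvPolynomial σ K} (hg : g ≠ 0) (hB : B ≠ 0) :
    max A.totalDegree B.totalDegree ≤ max (g * A).totalDegree (g * B).totalDegree := by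
  have h2 : B.totalDegree ≤ (g * B).totalDegree := deg_le_of_dvd ⟨g, by ring⟩ (mul_ne_zero hg hB)
  by_cases hA : A = 0
  · subst hA
    simp only [totalDegree_zero, mul_zero]
    omega
  · have h1 : A.totalDegree ≤ (g * A).totalDegree :=
      deg_le_of_dvd ⟨g, by ring⟩ (mul_ne_zero hg hA)
    omega

lemma ht_le {u : Fn σ K} {A B : MvPolynomial σ K} (hB : B ≠ 0) (h : u * emb B = emb A) :
    ht u ≤ max A.totalDegree B.totalDegree := by
  obtain ⟨A0, B0, hB0, hc, h0, he⟩ := exists_rep u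
  have : A0 * B = A * B0 := emb_inj (by
    simp only [emb, map_mul] at *
    rw [← h0, ← h]; ring)
  obtain ⟨g, rfl, rfl⟩ := exists_mul_of_rep hB0 hc this
  rw [he]
  exact max_deg_le (left_ne_zero_of_mul hB) hB0

lemma ht_eq {u : Fn σ K} {A B : MvPolynomial σ K} (hB : B ≠ 0) (hc : IsRelPrime A B)
    (h : u * emb B = emb A) : ht u = max A.totalDegree B.totalDegree := by
  refine le_antisymm (ht_le hB h) ?_
  obtain ⟨A0, B0, hB0, -, h0, he⟩ := exists_rep u
  have : A * B0 = A0 * B := emb_inj (by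
    simp only [emb, map_mul] at *
    rw [← h0, ← h]; ring)
  obtain ⟨g, rfl, rfl⟩ := exists_mul_of_rep hB hc this
  rw [he]
  exact max_deg_le (left_ne_zero_of_mul hB0) hB

/-- Degree bound predicate. -/
def Bd (A : MvPolynomial σ K) (n : ℕ) : Prop := A.totalDegree ≤ n

lemma Bd.mul {A B : MvPolynomial σ K} {m n : ℕ} (h : Bd A m) (h' : Bd B n) : Bd (A * B) (m + n) :=
  (totalDegree_mul A B).trans (add_le_add h h')

lemma Bd.add {A B : MvPolynomial σ K} {n : ℕ} (h : Bd A n) (h' : Bd B n) : Bd (A + B) n :=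
  (totalDegree_add A B).trans (max_le h h')

lemma Bd.neg {A : MvPolynomial σ K} {n : ℕ} (h : Bd A n) : Bd (-A) n := by
  unfold Bd at *; rwa [totalDegree_neg]

lemma Bd.sub {A B : MvPolynomial σ K} {n : ℕ} (h : Bd A n) (h' : Bd B n) : Bd (A - B) n := by
  rw [sub_eq_add_neg]; exact h.add h'.neg

lemma Bd.pow {A : MvPolynomial σ K} {n : ℕ} (h : Bd A n) (k : ℕ) : Bd (A ^ k) (k * n) :=
  (totalDegree_pow A k).trans (Nat.mul_le_mul_left k h)

lemma Bd.mono {A : MvPolynomial σ K} {m n : ℕ} (h : Bd A m) (hmn : m ≤ n) : Bd A n :=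
  le_trans h hmn

lemma Bd.nat (k : ℕ) : Bd (k : MvPolynomial σ K) 0 := by
  unfold Bd
  rw [← map_natCast (C : K →+* MvPolynomial σ K), totalDegree_C]

lemma Bd.ofNat (k : ℕ) [k.AtLeastTwo] : Bd (OfNat.ofNat k : MvPolynomial σ K) 0 := Bd.nat k

lemma Bd.cmul {A : MvPolynomial σ K} {n : ℕ} (h : Bd A n) (k : ℕ) [k.AtLeastTwo] :
    Bd (OfNat.ofNat k * A) n := ((Bd.ofNat k).mul h).mono (by omega)

lemma exists_rep' (u : Fn σ K) : ∃ A B : MvPolynomial σ K, B ≠ 0 ∧
    u * emb B = emb A ∧ Bd A (ht u) ∧ Bd B (ht u) := by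
  obtain ⟨A, B, hB, -, h, he⟩ := exists_rep u
  exact ⟨A, B, hB, h, by rw [he]; exact le_max_left _ _, by rw [he]; exact le_max_right _ _⟩

lemma ht_le' {u : Fn σ K} {A B : MvPolynomial σ K} {n : ℕ} (hB : B ≠ 0) (h : u * emb B = emb A)
    (h1 : Bd A n) (h2 : Bd B n) : ht u ≤ n := (ht_le hB h).trans (max_le h1 h2)

lemma ht_emb (A : MvPolynomial σ K) : ht (emb A) = A.totalDegree := by
  rw [ht_eq (A := A) (B := 1) one_ne_zero isRelPrime_one_right (by simp [emb])]
  simp

lemma ht_zero : ht (0 : Fn σ K) = 0 := by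
  have := ht_emb (0 : MvPolynomial σ K)
  simpa [emb] using this

lemma ht_one : ht (1 : Fn σ K) = 0 := by
  have := ht_emb (1 : MvPolynomial σ K)
  simpa [emb] using this

lemma ht_mul (u v : Fn σ K) : ht (u * v) ≤ ht u + ht v := by
  obtain ⟨A, B, hB, h, h1, h2⟩ := exists_rep' u
  obtain ⟨A', B', hB', h', h1', h2'⟩ := exists_rep' v
  refine ht_le' (mul_ne_zero hB hB') ?_ (h1.mul h1') (h2.mul h2')
  simp only [emb, map_mul] at *
  rw [← h, ← h']; ring

lemma ht_add (u v : Fn σ K) : ht (u + v) ≤ ht u + ht v := by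
  obtain ⟨A, B, hB, h, h1, h2⟩ := exists_rep' u
  obtain ⟨A', B', hB', h', h1', h2'⟩ := exists_rep' v
  refine ht_le' (mul_ne_zero hB hB') ?_ ((h1.mul h2').add (h2.mul h1')) (h2.mul h2')
  simp only [emb, map_mul, map_add] at *
  rw [← h, ← h']; ring

lemma ht_neg (u : Fn σ K) : ht (-u) ≤ ht u := by
  obtain ⟨A, B, hB, h, h1, h2⟩ := exists_rep' u
  refine ht_le' hB ?_ h1.neg h2
  simp only [emb, map_neg] at *
  rw [← h]; ring

lemma ht_sub (u v : Fn σ K) : ht (u - v) ≤ ht u + ht v := by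
  rw [sub_eq_add_neg]
  exact (ht_add _ _).trans (Nat.add_le_add_left (ht_neg v) _)

lemma ht_inv (u : Fn σ K) : ht u⁻¹ ≤ ht u := by
  by_cases hu : u = 0
  · simp [hu]
  obtain ⟨A, B, hB, h, h1, h2⟩ := exists_rep' u
  have hA : A ≠ 0 := by
    rintro rfl
    simp only [emb, map_zero, mul_eq_zero, hu, false_or] at h
    exact emb_ne hB h
  refine ht_le' hA ?_ h2 h1
  rw [← h]; field_simp

lemma ht_div (u v : Fn σ K) : ht (u / v) ≤ ht u + ht v := by
  rw [div_eq_mul_inv]
  exact (ht_mul _ _).trans (Nat.add_le_add_left (ht_inv v) _)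

lemma deg_pow (A : MvPolynomial σ K) (k : ℕ) : (A ^ k).totalDegree = k * A.totalDegree := by
  by_cases hA : A = 0
  · subst hA
    cases k <;> simp
  induction k with
  | zero => simp
  | succ k ih => rw [pow_succ, totalDegree_mul_of_isDomain (pow_ne_zero _ hA) hA, ih]; ring

lemma ht_pow (u : Fn σ K) (k : ℕ) : ht (u ^ k) = k * ht u := by
  obtain ⟨A, B, hB, hc, h, he⟩ := exists_rep u
  rw [ht_eq (A := A ^ k) (B := B ^ k) (pow_ne_zero _ hB) hc.pow
    (by simp only [emb, map_pow] at *; rw [← h]; ring), he, deg_pow, deg_pow, mul_max]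

/-- The height of a root of a quadratic polynomial. -/
lemma ht_root {T : Fn σ K} {c2 c1 c0 : MvPolynomial σ K} {n : ℕ} (h2 : Bd c2 n) (h1 : Bd c1 n)
    (h0 : Bd c0 n) (hne : c2 ≠ 0 ∨ c1 ≠ 0)
    (h : emb c2 * T ^ 2 - emb c1 * T + emb c0 = 0) : ht T ≤ n := by
  obtain ⟨A, B, hB, hc, hT, he⟩ := exists_rep T
  have key : c2 * A ^ 2 - c1 * A * B + c0 * B ^ 2 = 0 := emb_inj (by
    simp only [emb, map_mul, map_add, map_sub, map_pow, map_zero] at *
    rw [← hT]
    linear_combination (algebraMap (MvPolynomial σ K) (Fn σ K) B) ^ 2 * h)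
  rw [he]
  by_cases hc2 : c2 = 0
  · have hc1 : c1 ≠ 0 := hne.resolve_left (fun h => h hc2)
    have k2 : A * c1 = c0 * B := by
      apply mul_right_cancel₀ hB
      rw [hc2] at key
      linear_combination -key
    obtain ⟨g, rfl, rfl⟩ := exists_mul_of_rep hB hc k2
    exact (max_deg_le (left_ne_zero_of_mul hc1) hB).trans (max_le h0 h1)
  · have hBd : B ∣ c2 := by
      have : B ∣ A ^ 2 * c2 := ⟨c1 * A - c0 * B, by linear_combination key⟩
      exact (hc.pow_left (m := 2)).symm.dvd_of_dvd_mul_left this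
    refine max_le ?_ ((deg_le_of_dvd hBd hc2).trans h2)
    by_cases hA : A = 0
    · simp [hA]
    by_cases hc0 : c0 = 0
    · have k2 : c2 * A = c1 * B := by
        apply mul_right_cancel₀ hA
        rw [hc0] at key
        linear_combination key
      have hc1 : c1 ≠ 0 := by
        rintro rfl
        simp [hc2, hA] at k2
      have : A ∣ c1 := hc.dvd_of_dvd_mul_right ⟨c2, by rw [← k2]; ring⟩
      exact (deg_le_of_dvd this hc1).trans h1
    · have : A ∣ B ^ 2 * c0 := ⟨c1 * B - c2 * A, by linear_combination key⟩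
      have : A ∣ c0 := (hc.pow_right (n := 2)).dvd_of_dvd_mul_left this
      exact (deg_le_of_dvd this hc0).trans h0

end Pool.Agent.Lib.MP_55ef7c_ag
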