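import Pool.Agent.Lib.MP_55ef7c_ag.Model

/-!
Rational self-maps of projective space as endomorphisms of the function field.
-/

namespace Pool.Agent.Lib.MP_55ef7c_ag

open MvPolynomial Filter Topology

variable {K : Type*} [Field K] {N : ℕ}

variable (K) in
/-- Subfields that contain the constants and are closed under taking roots of additive
or monomial equations. -/
def Closed {L : Type*} [Field L] [Algebra K L] (M : Subfield L) : Prop :=
  (∀ k : K, algebraMap K L k ∈ M) ∧ ∀ z n, 1 < n → (z ^ n ∈ M → z ∈ M) ∧ (z ^ n - z ∈ M → z ∈ M)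

lemma aeval_mem {L ι : Type*} [Field L] [Algebra K L] {M : Subfield L}
    (hK : ∀ k : K, algebraMap K L k ∈ M) {v : ι → L} (hv : ∀ i, v i ∈ M) (p : MvPolynomial ι K) :
    aeval v p ∈ M := by
  induction p using MvPolynomial.induction_on with
  | C a => rw [aeval_C]; exact hK a
  | add p q hp hq => rw [map_add]; exact M.add_mem hp hq
  | mul_X p i hp => rw [map_mul, aeval_X]; exact M.mul_mem hp (hv i)

lemma indep {x : Fin (N + 1) → Fn (Fin (N + 1)) K}
    (h : ∀ M : Subfield (Fn (Fin (N + 1)) K), Closed K M → (∀ i, x i ∈ M) →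
      ∀ i, emb (X i : PR N K) ∈ M) : AlgebraicIndependent K x := by
  let S := Algebra.adjoin K (Set.range x)
  let M : Subfield (Fn (Fin (N + 1)) K) :=
    { (Subalgebra.algebraicClosure S (Fn (Fin (N + 1)) K)).toSubring with
      inv_mem' := fun x hx => IsAlgebraic.inv hx }
  have hK : ∀ k : K, algebraMap K (Fn (Fin (N + 1)) K) k ∈ M := fun k =>
    isAlgebraic_algebraMap (R := S) (A := Fn (Fin (N + 1)) K) (algebraMap K S k)
  have hX := h M ⟨hK, fun z n hn => ⟨fun hz => IsAlgebraic.of_pow (by omega) hz, fun hz => by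
      have h1 : (Polynomial.X ^ n - Polynomial.X : Polynomial S).Monic :=
        Polynomial.monic_X_pow_sub (by rw [Polynomial.degree_X]; exact_mod_cast hn)
      refine IsAlgebraic.of_aeval (R := S) (Polynomial.X ^ n - Polynomial.X) ?_
        (by rw [h1.leadingCoeff]; exact one_mem _)
        (by rw [map_sub, map_pow, Polynomial.aeval_X]; exact hz)
      rw [Polynomial.natDegree_sub_eq_left_of_natDegree_lt (by simpa using hn)]
      simp
      omega⟩⟩
    fun i => isAlgebraic_algebraMap (R := S) (A := Fn (Fin (N + 1)) K)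
      ⟨x i, Algebra.subset_adjoin ⟨i, rfl⟩⟩
  have hp : ∀ p : PR N K, emb p ∈ M := fun p => by
    have := aeval_mem hK hX p
    rwa [aeval_emb, aeval_X_left_apply] at this
  have : Algebra.IsAlgebraic S (Fn (Fin (N + 1)) K) := ⟨fun z => by
    obtain ⟨A, B, hB, e, -⟩ := exists_rep' z
    rw [← eq_div_iff (emb_ne hB)] at e
    exact e ▸ M.div_mem (hp A) (hp B)⟩
  refine (Algebra.IsAlgebraic.isTranscendenceBasis_of_lift_le_trdeg_of_finite K x ?_).1
  exact ((algebraicIndependent_X (Fin (N + 1)) K).map'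
    (f := IsScalarTower.toAlgHom K (PR N K) (Fn (Fin (N + 1)) K))
    (IsFractionRing.injective (PR N K) _)).lift_cardinalMk_le_trdeg

lemma ht_const {σ : Type*} (k : K) : ht (algebraMap K (Fn σ K) k) = 0 := by
  rw [IsScalarTower.algebraMap_apply K (MvPolynomial σ K), ht_emb, algebraMap_eq, totalDegree_C]

lemma ht_ne_zero {σ : Type*} {z : Fn σ K} (h : Transcendental K z) : ht z ≠ 0 := fun h0 => by
  obtain ⟨A, B, hB, e, dA, dB⟩ := exists_rep' z
  rw [h0, Bd, Nat.le_zero, totalDegree_eq_zero_iff_eq_C] at dA dB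
  rw [← eq_div_iff (emb_ne hB), dA, dB] at e
  refine h (e ▸ ?_)
  rw [div_eq_mul_inv]
  exact (isAlgebraic_algebraMap (R := K) _).mul (isAlgebraic_algebraMap (R := K) _).inv

variable (K N) in
/-- Affine coordinates of the generic point. -/
noncomputable def gv (i : Fin (N + 1)) : Fn (Fin (N + 1)) K := emb (X i : PR N K) / emb (X 0)

lemma indep_gv {x : Fin N → Fn (Fin (N + 1)) K}
    (h : ∀ M : Subfield (Fn (Fin (N + 1)) K), Closed K M → (∀ i, x i ∈ M) → ∀ i, gv K N i ∈ M) :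
    AlgebraicIndependent K x := by
  refine (indep (x := Fin.cons (emb (X 0)) x) fun M hM hx i => ?_).comp Fin.succ
    (Fin.succ_injective _)
  have := M.mul_mem (h M hM (fun i => hx i.succ) i) (hx 0)
  rwa [Fin.cons_zero, gv, div_mul_cancel₀ _ (emb_ne (X_ne_zero 0))] at this

theorem abstract {g : Fin (N + 2) → Fn (Fin (N + 2)) K} (hg0 : g 0 = 1)
    (hg : ∀ M : Subfield (Fn (Fin (N + 2)) K), (∀ k : K, algebraMap K _ k ∈ M) →
      (∀ i, gv K (N + 1) i ∈ M) → ∀ i, g i ∈ M)
    (dom : ∀ M : Subfield (Fn (Fin (N + 2)) K), Closed K M → (∀ i, g i ∈ M) →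
      ∀ i, gv K (N + 1) i ∈ M) :
    ∃ (f : Fin (N + 2) → PR (N + 1) K) (d : ℕ) (D : ℕ → ℕ)
      (τ : Fn (Fin (N + 2)) K →ₐ[K] Fn (Fin (N + 2)) K),
      IsMap f d ∧ AlgebraicIndependent K f ∧ (∀ n e, HasDeg (iter f n) e ↔ e = D n) ∧
      (∀ i, τ (gv K (N + 1) i) = g i) ∧ (∀ n i, ht ((τ ^ n) (gv K (N + 1) i)) ≤ D n) ∧
      ∀ n m, (∀ i, ht ((τ ^ n) (gv K (N + 1) i)) ≤ m) → D n ≤ (N + 2) * m := by
  classical
  have hX0 : emb (X 0 : PR (N + 1) K) ≠ 0 := emb_ne (X_ne_zero 0)
  let G : (Fin (N + 2) → Fn (Fin (N + 2)) K) → Prop := fun x => x = fun i => emb (X i)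
  let M0 : Subfield (Fn (Fin (N + 2)) K) :=
    { carrier := {z | Rep K G fun _ => z}
      mul_mem' := Rep.mul
      add_mem' := Rep.add
      one_mem' := Rep.one
      zero_mem' := Rep.zero
      neg_mem' := Rep.neg
      inv_mem' := fun z hz => by
        by_cases h : z = 0
        · rw [h, inv_zero]
          exact Rep.zero
        · exact Rep.inv hz fun _ _ => h }
  have h0 := hg M0 (fun k => ⟨C k, 1, 0, isHomogeneous_C _ _, isHomogeneous_one _ _,
    fun v _ => by simp⟩) fun i => ⟨X i, X 0, 1, isHomogeneous_X _ _, isHomogeneous_X _ _,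
      fun v hv => by
        rw [hv, aeval_X, aeval_X]
        exact ⟨hX0, div_mul_cancel₀ _ hX0⟩⟩
  choose A B e hA hB hAB using h0
  replace hAB := fun i => hAB i _ rfl
  simp only [aeval_emb, aeval_X_left_apply] at hAB
  have hF : ∀ i, emb (A i * ∏ j ∈ Finset.univ.erase i, B j) = (∏ j, emb (B j)) * g i := fun i => by
    rw [← Finset.mul_prod_erase _ _ (Finset.mem_univ i), emb, map_mul, map_prod]
    rw [← show _ = algebraMap _ _ (A i) from (hAB i).2]
    ring
  have hc : (∏ j, emb (B j)) ≠ 0 := Finset.prod_ne_zero_iff.2 fun j _ => (hAB j).1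
  obtain ⟨h, f, d, hf, -, hFf⟩ := exists_isMap
    (G := fun i => A i * ∏ j ∈ Finset.univ.erase i, B j) (n := ∑ j, e j) (fun i => by
      rw [← Finset.add_sum_erase _ _ (Finset.mem_univ i)]
      exact (hA i).mul (IsHomogeneous.prod _ _ _ fun j _ => hB j)) (fun h => by
      have := hF 0
      rw [h, hg0, mul_one] at this
      exact hc (by rw [← this]; simp [emb]))
  simp only [hFf, emb, map_mul] at hF
  have hF0 := hF 0
  rw [hg0, mul_one] at hF0
  have hf0 : emb (f 0) ≠ 0 := right_ne_zero_of_mul (hF0 ▸ hc)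
  have hfg : ∀ i, emb (f i) = emb (f 0) * g i := fun i => by
    apply mul_left_cancel₀ (left_ne_zero_of_mul (hF0 ▸ hc))
    rw [hF, ← mul_assoc, hF0]
  have hf0' : f 0 ≠ 0 := fun h => hf0 (by rw [h]; simp [emb])
  have hd : 0 < d := by
    refine Nat.pos_of_ne_zero fun hd => ht_ne_zero ((indep_gv (x := fun i => g i.succ)
      fun M hM hx => dom M hM fun i => ?_).transcendental 0) (Nat.le_zero.1 ?_)
    · cases i using Fin.cases
      · exact hg0 ▸ M.one_mem
      · exact hx _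
    · exact (ht_le' hf0' ((mul_comm _ _).trans (hfg _).symm) (hf.1 _).totalDegree_le
        (hf.1 _).totalDegree_le).trans hd.le
  have hi : AlgebraicIndependent K fun i => emb (f i) := indep fun M hM hx => by
    have hu := dom M hM fun i => by
      have := M.div_mem (hx i) (hx 0)
      rwa [hfg, mul_div_cancel_left₀ _ hf0] at this
    have e0 : emb (f 0) = emb (X 0 : PR (N + 1) K) ^ d * aeval (gv K (N + 1)) (f 0) := by
      rw [← aeval_scale (hf.1 0)]
      have : (fun i => emb (X 0 : PR (N + 1) K) * gv K (N + 1) i) = fun i => emb (X i) :=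
        funext fun i => by rw [gv]; field_simp
      rw [this, aeval_emb, aeval_X_left_apply]
    have e1 := right_ne_zero_of_mul (e0 ▸ hf0)
    rw [← div_eq_iff e1] at e0
    have hp : (emb (X 0 : PR (N + 1) K) ^ d) ^ 2 ∈ M :=
      M.pow_mem (e0 ▸ M.div_mem (hx 0) (aeval_mem hM.1 hu _)) 2
    rw [← pow_mul] at hp
    intro i
    have := M.mul_mem (hu i) ((hM.2 _ _ (by omega)).1 hp)
    rwa [gv, div_mul_cancel₀ _ hX0] at this
  let τ : Fn (Fin (N + 2)) K →ₐ[K] Fn (Fin (N + 2)) K := IsFractionRing.liftAlgHom hi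
  have hτ : ∀ p : PR (N + 1) K, τ (emb p) = aeval (fun i => emb (f i)) p := fun p =>
    IsFractionRing.lift_algebraMap (g := (aeval fun i => emb (f i) : PR (N + 1) K →ₐ[K] _).toRingHom)
      hi p
  have hit : ∀ n i, (τ ^ n) (emb (X i)) = emb (iter f n i) := fun n => by
    induction n with
    | zero => exact fun i => rfl
    | succ n ih =>
      intro i
      rw [pow_succ, AlgHom.mul_apply, hτ, aeval_X, iter, ← aeval_emb, ← funext ih]
      have := DFunLike.congr_fun (comp_aeval (fun i => emb (X i : PR (N + 1) K)) (τ ^ n)) (f i)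
      rwa [AlgHom.comp_apply, aeval_emb, aeval_X_left_apply] at this
  have hit' : ∀ n, iter f n 0 ≠ 0 := fun n h => by
    have := hit n 0
    rw [h, show emb (0 : PR (N + 1) K) = 0 by simp [emb], map_eq_zero] at this
    exact hX0 this
  choose H g' D hg' hD hHg using fun n => exists_isMap (iter_hom hf.1 n) (hit' n)
  have hg0' : ∀ n, g' n 0 ≠ 0 := fun n => right_ne_zero_of_mul (hHg n 0 ▸ hit' n)
  have key : ∀ n i, emb (g' n i) = emb (g' n 0) * (τ ^ n) (gv K (N + 1) i) := fun n i => by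
    have h1 := emb_ne (left_ne_zero_of_mul (hHg n 0 ▸ hit' n))
    have h2 := emb_ne (hg0' n)
    rw [gv, map_div₀, hit, hit, hHg, hHg]
    simp only [emb, map_mul] at *
    field_simp
  refine ⟨f, d, D, τ, hf, .of_comp (IsScalarTower.toAlgHom K (PR (N + 1) K) _) hi,
    fun n e => ⟨fun he => hasDeg_unique (hit' n) he ⟨_, _, hg' n, hHg n⟩, ?_⟩, fun i => ?_,
    fun n i => ht_le' (hg0' n) ((mul_comm _ _).trans (key n i).symm) ((hg' n).1 _).totalDegree_le
      ((hg' n).1 _).totalDegree_le, fun n m hm => (hg' n).deg_le (hg0' n) (key n) hm⟩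
  · rintro rfl
    exact ⟨_, _, hg' n, hHg n⟩
  · rw [gv, map_div₀, hτ, hτ, aeval_X, aeval_X, hfg i, mul_div_cancel_left₀ _ hf0]

lemma closed_growth {σ : Type*} (τ : Fn σ K →ₐ[K] Fn σ K) (b : ℕ → ℕ) :
    ∃ M : Subfield (Fn σ K), Closed K M ∧ ∀ z, z ∈ M ↔ ∃ C, ∀ n, ht ((τ ^ n) z) ≤ C * b n := by
  refine ⟨{ carrier := {z | ∃ C, ∀ n, ht ((τ ^ n) z) ≤ C * b n}
            mul_mem' := fun ⟨C, h⟩ ⟨C', h'⟩ => ⟨C + C', fun n => by
              rw [map_mul, add_mul]
              exact (ht_mul _ _).trans (add_le_add (h n) (h' n))⟩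
            add_mem' := fun ⟨C, h⟩ ⟨C', h'⟩ => ⟨C + C', fun n => by
              rw [map_add, add_mul]
              exact (ht_add _ _).trans (add_le_add (h n) (h' n))⟩
            one_mem' := ⟨0, fun n => by simp [ht_one]⟩
            zero_mem' := ⟨0, fun n => by simp [ht_zero]⟩
            neg_mem' := fun ⟨C, h⟩ => ⟨C, fun n => by
              rw [map_neg]
              exact (ht_neg _).trans (h n)⟩
            inv_mem' := fun z ⟨C, h⟩ => ⟨C, fun n => by
              rw [map_inv₀]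
              exact (ht_inv _).trans (h n)⟩ },
    ⟨fun k => ⟨0, fun n => by rw [AlgHom.commutes, ht_const, zero_mul]⟩, fun z m hm =>
      ⟨fun ⟨C, h⟩ => ⟨C, fun n => le_trans ?_ (h n)⟩, fun ⟨C, h⟩ => ⟨C, fun n => le_trans ?_ (h n)⟩⟩⟩,
    fun z => Iff.rfl⟩
  · rw [map_pow, ht_pow]
    exact Nat.le_mul_of_pos_left _ (by omega)
  · rw [map_sub, map_pow]
    have h1 := ht_add ((τ ^ n) z ^ m - (τ ^ n) z) ((τ ^ n) z)
    rw [sub_add_cancel, ht_pow] at h1
    nlinarith

theorem conclusionQ {D : ℕ → ℕ} {l q c1 c2 n0 : ℕ} (hq : 0 < q)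
    (h : ∀ n ≥ n0, n ^ l * q ^ n ≤ c1 * D n ∧ D n ≤ c2 * (n ^ l * q ^ n)) :
    Tendsto (fun n : ℕ => (D n : ℝ) ^ (1 / (n : ℝ))) atTop (𝓝 q) ∧
      Asymp (fun n => (D n : ℝ)) (fun n => (n : ℝ) ^ l * (q : ℝ) ^ n) ∧
      ∀ j < l, ¬ Asymp (fun n => (D n : ℝ)) (fun n => (n : ℝ) ^ j * (q : ℝ) ^ n) := by
  have hq' : (0 : ℝ) < q := by exact_mod_cast hq
  have h1 : ∀ n ≥ n0, (n : ℝ) ^ l * q ^ n ≤ (c1 + 1) * D n := fun n hn => by
    exact_mod_cast (h n hn).1.trans (Nat.mul_le_mul_right _ (Nat.le_succ c1))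
  have h2 : ∀ n ≥ n0, (D n : ℝ) ≤ (c2 + 1) * (n ^ l * q ^ n) := fun n hn => by
    exact_mod_cast (h n hn).2.trans (Nat.mul_le_mul_right _ (Nat.le_succ c2))
  refine ⟨?_, ⟨1 / (c2 + 1), c1 + 1, by positivity, by positivity, n0, fun n hn => ⟨?_, h1 n hn⟩⟩,
    fun j hj ⟨a, b, ha, _, n1, h3⟩ => ?_⟩
  · have t1 : Tendsto (fun n : ℕ => (n : ℝ) ^ (1 / (n : ℝ))) atTop (𝓝 1) :=
      tendsto_rpow_div.comp tendsto_natCast_atTop_atTop
    have t2 : ∀ c : ℝ, 0 < c → Tendsto (fun n : ℕ => c ^ (1 / (n : ℝ))) atTop (𝓝 1) := fun c hc => by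
      have := (Real.continuousAt_const_rpow (a := c) (b := 0) hc.ne').tendsto.comp
        tendsto_one_div_atTop_nhds_zero_nat
      simpa [Function.comp_def] using this
    have t3 := ((t2 (c2 + 1) (by positivity)).mul (t1.pow l)).mul_const (q : ℝ)
    have t4 := (t2 (c1 + 1)⁻¹ (by positivity)).mul_const (q : ℝ)
    rw [one_pow, mul_one, one_mul] at t3
    rw [one_mul] at t4
    have e : ∀ n : ℕ, 1 ≤ n → ((q : ℝ) ^ n) ^ (1 / (n : ℝ)) = q := fun n hn => by
      rw [one_div, Real.pow_rpow_inv_natCast hq'.le (by omega)]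
    refine tendsto_of_tendsto_of_tendsto_of_le_of_le' t4 t3 ?_ ?_
    · filter_upwards [eventually_ge_atTop n0, eventually_ge_atTop 1] with n hn hn1
      rw [← e n hn1, ← Real.mul_rpow (by positivity) (by positivity)]
      refine Real.rpow_le_rpow (by positivity) ?_ (by positivity)
      rw [inv_mul_le_iff₀ (by positivity)]
      refine le_trans (le_mul_of_one_le_left (by positivity) (one_le_pow₀ ?_)) (h1 n hn)
      exact_mod_cast hn1
    · filter_upwards [eventually_ge_atTop n0, eventually_ge_atTop 1] with n hn hn1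
      rw [← e n hn1, ← Real.rpow_natCast ((n : ℝ) ^ (1 / (n : ℝ))), ← Real.rpow_mul (by positivity),
        mul_comm _ (l : ℝ), Real.rpow_mul (by positivity), Real.rpow_natCast,
        ← Real.mul_rpow (by positivity) (by positivity),
        ← Real.mul_rpow (by positivity) (by positivity), mul_assoc]
      exact Real.rpow_le_rpow (by positivity) (h2 n hn) (by positivity)
  · rw [one_div, inv_mul_le_iff₀ (by positivity)]
    exact h2 n hn
  · obtain ⟨n, hn⟩ := exists_nat_gt ((c1 + 1) / a)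
    have k0 := h1 (n + n0 + n1 + 1) (by omega)
    have k1 := (h3 (n + n0 + n1 + 1) (by omega)).1
    set m := n + n0 + n1 + 1 with hm
    have hm1 : (1 : ℝ) ≤ m := by exact_mod_cast (by omega : 1 ≤ m)
    have hnm : (n : ℝ) ≤ m := by exact_mod_cast (by omega : n ≤ m)
    have k2 : (m : ℝ) ^ j * m ≤ m ^ l := by
      rw [← pow_succ]; exact pow_le_pow_right₀ hm1 hj
    rw [div_lt_iff₀ ha] at hn
    have hp : (0 : ℝ) < (m : ℝ) ^ j * q ^ m := by positivity
    have k3 : a * ((m : ℝ) ^ j * m * q ^ m) ≤ (c1 + 1) * ((m : ℝ) ^ j * q ^ m) := by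
      calc a * ((m : ℝ) ^ j * m * q ^ m) ≤ a * ((c1 + 1) * D m) :=
            mul_le_mul_of_nonneg_left (le_trans (by gcongr) k0) ha.le
        _ = (c1 + 1) * (a * D m) := by ring
        _ ≤ _ := by gcongr
    have k4 : (c1 + 1 : ℝ) < m * a := lt_of_lt_of_le hn (by gcongr)
    nlinarith

end Pool.Agent.Lib.MP_55ef7c_ag
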