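import Pool.Agent.Lib.MP_55ef7c_ag.InsepA

/-!
Moore matrices and the parametrisation of the group `y i ^ p - y i = c i * s`.
-/

namespace Pool.Agent.Lib.MP_55ef7c_ag

open Finset Matrix

variable {L : Type*} [Field L] {N p : ℕ}

/-- The Moore matrix. -/
def Mo {R : Type*} [Monoid R] (p : ℕ) (ζ : Fin N → R) : Matrix (Fin N) (Fin N) R :=
  Matrix.of fun r i => ζ i ^ p ^ (r : ℕ)

lemma sol_mem {A : Matrix (Fin N) (Fin N) L} (hA : A.det ≠ 0) {M : Subfield L}
    (h : ∀ i j, A i j ∈ M) {x : Fin N → L} (hx : ∀ i, (A *ᵥ x) i ∈ M) (i : Fin N) : x i ∈ M := by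
  let A' : Matrix (Fin N) (Fin N) M := Matrix.of fun i j => ⟨A i j, h i j⟩
  have e : A = A'.map M.subtype := rfl
  have h1 : A'.det ≠ 0 := fun h0 => hA (by
    rw [e, ← RingHom.mapMatrix_apply, ← RingHom.map_det, h0, map_zero])
  obtain ⟨y, hy⟩ := (mulVec_surjective_iff_isUnit.2 ((isUnit_iff_isUnit_det _).2 h1.isUnit))
    fun i => ⟨_, hx i⟩
  have h2 : A *ᵥ (M.subtype ∘ y) = A *ᵥ x := funext fun j => by
    rw [e, ← RingHom.map_mulVec, hy]
    rfl
  rw [← (mulVec_injective_iff_isUnit.2 ((isUnit_iff_isUnit_det _).2 hA.isUnit)) h2]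
  exact (y i).2

/-- The first row of the inverse of a Moore matrix. -/
def Lam (p : ℕ) (ζ l : Fin N → L) : Prop :=
  ∀ r < N, ∑ i, l i * ζ i ^ p ^ r = if r = 0 then 1 else 0

lemma lam_iff {ζ l : Fin N → L} :
    Lam p ζ l ↔ Mo p ζ *ᵥ l = fun r : Fin N => if (r : ℕ) = 0 then 1 else 0 := by
  simp only [Lam, funext_iff, mulVec, dotProduct, Mo, of_apply, mul_comm (l _)]
  exact ⟨fun h r => h r r.2, fun h r hr => h ⟨r, hr⟩⟩

/-- The parametrisation. -/
def Par (p : ℕ) (ζ : Fin N → L) (w : L) (y : Fin N → L) (s : L) : Prop :=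
  ∃ l, Lam p ζ l ∧ w = ∑ i, l i * y i ∧ ∀ i, y i ^ p - y i = ζ i ^ p ^ N * s

lemma Par.map {ζ y : Fin N → L} {w s : L} (h : Par p ζ w y s) (θ : L →+* L) :
    Par p (fun i => θ (ζ i)) (θ w) (fun i => θ (y i)) (θ s) := by
  obtain ⟨l, h1, h2, h3⟩ := h
  refine ⟨fun i => θ (l i), fun r hr => ?_, by simp [h2], fun i => ?_⟩
  · simpa [apply_ite θ] using congrArg θ (h1 r hr)
  · simpa using congrArg θ (h3 i)

lemma exists_lam {ζ : Fin N → L} (h : (Mo p ζ).det ≠ 0) : ∃ l, Lam p ζ l := by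
  simp only [lam_iff]
  exact mulVec_surjective_iff_isUnit.2 ((isUnit_iff_isUnit_det _).2 h.isUnit) _

lemma Lam.mem {ζ l : Fin N → L} (hl : Lam p ζ l) (h : (Mo p ζ).det ≠ 0) {M : Subfield L}
    (hζ : ∀ i, ζ i ∈ M) (i : Fin N) : l i ∈ M := by
  refine sol_mem h (fun r i => M.pow_mem (hζ i) _) (fun r => ?_) i
  rw [lam_iff.1 hl]
  dsimp only
  split_ifs
  · exact M.one_mem
  · exact M.zero_mem

lemma Par.w_mem {ζ y : Fin N → L} {w s : L} (hP : Par p ζ w y s) (h : (Mo p ζ).det ≠ 0)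
    {M : Subfield L} (hζ : ∀ i, ζ i ∈ M) (hy : ∀ i, y i ∈ M) : w ∈ M := by
  obtain ⟨l, h1, rfl, -⟩ := hP
  exact M.sum_mem fun i _ => M.mul_mem (h1.mem h hζ i) (hy i)

variable [Fact p.Prime] [CharP L p]

lemma Lam.pair {ζ l : Fin N → L} (hl : Lam p ζ l) {a r : ℕ} (har : a ≤ r) (hr : r < a + N) :
    ∑ i, l i ^ p ^ a * ζ i ^ p ^ r = if r = a then 1 else 0 := by
  obtain ⟨k, rfl⟩ := Nat.exists_eq_add_of_le har
  have := congrArg (iterateFrobenius L p a) (hl k (by omega))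
  simp only [map_sum, map_mul, iterateFrobenius_def, ← pow_mul, ← pow_add, add_comm k] at this
  rw [this]
  by_cases hk : k = 0
  · simp [hk]
  · simp [hk, (Fact.out : p.Prime).ne_zero]

lemma Lam.det {ζ l : Fin N → L} (hl : Lam p ζ l) : (Mo p l).det ≠ 0 := by
  have h1 : ∀ a r : Fin N, a ≤ r → (Mo p l * (Mo p ζ)ᵀ) a r = if (r : ℕ) = a then 1 else 0 :=
    fun a r h => hl.pair h (by omega)
  have h2 : (Mo p l * (Mo p ζ)ᵀ).det = 1 := by
    rw [det_of_isLowerTriangular _ fun a r h => ?_]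
    · exact prod_eq_one fun a _ => by rw [h1 a a le_rfl, if_pos rfl]
    · have h3 : a < r := h
      rw [h1 a r h3.le, if_neg (by omega)]
  rw [det_mul] at h2
  exact left_ne_zero_of_mul (h2 ▸ one_ne_zero)

lemma Lam.mulVec {ζ l y : Fin N → L} {s : L} (hl : Lam p ζ l)
    (hy : ∀ i, y i ^ p - y i = ζ i ^ p ^ N * s) :
    Mo p l *ᵥ y = fun j : Fin N => (∑ i, l i * y i) ^ p ^ (j : ℕ) := by
  have key : ∀ j < N, ∑ i, l i ^ p ^ j * y i = (∑ i, l i * y i) ^ p ^ j := fun j hj => by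
    induction j with
    | zero => simp
    | succ j ih =>
      have h1 := hl.pair (a := j + 1) (r := N) hj.le (by omega)
      rw [if_neg (by omega)] at h1
      rw [pow_succ p, pow_mul, ← ih (by omega), sum_pow_char, ← add_zero (∑ i, l i ^ _ * y i),
        ← zero_mul s, ← h1, sum_mul, ← sum_add_distrib]
      refine sum_congr rfl fun i _ => ?_
      rw [mul_pow, ← pow_mul, ← pow_succ p, mul_assoc, ← hy]
      ring
  exact funext fun j => key j j.2

lemma Par.y_mem {ζ y : Fin N → L} {w s : L} (hP : Par p ζ w y s) (h : (Mo p ζ).det ≠ 0)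
    {M : Subfield L} (hζ : ∀ i, ζ i ∈ M) (hw : w ∈ M) (i : Fin N) : y i ∈ M := by
  obtain ⟨l, h1, rfl, h3⟩ := hP
  refine sol_mem h1.det (fun r i => M.pow_mem (h1.mem h hζ i) _) (fun r => ?_) i
  rw [h1.mulVec h3]
  exact M.pow_mem hw _

lemma Par.unique {ζ y y' : Fin N → L} {w s s' : L} (hP : Par p ζ w y s) (hP' : Par p ζ w y' s')
    (h : (Mo p ζ).det ≠ 0) : y = y' := by
  obtain ⟨l, h1, h2, h3⟩ := hP
  obtain ⟨l', h1', h2', h3'⟩ := hP'
  obtain rfl : l = l' := mulVec_injective_iff_isUnit.2 ((isUnit_iff_isUnit_det _).2 h.isUnit)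
    ((lam_iff.1 h1).trans (lam_iff.1 h1').symm)
  refine mulVec_injective_iff_isUnit.2 ((isUnit_iff_isUnit_det _).2 h1.det.isUnit) ?_
  rw [h1.mulVec h3, h1.mulVec h3', ← h2, ← h2']

lemma exists_par {ζ : Fin (N + 1) → L} (h : (Mo p ζ).det ≠ 0) (w : L) : ∃ y s, Par p ζ w y s := by
  obtain ⟨l, hl⟩ := exists_lam h
  obtain ⟨y, hy⟩ := mulVec_surjective_iff_isUnit.2 ((isUnit_iff_isUnit_det _).2 hl.det.isUnit)
    fun j => w ^ p ^ (j : ℕ)
  have h1 : ∀ j < N + 1, ∑ i, l i ^ p ^ j * y i = w ^ p ^ j := fun j hj => congrFun hy ⟨j, hj⟩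
  obtain ⟨s, hs⟩ : ∃ s, s = w ^ p ^ (N + 1) - ∑ i, l i ^ p ^ (N + 1) * y i := ⟨_, rfl⟩
  refine ⟨y, s, l, hl, by simpa using (h1 0 (by omega)).symm, fun i => ?_⟩
  have h2 : (Mo p fun i => l i ^ p).det ≠ 0 := by
    have : (Mo p fun i => l i ^ p) = (frobenius L p).mapMatrix (Mo p l) := by
      ext r i
      simp [Mo, frobenius_def, ← pow_mul, mul_comm]
    rw [this, ← RingHom.map_det, map_ne_zero]
    exact hl.det
  refine sub_eq_zero.1 (congrFun (eq_zero_of_mulVec_eq_zero h2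
    (v := fun i => y i ^ p - y i - ζ i ^ p ^ (N + 1) * s) (funext fun j => ?_)) i)
  have h3 := hl.pair (a := j + 1) (r := N + 1) (by omega) (by omega)
  have h4 := congrArg (· ^ p) (h1 j j.2)
  simp only [sum_pow_char, mul_pow, ← pow_mul, ← pow_succ] at h4
  simp only [mulVec, dotProduct, Mo, of_apply, ← pow_mul, ← pow_succ', mul_sub, sum_sub_distrib,
    ← mul_assoc, ← sum_mul, h3, h4, Pi.zero_apply]
  split_ifs with h5
  · rw [← h5, hs]
    ring
  · rw [h1 _ (by omega)]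
    ring

omit [Fact p.Prime] in
lemma moore_aeval {K R : Type*} [Field K] [CommRing R] [Algebra K R] (v : Fin (N + 1) → R) (e : ℕ) :
    MvPolynomial.aeval v (Mo p fun i => (Fin.cons 1 fun j => MvPolynomial.X j.succ :
      Fin (N + 1) → MvPolynomial (Fin (N + 1)) K) i ^ e).det = (Mo p fun i : Fin (N + 1) =>
        (Fin.cons 1 (fun j => v j.succ) : Fin (N + 1) → R) i ^ e).det := by
  rw [AlgHom.map_det]
  congr 1
  ext r i
  cases i using Fin.cases <;> simp [Mo]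

omit [CharP L p] in
/-- The Moore determinant of `1` and powers of independent elements. -/
lemma moore_ne {K : Type*} [Field K] [Algebra K L] {x : Fin (N + 1) → L}
    (hx : AlgebraicIndependent K x) {e : ℕ} (he : 0 < e) :
    (Mo p fun i : Fin (N + 1) => (Fin.cons 1 (fun j => x j.succ) : Fin (N + 1) → L) i ^ e).det ≠ 0 := by
  rw [← moore_aeval (K := K), map_ne_zero_iff _ hx]
  intro h0
  have h2 := moore_aeval (p := p) (K := K) (R := Polynomial K)
    (fun i : Fin (N + 1) => Polynomial.X ^ (i : ℕ)) e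
  rw [h0, map_zero] at h2
  refine det_vandermonde_ne_zero_iff (v := fun r : Fin (N + 1) =>
    (Polynomial.X : Polynomial K) ^ (e * p ^ (r : ℕ))) |>.2 (fun a b hab => ?_) (Eq.trans ?_ h2.symm)
  · have := congrArg Polynomial.natDegree hab
    simp only [Polynomial.natDegree_X_pow] at this
    exact Fin.ext (Nat.pow_right_injective (Fact.out : p.Prime).two_le
      (Nat.eq_of_mul_eq_mul_left he this))
  · congr 1
    ext r i : 2
    cases i using Fin.cases <;> simp [Mo, vandermonde_apply, ← pow_mul, mul_comm]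

end Pool.Agent.Lib.MP_55ef7c_ag
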