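import Pool.Agent.Lib.MP_55ef7c_ag.InsepB

/-!
Twists of the supersingular curves in characteristics two and three.
-/

namespace Pool.Agent.Lib.MP_55ef7c_ag

open Finset WeierstrassCurve WeierstrassCurve.Affine

section Orbit

variable {A B : Type*} [AddCommGroup A] [AddCommGroup B]

/-- The orbit of a sequence under the unipotent map. -/
def orb (P : ℕ → A) : ℕ → ℕ → A
  | 0, i => P i
  | n + 1, 0 => orb P n 0
  | n + 1, i + 1 => orb P n (i + 1) + orb P n i

lemma orb_eq (P : ℕ → A) (n i : ℕ) : orb P n i = ∑ j ∈ range (i + 1), n.choose j • P (i - j) := by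
  induction n generalizing i with
  | zero => rw [sum_range_succ']; simp [orb]
  | succ n ih =>
    cases i with
    | zero => simp [orb, ih]
    | succ i =>
      rw [orb, ih, ih, sum_range_succ' _ (i + 1), sum_range_succ' _ (i + 1)]
      simp only [Nat.choose_succ_succ', add_nsmul, sum_add_distrib, Nat.add_sub_add_right,
        Nat.choose_zero_right]
      abel

lemma orb_map {P : ℕ → A} {T T' : A →+ B} {m : ℕ} (h : ∀ i ≤ m, T (P i) = T' (orb P 1 i)) (n : ℕ) :
    ∀ i ≤ m, T (orb P n i) = T' (orb P (n + 1) i) := by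
  induction n with
  | zero => exact h
  | succ n ih =>
    intro i hi
    cases i with
    | zero => exact ih 0 hi
    | succ i => rw [orb, map_add, ih _ hi, ih _ (by omega), ← map_add, ← orb]

end Orbit

section General

variable {L : Type*} [Field L] {p : ℕ}

lemma pt_ext {a b : L} {P Q : (W a b).Point} (hP : P ≠ 0) (hQ : Q ≠ 0) (h1 : px P = px Q)
    (h2 : py P = py Q) : P = Q := by
  rcases P with _ | ⟨x1, y1, k1⟩
  · exact absurd rfl hP
  rcases Q with _ | ⟨x2, y2, k2⟩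
  · exact absurd rfl hQ
  obtain rfl : x1 = x2 := h1
  obtain rfl : y1 = y2 := h2
  rfl

lemma exists_map [DecidableEq L] (θ : L →+* L) {a b a' b' : L} (ha : θ a = a') (hb : θ b = b') :
    ∃ T : (W a b).Point →+ (W a' b').Point,
      ∀ P, px (T P) = θ (px P) ∧ py (T P) = θ (py P) ∧ (P ≠ 0 → T P ≠ 0) := by
  have hW : W a' b' = (W a b).map θ := by simp [W, WeierstrassCurve.map, ha, hb]
  have hn : ∀ {x y}, (W a b).Nonsingular x y → (W a' b').Nonsingular (θ x) (θ y) := fun h =>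
    hW ▸ ((W a b).map_nonsingular θ.injective _ _).2 h
  have hY : ∀ x y, (W a' b').negY (θ x) (θ y) = θ ((W a b).negY x y) := fun x y => by
    rw [hW, map_negY]
  refine ⟨{ toFun := fun P => match P with
              | .zero => 0
              | .some x y h => .some (θ x) (θ y) (hn h)
            map_zero' := rfl
            map_add' := ?_ }, ?_⟩
  · rintro (_ | ⟨x₁, y₁, h₁⟩) (_ | ⟨x₂, y₂, h₂⟩)
    any_goals rfl
    by_cases hxy : x₁ = x₂ ∧ y₁ = (W a b).negY x₂ y₂
    · rw [Point.add_of_Y_eq hxy.1 hxy.2,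
        Point.add_of_Y_eq (congr_arg _ hxy.1) (by rw [hxy.2, hY])]
    · rw [Point.add_some hxy, Point.add_some fun h =>
        hxy ⟨θ.injective h.1, θ.injective (h.2.trans (hY _ _))⟩]
      simp only [Point.some.injEq]
      rw [hW, map_slope, map_addX, map_addY]
      exact ⟨rfl, rfl⟩
  · rintro (_ | ⟨x, y, h⟩)
    · exact ⟨(map_zero θ).symm, (map_zero θ).symm, fun h => absurd rfl h⟩
    · exact ⟨rfl, rfl, fun _ => Point.some_ne_zero _⟩

/-- First coefficient of the twist. -/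
def wA (p : ℕ) (s : L) : L := if p = 2 then s else 0

/-- Second coefficient of the twist. -/
def wB (p : ℕ) (s : L) : L := if p = 2 then 0 else -s ^ 2

/-- Abscissa on the twist. -/
def fX (p : ℕ) (s u y : L) : L := if p = 2 then s * u else s * y

/-- Ordinate on the twist. -/
def fY (p : ℕ) (s u y : L) : L := if p = 2 then s * y else s ^ 2 * u

/-- The multiplicative coordinate. -/
def gU (p : ℕ) (s x z : L) : L := if p = 2 then x / s else z / s ^ 2

/-- The additive coordinate. -/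
def gY (p : ℕ) (s x z : L) : L := if p = 2 then z / s else x / s

lemma w_map (θ : L →+* L) (s u y : L) : θ (wA p s) = wA p (θ s) ∧ θ (wB p s) = wB p (θ s) ∧
    θ (fX p s u y) = fX p (θ s) (θ u) (θ y) ∧ θ (fY p s u y) = fY p (θ s) (θ u) (θ y) ∧
    θ (gU p s u y) = gU p (θ s) (θ u) (θ y) := by
  by_cases h : p = 2 <;> simp [wA, wB, fX, fY, gU, h]

lemma w_mem {M : Subfield L} {s u y : L} (hs : s ∈ M) (hu : u ∈ M) (hy : y ∈ M) :
    wA p s ∈ M ∧ wB p s ∈ M ∧ fX p s u y ∈ M ∧ fY p s u y ∈ M ∧ gU p s u y ∈ M ∧ gY p s u y ∈ M := by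
  have h2 := M.pow_mem hs 2
  by_cases h : p = 2 <;> simp only [wA, wB, fX, fY, gU, gY, h, if_true, if_false]
  · exact ⟨hs, M.zero_mem, M.mul_mem hs hu, M.mul_mem hs hy, M.div_mem hu hs, M.div_mem hy hs⟩
  · exact ⟨M.zero_mem, M.neg_mem h2, M.mul_mem hs hy, M.mul_mem h2 hu, M.div_mem hy h2,
      M.div_mem hu hs⟩

lemma gU_f {s : L} (hs : s ≠ 0) (u y : L) : gU p s (fX p s u y) (fY p s u y) = u := by
  by_cases h : p = 2 <;> simp [fX, fY, gU, h, hs]

lemma f_g {s : L} (hs : s ≠ 0) (x z : L) :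
    fX p s (gU p s x z) (gY p s x z) = x ∧ fY p s (gU p s x z) (gY p s x z) = z := by
  by_cases h : p = 2 <;> simp only [fX, fY, gU, gY, h, if_true, if_false] <;>
    constructor <;> field_simp

lemma gU_zero (s : L) : gU p s 0 0 = 0 := by simp [gU]

variable [CharP L p]

lemma char_two (h : p = 2) : (2 : L) = 0 := by
  subst h
  exact_mod_cast CharP.cast_eq_zero L 2

lemma char_three (h : p = 3) : (3 : L) = 0 := by
  subst h
  exact_mod_cast CharP.cast_eq_zero L 3

lemma w_disc (hp : p = 2 ∨ p = 3) {s : L} (hs : s ≠ 0) :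
    64 * wB p s ^ 3 + 27 * wA p s ^ 4 ≠ 0 := fun h0 => by
  rcases hp with h | h
  · simp only [wA, wB, h, if_true] at h0
    exact pow_ne_zero 4 hs (by linear_combination h0 - 13 * s ^ 4 * char_two (L := L) h)
  · simp only [wA, wB, h, show ¬ (3 = 2) by omega, if_false] at h0
    exact pow_ne_zero 6 hs (by linear_combination -h0 - 21 * s ^ 6 * char_three (L := L) h)

lemma w_eqn (hp : p = 2 ∨ p = 3) {s : L} (hs : s ≠ 0) (u y : L) :
    y ^ p - y = u ^ (5 - p) * s ↔ fY p s u y ^ 2 + wA p s * fY p s u y =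
      fX p s u y ^ 3 + wB p s * fX p s u y := by
  rcases hp with h | h
  · have h2 := char_two (L := L) h
    simp only [wA, wB, fX, fY, h, if_true]
    exact ⟨fun h0 => by linear_combination s ^ 2 * h0 + s ^ 2 * y * h2, fun h0 =>
      mul_left_cancel₀ (pow_ne_zero 2 hs) (by linear_combination h0 - s ^ 2 * y * h2)⟩
  · simp only [wA, wB, fX, fY, h, show ¬ (3 = 2) by omega, if_false]
    exact ⟨fun h0 => by linear_combination -s ^ 3 * h0, fun h0 =>
      mul_left_cancel₀ (pow_ne_zero 3 hs) (by linear_combination -h0)⟩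

variable [DecidableEq L]

lemma px_two (h : p = 2) {s b : L} (hs : s ≠ 0) (hb : b = 0) (P : (W s b).Point) :
    px (2 • P) = px P ^ 4 / s ^ 2 := by
  subst hb
  have h2 := char_two (L := L) h
  rw [two_nsmul]
  rcases P with _ | ⟨x, y, k⟩
  · change (0 : L) = 0 ^ 4 / s ^ 2
    simp
  have h1 : y - (-y - s) = s := by linear_combination y * h2
  have hy : y ≠ (W s 0).negY x y := fun h0 => hs (by rw [W_negY] at h0; rw [← h1, ← h0, sub_self])
  rw [Point.add_self_of_Y_ne hy]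
  change (W s 0).addX x x _ = x ^ 4 / s ^ 2
  rw [slope_of_Y_ne rfl hy, W_addX, W_negY, h1]
  simp only [W]
  field_simp
  linear_combination (4 * x ^ 4 - x * s ^ 2) * h2

lemma px_three (h : p = 3) {s a b : L} (hs : s ≠ 0) (ha : a = 0) (hb : b = -s ^ 2)
    (P : (W a b).Point) (hP : py P ≠ 0) : px (3 • P) = px P ^ 9 / s ^ 8 := by
  subst ha hb
  have h3 := char_three (L := L) h
  rw [succ_nsmul, two_nsmul]
  rcases P with _ | ⟨x, y, k⟩
  · exact absurd rfl hP
  change y ≠ 0 at hP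
  have e := W_eq.1 k.1
  have h1 : y - (-y - 0) = -y := by linear_combination y * h3
  have hy : y ≠ (W 0 (-s ^ 2)).negY x y := fun h0 => hP (by
    rw [W_negY] at h0
    linear_combination -h0 + y * h3)
  have hl : (W 0 (-s ^ 2)).slope x x y y = s ^ 2 / y := by
    rw [slope_of_Y_ne rfl hy, W_negY, h1]
    simp only [W]
    field_simp
    linear_combination (-x ^ 2) * h3
  have k1 : px (Point.some x y k + Point.some x y k) = s ^ 4 / y ^ 2 + x := by
    rw [Point.add_self_of_Y_ne hy]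
    change (W 0 (-s ^ 2)).addX x x _ = _
    rw [W_addX, hl]
    linear_combination -x * h3
  have k2 : py (Point.some x y k + Point.some x y k) = -(s ^ 6 / y ^ 3) - y := by
    rw [Point.add_self_of_Y_ne hy]
    change (W 0 (-s ^ 2)).addY x x y _ = _
    rw [W_addY, hl]
    linear_combination (s ^ 2 / y * x) * h3
  have k3 : Point.some x y k + Point.some x y k ≠ 0 := by
    rw [Point.add_self_of_Y_ne hy]
    exact Point.some_ne_zero _
  have k4 : s ^ 4 / y ^ 2 ≠ 0 := by positivity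
  rw [(p_add k3 (Point.some_ne_zero k) (by
    rw [k1]
    exact fun h0 => k4 (add_eq_right.1 h0))).1, k1, k2]
  change aX _ _ x y = x ^ 9 / s ^ 8
  have k5 : (-(s ^ 6 / y ^ 3) - y - y) / (s ^ 4 / y ^ 2 + x - x) = y ^ 3 / s ^ 4 - s ^ 2 / y := by
    rw [add_sub_cancel_right]
    field_simp
    linear_combination (-y ^ 4) * h3
  rw [aX, k5]
  have k6 : y ^ 6 = x ^ 9 - s ^ 6 * x ^ 3 := by
    linear_combination (y ^ 4 + y ^ 2 * (x ^ 3 - s ^ 2 * x) + (x ^ 3 - s ^ 2 * x) ^ 2) * e +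
      (-x ^ 7 * s ^ 2 + x ^ 5 * s ^ 4) * h3
  field_simp
  linear_combination y ^ 2 * k6 + (y ^ 2 * s ^ 6) * e - (y ^ 4 * s ^ 6 + x * y ^ 2 * s ^ 8) * h3

end General

variable {σ K : Type*} [Field K] {p : ℕ}

lemma ht_gU (hp : p = 2 ∨ p = 3) {s : Fn σ K} (hs : s ≠ 0) (P : (W (wA p s) (wB p s)).Point) :
    ht (gU p s (px P) (py P)) ≤ 4 * hx P + 4 * ht s ∧
      hx P ≤ ht (gU p s (px P) (py P)) + 3 * ht s := by
  have e := p_eq P
  obtain ⟨h1, h2⟩ := f_g (p := p) hs (px P) (py P)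
  rw [hx_eq]
  generalize px P = x at *
  generalize py P = z at *
  have k1 := ht_pow s 2
  rcases hp with rfl | rfl
  · have k2 := ht_div x s
    have k3 := ht_mul s (gU 2 s x z)
    rw [show s * gU 2 s x z = x from h1] at k3
    exact ⟨k2.trans (by omega), by omega⟩
  · change z ^ 2 + 0 * z = x ^ 3 + -s ^ 2 * x at e
    have k2 := ht_div z (s ^ 2)
    have k3 := ht_mul (s ^ 2) (gU 3 s x z)
    rw [show s ^ 2 * gU 3 s x z = z from h2] at k3
    have k4 := ht_y e
    have k5 := ht_neg (s ^ 2)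
    have k6 := ht_add (z ^ 2) (s ^ 2 * x)
    have k7 := ht_mul (s ^ 2) x
    rw [show z ^ 2 + s ^ 2 * x = x ^ 3 by linear_combination e, ht_pow, ht_pow] at k6
    rw [ht_zero] at k4
    exact ⟨k2.trans (by omega), by omega⟩

variable [DecidableEq (Fn σ K)]

lemma sq_le_of {a b : Fn σ K} (T : (W a b).Point) {m c : ℕ} (hm : 1 < m)
    (h : ∀ k, (m ^ k) ^ 2 ≤ c * hx (m ^ k • T) + c) : ∃ C, ∀ N, N ^ 2 ≤ C * hx (N • T) + C := by
  refine ⟨8 * c * (2 * ht a + 2 * ht b + 1), fun N => ?_⟩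
  rcases Nat.eq_zero_or_pos N with rfl | hN
  · simp
  obtain ⟨k, hk⟩ : ∃ k, 2 * (c * (4 * N ^ 2 * (hx T + (2 * ht a + 2 * ht b)) +
      (2 * ht a + 2 * ht b)) + c) ≤ (m ^ k) ^ 2 :=
    ⟨_, (Nat.lt_pow_self hm).le.trans (Nat.le_self_pow two_ne_zero _)⟩
  have h1 := h k
  have h0 : 0 < (m ^ k) ^ 2 := by positivity
  generalize m ^ k = M at *
  have h2 := hx_add ((M / N) • N • T) ((M % N) • T)
  have h3 := hx_nsmul (N • T) (M / N)
  have h4 := hx_nsmul T (M % N)
  rw [← mul_nsmul' T, ← add_nsmul, Nat.div_add_mod'] at h2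
  rw [← mul_nsmul' T] at h3
  have h5 : (M / N * N) ^ 2 ≤ M ^ 2 := Nat.pow_le_pow_left (Nat.div_mul_le_self _ _) 2
  have h6 : (M % N) ^ 2 ≤ N ^ 2 := Nat.pow_le_pow_left (Nat.mod_lt _ hN).le 2
  generalize 2 * ht a + 2 * ht b = c0 at *
  generalize hx (N • T) = H at *
  have h7 : hx (M • T) ≤ 4 * ((M / N) ^ 2 * (H + c0)) + (4 * N ^ 2 * (hx T + c0) + c0) := by
    nlinarith [Nat.mul_le_mul_right (hx T + c0) h6]
  have h8 : M ^ 2 ≤ 8 * c * ((M / N) ^ 2 * (H + c0)) := by
    nlinarith [Nat.mul_le_mul_left c h7]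
  refine Nat.le_of_mul_le_mul_left (le_trans (Nat.mul_le_mul_right _ h8) ?_) h0
  calc _ = (M / N * N) ^ 2 * (8 * c * (H + c0)) := by ring
    _ ≤ M ^ 2 * (8 * c * ((c0 + 1) * H + (c0 + 1))) := by gcongr <;> nlinarith
    _ = _ := by ring

lemma grow [CharP (Fn σ K) p] (hp : p = 2 ∨ p = 3) {s t : Fn σ K} (hs : ht s ≠ 0)
    (hst : t ^ p - t = s) (T : (W (wA p s) (wB p s)).Point) (hT : px T = fX p s 1 t) :
    ∃ C, ∀ N, N ^ 2 ≤ C * hx (N • T) + C := by
  have hs0 : s ≠ 0 := fun h => hs (by rw [h, ht_zero])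
  rcases hp with rfl | rfl
  · refine sq_le_of T (c := 3) one_lt_two fun k => ?_
    have h1 : px (2 ^ k • T) ^ 3 = s ^ (4 ^ k + 2) := by
      induction k with
      | zero => rw [pow_zero, one_nsmul, hT]; simp [fX]
      | succ k ih =>
        rw [pow_succ' 2 k, mul_nsmul', px_two (s := wA 2 s) (b := wB 2 s) rfl hs0 rfl, div_pow,
          ← pow_mul, mul_comm 4, pow_mul, ih, div_eq_iff (by exact pow_ne_zero _ (pow_ne_zero _ hs0))]
        change _ = _ * (s ^ 2) ^ 3
        ring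
    have h2 := congrArg ht h1
    rw [ht_pow, ht_pow, ← hx_eq] at h2
    rw [← pow_mul, mul_comm k, pow_mul, h2, show 2 ^ 2 = 4 from rfl]
    nlinarith [Nat.pos_of_ne_zero hs, Nat.zero_le (4 ^ k)]
  · have h0 : ht t ≠ 0 := fun h => by
      have := ht_sub (t ^ 3) t
      rw [hst, ht_pow] at this
      omega
    refine sq_le_of T (c := ht s + 1) (m := 3) (by omega) fun k => ?_
    have h1 : px (3 ^ k • T) = s * t ^ 9 ^ k := by
      induction k with
      | zero => rw [pow_zero, one_nsmul, hT]; simp [fX]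
      | succ k ih =>
        have h3 : py (3 ^ k • T) ≠ 0 := fun h => by
          have e := p_eq (3 ^ k • T)
          rw [h, ih] at e
          change _ = _ + -s ^ 2 * _ at e
          have h2 := congrArg ht (mul_left_cancel₀ (pow_ne_zero 3 hs0)
            (show s ^ 3 * (t ^ 9 ^ k) ^ 3 = s ^ 3 * t ^ 9 ^ k by linear_combination -e))
          rw [ht_pow, ht_pow] at h2
          have : 0 < 9 ^ k * ht t := by positivity
          omega
        rw [pow_succ' 3 k, mul_nsmul', px_three (a := wA 3 s) (b := wB 3 s) rfl hs0 rfl rfl _ h3, ih,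
          pow_succ 9, pow_mul]
        field_simp
    have h2 := ht_div (s * t ^ 9 ^ k) s
    rw [mul_div_cancel_left₀ _ hs0, ht_pow, ← h1, ← hx_eq] at h2
    rw [← pow_mul, mul_comm k, pow_mul, show 3 ^ 2 = 9 from rfl]
    nlinarith [Nat.pos_of_ne_zero h0, Nat.zero_le (9 ^ k), Nat.zero_le (ht s * hx (3 ^ k • T))]

lemma pb_sum {a b : Fn σ K} (T : ℕ → (W a b).Point) (k : ℕ) :
    PB (fun n => hx (∑ j ∈ range (k + 1), n.choose j • T j)) (k * 2) := by
  induction k with
  | zero => exact (PB.const (hx (T 0)) _).of_le fun n => by simp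
  | succ k ih =>
    simp only [sum_range_succ _ (k + 1)]
    exact (ih.mono (by omega)).hx_add ((PB.choose (k + 1)).hx_nsmul _)

lemma pow_le_choose' {n k : ℕ} (h : 2 * k ≤ n) : n ^ k ≤ 2 ^ k * k.factorial * n.choose k := by
  rw [mul_assoc, ← Nat.descFactorial_eq_factorial_mul_choose]
  refine le_trans ?_ (Nat.mul_le_mul_left _ (Nat.pow_sub_le_descFactorial n k))
  rw [← mul_pow]
  exact Nat.pow_le_pow_left (by omega) _

lemma orb_low {a b : Fn σ K} (P : ℕ → (W a b).Point) (k : ℕ)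
    (h : ∃ C, ∀ N, N ^ 2 ≤ C * hx (N • P 0) + C) {u : ℕ → ℕ} {c : ℕ}
    (hu : ∀ n, hx (orb P n (k + 1)) ≤ u n + c) :
    ∃ C n0, ∀ n ≥ n0, n ^ ((k + 1) * 2) ≤ C * u n := by
  obtain ⟨C, hC⟩ := h
  obtain ⟨E, hE⟩ : ∃ E, E = (2 ^ (k + 1) * (k + 1).factorial) ^ 2 * C := ⟨_, rfl⟩
  obtain ⟨C', hC'⟩ := ((((pb_sum (fun j => P (k + 1 - j)) k).cmul 2).add
    (PB.const (2 * c + (2 * ht a + 2 * ht b) + 1) _)).cmul E).mono (Nat.le_succ (k * 2))
  refine ⟨4 * E, 2 * (k + 1) + 2 * C' * 2 ^ (k * 2 + 1), fun n hn => ?_⟩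
  have h1 := hx_add (orb P n (k + 1)) (-∑ j ∈ range (k + 1), n.choose j • P (k + 1 - j))
  rw [hx_neg] at h1
  nth_rw 1 [orb_eq] at h1
  rw [sum_range_succ, add_neg_cancel_comm, Nat.sub_self] at h1
  have h2 : n ^ ((k + 1) * 2) ≤ E * (hx (n.choose (k + 1) • P 0) + 1) := by
    rw [pow_mul, hE]
    refine (Nat.pow_le_pow_left (pow_le_choose' (by omega)) 2).trans ?_
    rw [mul_pow, mul_assoc, mul_add C, mul_one]
    exact Nat.mul_le_mul_left _ (hC _)
  have h3 : 2 * (C' * (n + 1) ^ (k * 2 + 1)) ≤ n ^ ((k + 1) * 2) := by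
    calc _ ≤ 2 * (C' * (2 * n) ^ (k * 2 + 1)) := by gcongr; omega
      _ = n ^ (k * 2 + 1) * (2 * C' * 2 ^ (k * 2 + 1)) := by rw [mul_pow]; ring
      _ ≤ n ^ (k * 2 + 1) * n := Nat.mul_le_mul_left _ (by omega)
      _ = _ := by ring
  have h4 := hC' n
  have h5 := hu n
  simp only [Nat.succ_eq_add_one] at h4
  nlinarith [Nat.mul_le_mul_left E h1, Nat.mul_le_mul_left E h5]

end Pool.Agent.Lib.MP_55ef7c_ag
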