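import Pool.Agent.Lib.MP_55ef7c_ag.InsepC

/-!
The unipotent map on a power of a supersingular twist, composed with an inseparable map.
-/

namespace Pool.Agent.Lib.MP_55ef7c_ag

open Finset Filter Topology

section General

variable {L : Type*} [Field L] {p m : ℕ} {s : L} {M : Subfield L}

/-- The multiplicative coordinate of a point. -/
def cU (P : (W (wA p s) (wB p s)).Point) : L := gU p s (px P) (py P)

/-- The additive coordinate of a point. -/
def cY (P : (W (wA p s) (wB p s)).Point) : L := gY p s (px P) (py P)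

lemma c_eqn [CharP L p] (hp : p = 2 ∨ p = 3) (hs : s ≠ 0) (P : (W (wA p s) (wB p s)).Point) :
    cY P ^ p - cY P = cU P ^ (5 - p) * s := by
  rw [w_eqn hp hs, cU, cY, (f_g hs _ _).1, (f_g hs _ _).2]
  exact p_eq P

lemma c_ne {P : (W (wA p s) (wB p s)).Point} (h : cU P ≠ 0) : P ≠ 0 := by
  rintro rfl
  exact h (gU_zero s)

lemma InM.c (hs : s ∈ M) {P : (W (wA p s) (wB p s)).Point} (h : InM M 1 P) :
    cU P ∈ M ∧ cY P ∈ M :=
  (w_mem (p := p) hs (by simpa using h.1 : px P ∈ M) (by simpa using h.2 : py P ∈ M)).2.2.2.2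

lemma c_inM (hs0 : s ≠ 0) (hs : s ∈ M) {P : (W (wA p s) (wB p s)).Point} (hu : cU P ∈ M)
    (hy : cY P ∈ M) : InM M 1 P := by
  have := w_mem (p := p) hs hu hy
  rw [cU, cY, (f_g hs0 _ _).1, (f_g hs0 _ _).2] at this
  exact ⟨by simpa using this.2.2.1, by simpa using this.2.2.2.1⟩

variable [DecidableEq L]

lemma orb_fwd (hs : s ∈ M) {P : ℕ → (W (wA p s) (wB p s)).Point} (h : ∀ i ≤ m, InM M 1 (P i)) :
    ∀ i ≤ m, InM M 1 (orb P 1 i) := fun i hi => by
  have := w_mem (p := p) hs hs hs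
  cases i with
  | zero => exact h 0 hi
  | succ i =>
    exact (h _ hi).add one_ne_zero (by simpa using this.1) (by simpa using this.2.1) (h i (by omega))

lemma orb_bwd (hs : s ∈ M) {P : ℕ → (W (wA p s) (wB p s)).Point}
    (h : ∀ i ≤ m, InM M 1 (orb P 1 i)) : ∀ i ≤ m, InM M 1 (P i) := fun i hi => by
  have := w_mem (p := p) hs hs hs
  induction i with
  | zero => exact h 0 hi
  | succ i ih =>
    exact InM.of_add one_ne_zero (by simpa using this.1) (by simpa using this.2.1) (h _ hi)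
      (ih (by omega))

lemma c_step (θ φ : L →+* L) (hs : s ≠ 0) (hθ : θ s = φ s) {P : ℕ → (W (wA p s) (wB p s)).Point}
    (h0 : ∀ i ≤ m, cU (P i) ≠ 0 ∧ cU (orb P 1 i) ≠ 0)
    (h : ∀ i ≤ m, θ (cU (P i)) = φ (cU (orb P 1 i)) ∧ θ (cY (P i)) = φ (cY (orb P 1 i))) (n : ℕ) :
    ∀ i ≤ m, θ (cU (orb P n i)) = φ (cU (orb P (n + 1) i)) := fun i hi => by
  obtain ⟨T, hT⟩ := exists_map θ (w_map (p := p) θ s s s).1 (w_map (p := p) θ s s s).2.1
  obtain ⟨T', hT'⟩ := exists_map φ ((w_map (p := p) φ s s s).1.trans (by rw [← hθ]))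
    ((w_map (p := p) φ s s s).2.1.trans (by rw [← hθ]))
  have key := orb_map (T := T) (T' := T') (P := P) (m := m) (fun j hj => by
    refine pt_ext ((hT _).2.2 (c_ne (h0 j hj).1)) ((hT' _).2.2 (c_ne (h0 j hj).2)) ?_ ?_
    · rw [(hT _).1, (hT' _).1, ← (f_g (p := p) hs (px (P j)) (py (P j))).1,
        ← (f_g (p := p) hs (px (orb P 1 j)) (py (orb P 1 j))).1, (w_map θ _ _ _).2.2.1,
        (w_map φ _ _ _).2.2.1, hθ]
      exact congrArg₂ _ (h j hj).1 (h j hj).2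
    · rw [(hT _).2.1, (hT' _).2.1, ← (f_g (p := p) hs (px (P j)) (py (P j))).2,
        ← (f_g (p := p) hs (px (orb P 1 j)) (py (orb P 1 j))).2, (w_map θ _ _ _).2.2.2.1,
        (w_map φ _ _ _).2.2.2.1, hθ]
      exact congrArg₂ _ (h j hj).1 (h j hj).2) n i hi
  rw [cU, cU, (w_map θ _ _ _).2.2.2.2, (w_map φ _ _ _).2.2.2.2, ← hθ, ← (hT _).1, ← (hT _).2.1,
    ← (hT' _).1, ← (hT' _).2.1, key]

end General

variable {K : Type*} [Field K] {p : ℕ}

theorem model [CharP K p] (hp : p = 2 ∨ p = 3) (m : ℕ) [DecidableEq (Fn (Fin (m + 2)) K)] :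
    ∃ (f : Fin (m + 2) → PR (m + 1) K) (d : ℕ) (D : ℕ → ℕ) (s t : Fn (Fin (m + 2)) K)
      (P : ℕ → (W (wA p s) (wB p s)).Point),
      IsMap f d ∧ AlgebraicIndependent K f ∧ (∀ n e, HasDeg (iter f n) e ↔ e = D n) ∧
      (∃ C, ∀ n, D n ≤ C * ((n + 1) ^ (m * 2) * (p ^ (m + 1)) ^ n)) ∧
      ht s ≠ 0 ∧ t ^ p - t = s ∧ px (P 0) = fX p s 1 t ∧
      ∀ n, (p ^ (m + 1)) ^ n * ht (cU (orb P n m)) ≤ p ^ (m + 1) * D n := by
  have : Fact p.Prime := ⟨by rcases hp with rfl | rfl <;> norm_num⟩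
  have : CharP (Fn (Fin (m + 2)) K) p :=
    charP_of_injective_algebraMap (algebraMap K _).injective p
  have hp1 : 1 < p := (Fact.out : p.Prime).one_lt
  have he : 0 < 5 - p := by omega
  have hq : 1 < p ^ (m + 1) := Nat.one_lt_pow (by omega) hp1
  have g0 : gv K (m + 1) 0 = 1 := div_self (emb_ne (MvPolynomial.X_ne_zero 0))
  obtain ⟨ξ, hξ⟩ : ∃ ξ : Fin (m + 1) → Fn (Fin (m + 2)) K,
    ξ = Fin.cons 1 fun j => gv K (m + 1) j.succ.succ := ⟨_, rfl⟩
  have hx : AlgebraicIndependent K fun j : Fin (m + 1) => gv K (m + 1) j.succ :=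
    indep_gv fun M _ h i => by
      cases i using Fin.cases
      · exact g0 ▸ M.one_mem
      · exact h _
  have hdet : (Mo p fun i => ξ i ^ (5 - p)).det ≠ 0 := hξ ▸ moore_ne hx he
  have hξg : ∀ i, ∃ j, ξ i = gv K (m + 1) j := fun i => by
    cases i using Fin.cases
    · exact ⟨0, by rw [hξ, g0, Fin.cons_zero]⟩
    · exact ⟨_, by rw [hξ, Fin.cons_succ]⟩
  have hξ0 : ξ 0 = 1 := by rw [hξ, Fin.cons_zero]
  have hξne : ∀ i, ξ i ≠ 0 := fun i => by
    obtain ⟨j, hj⟩ := hξg i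
    exact hj ▸ div_ne_zero (emb_ne (MvPolynomial.X_ne_zero _)) (emb_ne (MvPolynomial.X_ne_zero _))
  obtain ⟨y, s, hP⟩ := exists_par hdet (gv K (m + 1) (Fin.succ 0))
  have hy : ∀ i, y i ^ p - y i = (ξ i ^ p ^ (m + 1)) ^ (5 - p) * s := fun i => by
    obtain ⟨l, -, -, h⟩ := hP
    rw [h, pow_right_comm]
  have hs1 : y 0 ^ p - y 0 = s := by rw [hy, hξ0, one_pow, one_pow, one_mul]
  have hA : ∀ M : Subfield (Fn (Fin (m + 2)) K), Closed K M → s ∈ M →
      (∀ i, ξ i ^ p ^ (m + 1) ∈ M) → ∀ i, gv K (m + 1) i ∈ M := fun M hM hs hu i => by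
    have h1 := fun i => (hM.2 _ _ hq).1 (hu i)
    cases i using Fin.cases with
    | zero => exact g0 ▸ M.one_mem
    | succ i =>
      cases i using Fin.cases with
      | zero =>
        exact hP.w_mem hdet (fun i => M.pow_mem (h1 i) _) fun i =>
          (hM.2 _ _ hp1).2 (hy i ▸ M.mul_mem (M.pow_mem (hu i) _) hs)
      | succ i =>
        have := h1 i.succ
        rwa [hξ, Fin.cons_succ] at this
  have hs : ht s ≠ 0 := ht_ne_zero ((indep_gv (x := Fin.cons s fun j => ξ j.succ ^ p ^ (m + 1))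
    fun M hM h => hA M hM (h 0) fun i => by
      cases i using Fin.cases with
      | zero => rw [hξ0, one_pow]; exact M.one_mem
      | succ i => exact h i.succ).transcendental 0)
  have hs0 : s ≠ 0 := fun h => hs (by rw [h, ht_zero])
  obtain ⟨P, hPx⟩ : ∃ P : ℕ → (W (wA p s) (wB p s)).Point, ∀ i : Fin (m + 1),
      px (P i) = fX p s (ξ i ^ p ^ (m + 1)) (y i) ∧ py (P i) = fY p s (ξ i ^ p ^ (m + 1)) (y i) := by
    choose Q hQ using fun i => exists_pt (w_disc hp hs0) ((w_eqn hp hs0 _ _).1 (hy i))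
    exact ⟨fun i => if h : i < m + 1 then Q ⟨i, h⟩ else 0, fun i => by simpa [i.2] using hQ i⟩
  have hU : ∀ i : Fin (m + 1), cU (P i) = ξ i ^ p ^ (m + 1) := fun i => by
    rw [cU, (hPx i).1, (hPx i).2, gU_f hs0]
  have hY : ∀ i : Fin (m + 1), cY (P i) = y i := fun i => by
    rw [cY, (hPx i).1, (hPx i).2]
    by_cases h : p = 2 <;> simp [fX, fY, gY, h, hs0]
  have hU0 : cU (orb P 1 0) = 1 := (hU 0).trans (by rw [hξ0, one_pow])
  have hB : ∀ M : Subfield (Fn (Fin (m + 2)) K), Closed K M → s ∈ M →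
      (∀ i : Fin m, cU (orb P 1 i.succ) ∈ M) → ∀ i, gv K (m + 1) i ∈ M := fun M hM hs hu => by
    refine hA M hM hs fun i => hU i ▸ ((orb_bwd (m := m) hs (fun j hj => ?_) i
      (Nat.lt_succ_iff.1 i.2)).c hs).1
    have h1 : cU (orb P 1 j) ∈ M := by
      cases j with
      | zero => exact hU0 ▸ M.one_mem
      | succ j => exact hu ⟨j, hj⟩
    exact c_inM hs0 hs h1 ((hM.2 _ _ hp1).2 (c_eqn hp hs0 _ ▸ M.mul_mem (M.pow_mem h1 _) hs))
  have hx' : AlgebraicIndependent K (Fin.cons s fun j : Fin m => cU (orb P 1 j.succ) :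
      Fin (m + 1) → _) := indep_gv fun M hM h => hB M hM (h 0) fun i => h i.succ
  have hdet' : (Mo p fun i : Fin (m + 1) => cU (orb P 1 i) ^ (5 - p)).det ≠ 0 := by
    have e : (fun i : Fin (m + 1) => cU (orb P 1 i) ^ (5 - p)) = fun i : Fin (m + 1) =>
        (Fin.cons 1 (fun j : Fin m => cU (orb P 1 j.succ)) : Fin (m + 1) → _) i ^ (5 - p) :=
      funext fun i => by
        cases i using Fin.cases with
        | zero => exact congrArg (· ^ _) hU0
        | succ i => rfl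
    rw [e]
    exact moore_ne (p := p) hx' he
  obtain ⟨l, hl⟩ := exists_lam hdet'
  have hP' : Par p (fun i : Fin (m + 1) => cU (orb P 1 i) ^ (5 - p)) _
      (fun i => cY (orb P 1 i) ^ p ^ (m + 1)) (s ^ p ^ (m + 1)) := ⟨l, hl, rfl, fun i => by
    rw [pow_right_comm, ← sub_pow_char_pow, c_eqn hp hs0, mul_pow]⟩
  generalize ∑ i : Fin (m + 1), l i * cY (orb P 1 i) ^ p ^ (m + 1) = w at hP'
  have hs2 : (cY (orb P 1 0) ^ p ^ (m + 1)) ^ p - cY (orb P 1 0) ^ p ^ (m + 1) = s ^ p ^ (m + 1) := by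
    rw [pow_right_comm, ← sub_pow_char_pow, c_eqn hp hs0, hU0, one_pow, one_mul]
  obtain ⟨f, d, D, τ, h1, h2, h3, h4, h5, h6⟩ := abstract (K := K) (N := m)
    (g := Fin.cons 1 (Fin.cons w fun j : Fin m => cU (orb P 1 j.succ))) rfl (fun M _ hg i => by
      have k1 : ∀ i, ξ i ∈ M := fun i => by
        obtain ⟨j, hj⟩ := hξg i
        exact hj ▸ hg j
      have k2 := hP.y_mem hdet (fun i => M.pow_mem (k1 i) _) (hg _)
      have k3 : s ∈ M := hs1 ▸ M.sub_mem (M.pow_mem (k2 0) _) (k2 0)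
      have k4 := fun i : Fin (m + 1) => (orb_fwd (m := m) (P := P) k3 (fun j hj => c_inM hs0 k3
        ((hU ⟨j, Nat.lt_succ_iff.2 hj⟩).symm ▸ M.pow_mem (k1 _) _)
        ((hY ⟨j, Nat.lt_succ_iff.2 hj⟩).symm ▸ k2 _)) i (Nat.lt_succ_iff.1 i.2)).c k3
      cases i using Fin.cases with
      | zero => exact M.one_mem
      | succ i =>
        cases i using Fin.cases with
        | zero =>
          exact hP'.w_mem hdet' (fun i => M.pow_mem (k4 i).1 _) fun i => M.pow_mem (k4 i).2 _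
        | succ i => exact (k4 i.succ).1) (fun M hM hg => by
      have k1 : ∀ i : Fin m, cU (orb P 1 i.succ) ∈ M := fun i => hg i.succ.succ
      have k2 := hP'.y_mem hdet' (fun i => M.pow_mem (by
        cases i using Fin.cases with
        | zero => exact hU0 ▸ M.one_mem
        | succ i => exact k1 i) _) (hg (Fin.succ 0)) 0
      exact hB M hM ((hM.2 _ _ hq).1 (hs2 ▸ M.sub_mem (M.pow_mem k2 _) k2)) k1)
  have t1 : ∀ i, τ (ξ i) = cU (orb P 1 i) := fun i => by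
    cases i using Fin.cases with
    | zero => rw [hξ0, map_one]; exact hU0.symm
    | succ i => rw [hξ, Fin.cons_succ, h4]; rfl
  have t2 : ∀ i, τ (y i) = cY (orb P 1 i) ^ p ^ (m + 1) := by
    have := hP.map τ.toRingHom
    simp only [AlgHom.toRingHom_eq_coe, RingHom.coe_coe, map_pow, t1, h4] at this
    exact congrFun (this.unique hP' hdet')
  have t3 : τ s = s ^ p ^ (m + 1) := by
    have := congrArg τ hs1
    rw [map_sub, map_pow, t2] at this
    exact this.symm.trans hs2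
  have t4 := c_step (m := m) τ.toRingHom (iterateFrobenius _ p (m + 1)) hs0 t3 (P := P)
    (fun i hi => ⟨(hU ⟨i, Nat.lt_succ_iff.2 hi⟩).symm ▸ pow_ne_zero _ (hξne _),
      t1 ⟨i, Nat.lt_succ_iff.2 hi⟩ ▸ (map_ne_zero τ).2 (hξne _)⟩) fun i hi => ⟨by
        have := hU ⟨i, Nat.lt_succ_iff.2 hi⟩
        change τ _ = _ ^ _
        rw [this, map_pow, t1], by
        have := hY ⟨i, Nat.lt_succ_iff.2 hi⟩
        change τ _ = _ ^ _
        rw [this, t2]⟩
  have t5 : ∀ n (i : Fin (m + 1)), (τ ^ n) (ξ i ^ p ^ (m + 1)) =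
      cU (orb P n i) ^ (p ^ (m + 1)) ^ n := fun n i => by
    induction n with
    | zero => rw [pow_zero, pow_zero, pow_one]; exact (hU i).symm
    | succ n ih =>
      rw [pow_succ', AlgHom.mul_apply, ih, map_pow, pow_succ' _ n, pow_mul]
      exact congrArg (· ^ _) (t4 n i (Nat.lt_succ_iff.1 i.2))
  have t6 : ∀ n, (τ ^ n) s = s ^ (p ^ (m + 1)) ^ n := fun n => by
    induction n with
    | zero => simp
    | succ n ih => rw [pow_succ', AlgHom.mul_apply, ih, map_pow, t3, pow_succ' _ n, pow_mul]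
  refine ⟨f, d, D, s, y 0, P, h1, h2, h3, ?_, hs, hs1, by simpa [hξ0] using (hPx 0).1, fun n => ?_⟩
  · obtain ⟨M, hM, hm⟩ := closed_growth τ fun n => (n + 1) ^ (m * 2) * (p ^ (m + 1)) ^ n
    choose C hC using fun i => (hm _).1 (hA M hM ((hm _).2 ⟨ht s, fun n => by
      rw [t6, ht_pow, mul_comm]
      exact Nat.mul_le_mul_left _ (Nat.le_mul_of_pos_left _ (by positivity))⟩) (fun i => by
      obtain ⟨C, hC⟩ := (((pb_sum (fun j => P (i - j)) i).mono
        (Nat.mul_le_mul_right 2 (Nat.lt_succ_iff.1 i.2))).cmul 4).add (PB.const (4 * ht s) _)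
      refine (hm _).2 ⟨C, fun n => ?_⟩
      rw [t5, ht_pow, mul_comm, ← mul_assoc]
      exact Nat.mul_le_mul_right _ ((ht_gU hp hs0 _).1.trans (by rw [orb_eq]; exact hC n))) i)
    refine ⟨(m + 2) * ∑ i, C i, fun n => ?_⟩
    rw [mul_assoc]
    exact h6 n _ fun i => (hC i n).trans (Nat.mul_le_mul_right _
      (single_le_sum (f := C) (fun _ _ => Nat.zero_le _) (mem_univ i)))
  · obtain ⟨j, hj⟩ := hξg (Fin.last m)
    have := congrArg ht (t5 n (Fin.last m))
    rw [map_pow, ht_pow, ht_pow, hj] at this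
    exact this ▸ Nat.mul_le_mul_left _ (h5 n j)

theorem insep [CharP K p] (hp : p = 2 ∨ p = 3) (k : ℕ) :
    ∃ (f : Fin (k + 1 + 2) → PR (k + 1 + 1) K) (d : ℕ) (D : ℕ → ℕ),
      IsMap f d ∧ AlgebraicIndependent K f ∧ (∀ n e, HasDeg (iter f n) e ↔ e = D n) ∧
      ∃ c1 c2 n0, ∀ n ≥ n0, n ^ ((k + 1) * 2) * (p ^ (k + 1 + 1)) ^ n ≤ c1 * D n ∧
        D n ≤ c2 * (n ^ ((k + 1) * 2) * (p ^ (k + 1 + 1)) ^ n) := by
  classical
  have : CharP (Fn (Fin (k + 1 + 2)) K) p :=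
    charP_of_injective_algebraMap (algebraMap K _).injective p
  obtain ⟨f, d, D, s, t, P, h1, h2, h3, ⟨C, h4⟩, hs, hst, hP, h5⟩ := model (K := K) hp (k + 1)
  have hs0 : s ≠ 0 := fun h => hs (by rw [h, ht_zero])
  obtain ⟨C', n0, h6⟩ := orb_low P k (grow hp hs hst _ hP) fun n => (ht_gU hp hs0 _).2
  refine ⟨f, d, D, h1, h2, h3, C' * p ^ (k + 1 + 1), C * 2 ^ ((k + 1) * 2), n0 + 1, fun n hn =>
    ⟨?_, (h4 n).trans ?_⟩⟩
  · refine (Nat.mul_le_mul_right _ (h6 n (by omega))).trans ?_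
    rw [mul_assoc, mul_assoc, mul_comm (ht _)]
    exact Nat.mul_le_mul_left _ (h5 n)
  · rw [mul_assoc, ← mul_assoc (2 ^ _), ← mul_pow]
    gcongr
    omega

end Pool.Agent.Lib.MP_55ef7c_ag
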