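import Pool.Agent.Lib.MP_55ef7c_ag.InsepD

/-!
Twisted Moore matrices and the parametrisation of the group `a i * Y i ^ p - Y i = c i * s`.
-/

namespace Pool.Agent.Lib.MP_55ef7c_ag

open Finset Matrix

/-- The exponent `1 + p + ... + p ^ (r - 1)`. -/
def geo (p : ℕ) : ℕ → ℕ
  | 0 => 0
  | r + 1 => p * geo p r + 1

lemma geo_add (p j k : ℕ) : geo p (j + k) = geo p j + geo p k * p ^ j := by
  induction j with
  | zero => simp [geo]
  | succ j ih => rw [Nat.add_right_comm, geo, ih, geo]; ring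

lemma geo_mul {p n : ℕ} (h : p = n + 1) (r : ℕ) : p ^ r = n * geo p r + 1 := by
  induction r with
  | zero => simp [geo]
  | succ r ih => rw [pow_succ, ih, geo]; generalize geo p r = g; subst h; ring

lemma geo_mono {p : ℕ} (hp : 0 < p) : StrictMono (geo p) :=
  strictMono_nat_of_lt_succ fun r => by rw [geo]; nlinarith

variable {L : Type*} [Field L] {N p : ℕ}

/-- The twisted Moore matrix. -/
def Mt {R : Type*} [Monoid R] (p : ℕ) (a : Fin N → R) : Matrix (Fin N) (Fin N) R :=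
  Matrix.of fun r i => a i ^ geo p r

/-- The first row of the inverse of a twisted Moore matrix. -/
def Lt (p : ℕ) (a l : Fin N → L) : Prop :=
  ∀ r < N, ∑ i, l i * a i ^ geo p r = if r = 0 then 1 else 0

lemma lt_iff {a l : Fin N → L} :
    Lt p a l ↔ Mt p a *ᵥ l = fun r : Fin N => if (r : ℕ) = 0 then 1 else 0 := by
  simp only [Lt, funext_iff, mulVec, dotProduct, Mt, of_apply, mul_comm (l _)]
  exact ⟨fun h r => h r r.2, fun h r hr => h ⟨r, hr⟩⟩

lemma Lt.scale {a l : Fin N → L} (h : Lt p a l) (c : L) : Lt p (fun i => c * a i) l := fun r hr => by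
  simp only [mul_pow, mul_left_comm (l _), ← mul_sum, h r hr]
  split_ifs with h0
  · simp [h0, geo]
  · simp

lemma Mt_scale {a : Fin N → L} (h : (Mt p a).det ≠ 0) {c : L} (hc : c ≠ 0) :
    (Mt p fun i => c * a i).det ≠ 0 := by
  have := det_mul_column (fun r : Fin N => c ^ geo p r) (Mt p a)
  simp only [Mt, of_apply, ← mul_pow] at this
  rw [Mt, this]
  exact mul_ne_zero (prod_ne_zero_iff.2 fun _ _ => pow_ne_zero _ hc) h

lemma exists_lt {a : Fin N → L} (h : (Mt p a).det ≠ 0) : ∃ l, Lt p a l := by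
  simp only [lt_iff]
  exact mulVec_surjective_iff_isUnit.2 ((isUnit_iff_isUnit_det _).2 h.isUnit) _

lemma Lt.mem {a l : Fin N → L} (hl : Lt p a l) (h : (Mt p a).det ≠ 0) {M : Subfield L} {c : L}
    (hc : c ≠ 0) (ha : ∀ i, c * a i ∈ M) (i : Fin N) : l i ∈ M := by
  refine sol_mem (Mt_scale h hc) (fun r i => M.pow_mem (ha i) _) (fun r => ?_) i
  rw [lt_iff.1 (hl.scale c)]
  dsimp only
  split_ifs
  · exact M.one_mem
  · exact M.zero_mem

/-- The parametrisation. -/
def Pt (p : ℕ) (a : Fin N → L) (w : L) (y : Fin N → L) (s : L) : Prop :=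
  ∃ l, Lt p a l ∧ w = ∑ i, l i * y i ∧ ∀ i, a i * y i ^ p - y i = a i ^ geo p N * s

lemma Pt.map {a y : Fin N → L} {w s : L} (h : Pt p a w y s) (θ : L →+* L) :
    Pt p (fun i => θ (a i)) (θ w) (fun i => θ (y i)) (θ s) := by
  obtain ⟨l, h1, h2, h3⟩ := h
  refine ⟨fun i => θ (l i), fun r hr => ?_, by simp [h2], fun i => ?_⟩
  · simpa [apply_ite θ] using congrArg θ (h1 r hr)
  · simpa using congrArg θ (h3 i)

lemma Pt.scale {a y : Fin N → L} {w s : L} (h : Pt p a w y s) {n : ℕ} (hp : p = n + 1)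
    (hw : w ≠ 0) : ∃ s', Pt p (fun i => w ^ n * a i) 1 (fun i => y i / w) s' := by
  obtain ⟨l, h1, h2, h3⟩ := h
  refine ⟨s / (w * (w ^ n) ^ geo p N), l, h1.scale _, ?_, fun i => ?_⟩
  · simp only [← mul_div_assoc, ← sum_div, ← h2, div_self hw]
  · have := h3 i
    generalize geo p N = g at *
    subst hp
    rw [mul_pow, div_pow, pow_succ w]
    field_simp
    linear_combination this

/-- The dual matrix. -/
def Dt (p c : ℕ) (a l : Fin N → L) : Matrix (Fin N) (Fin N) L :=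
  Matrix.of fun j i => l i ^ p ^ (j + c) / a i ^ geo p (j + c)

variable [Fact p.Prime] [CharP L p] {a l y y' : Fin N → L} {w s s' : L}

lemma Lt.pair (hl : Lt p a l) (ha : ∀ i, a i ≠ 0) {j r : ℕ} (hjr : j ≤ r) (hr : r < j + N) :
    ∑ i, l i ^ p ^ j / a i ^ geo p j * a i ^ geo p r = if r = j then 1 else 0 := by
  obtain ⟨k, rfl⟩ := Nat.exists_eq_add_of_le hjr
  have := congrArg (iterateFrobenius L p j) (hl k (by omega))
  simp only [map_sum, map_mul, iterateFrobenius_def, ← pow_mul] at this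
  simp only [geo_add, pow_add, ← mul_assoc, div_mul_cancel₀ _ (pow_ne_zero _ (ha _))]
  rw [this]
  by_cases hk : k = 0
  · simp [hk]
  · simp [hk, (Fact.out : p.Prime).ne_zero]

lemma Lt.det (hl : Lt p a l) (ha : ∀ i, a i ≠ 0) (c : ℕ) : (Dt p c a l).det ≠ 0 := by
  obtain ⟨B, hB⟩ : ∃ B : Matrix (Fin N) (Fin N) L, B = Matrix.of fun i r : Fin N =>
    a i ^ geo p (r + c) := ⟨_, rfl⟩
  have h1 : ∀ j r : Fin N, j ≤ r → (Dt p c a l * B) j r = if (r : ℕ) + c = j + c then 1 else 0 :=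
    fun j r h => hB ▸ hl.pair ha (by omega) (by omega)
  have h2 : (Dt p c a l * B).det = 1 := by
    rw [det_of_isLowerTriangular _ fun j r h => ?_]
    · exact prod_eq_one fun j _ => by rw [h1 j j le_rfl, if_pos rfl]
    · have h3 : j < r := h
      rw [h1 j r h3.le, if_neg (by omega)]
  rw [det_mul] at h2
  exact left_ne_zero_of_mul (h2 ▸ one_ne_zero)

lemma Dt_pow (ha : ∀ i, a i ≠ 0) (j : ℕ) : (∑ i, l i ^ p ^ j / a i ^ geo p j * y i) ^ p =
    ∑ i, l i ^ p ^ (j + 1) / a i ^ geo p (j + 1) * (a i * y i ^ p) := by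
  rw [sum_pow_char]
  refine sum_congr rfl fun i _ => ?_
  have := ha i
  rw [mul_pow, div_pow, ← pow_mul, ← pow_mul, ← pow_succ, geo, mul_comm p, pow_succ (a i)]
  field_simp

lemma Lt.mulVec (hl : Lt p a l) (ha : ∀ i, a i ≠ 0)
    (hy : ∀ i, a i * y i ^ p - y i = a i ^ geo p N * s) :
    Dt p 0 a l *ᵥ y = fun j : Fin N => (∑ i, l i * y i) ^ p ^ (j : ℕ) := by
  have key : ∀ j < N, ∑ i, l i ^ p ^ j / a i ^ geo p j * y i = (∑ i, l i * y i) ^ p ^ j :=
    fun j hj => by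
    induction j with
    | zero => simp [geo]
    | succ j ih =>
      have h1 := hl.pair ha (j := j + 1) (r := N) hj.le (by omega)
      rw [if_neg (by omega)] at h1
      rw [pow_succ p j, pow_mul, ← ih (by omega), Dt_pow ha, ← pow_succ p j,
        ← add_zero (∑ i, _ / _ * y i), ← zero_mul s, ← h1, sum_mul, ← sum_add_distrib]
      refine sum_congr rfl fun i _ => ?_
      rw [mul_assoc, ← hy]
      ring
  exact funext fun j => key j j.2

lemma Pt.y_mem (hP : Pt p a w y s) (h : (Mt p a).det ≠ 0) (ha : ∀ i, a i ≠ 0)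
    {M : Subfield L} (hM : ∀ i, a i ∈ M) (hw : w ∈ M) (i : Fin N) : y i ∈ M := by
  obtain ⟨l, h1, rfl, h3⟩ := hP
  refine sol_mem (h1.det ha 0) (fun r i => M.div_mem (M.pow_mem (h1.mem h one_ne_zero
    (by simpa using hM) i) _) (M.pow_mem (hM i) _)) (fun r => ?_) i
  rw [h1.mulVec ha h3]
  exact M.pow_mem hw _

lemma Pt.unique (hP : Pt p a w y s) (hP' : Pt p a w y' s') (h : (Mt p a).det ≠ 0)
    (ha : ∀ i, a i ≠ 0) : y = y' := by
  obtain ⟨l, h1, h2, h3⟩ := hP
  obtain ⟨l', h1', h2', h3'⟩ := hP'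
  obtain rfl : l = l' := mulVec_injective_iff_isUnit.2 ((isUnit_iff_isUnit_det _).2 h.isUnit)
    ((lt_iff.1 h1).trans (lt_iff.1 h1').symm)
  refine mulVec_injective_iff_isUnit.2 ((isUnit_iff_isUnit_det _).2 (h1.det ha 0).isUnit) ?_
  rw [h1.mulVec ha h3, h1.mulVec ha h3', ← h2, ← h2']

lemma Pt.w_ne (hP : Pt p a w y s) (h : (Mt p a).det ≠ 0) (ha : ∀ i, a i ≠ 0) {i : Fin N}
    (hy : y i ≠ 0) : w ≠ 0 := by
  rintro rfl
  obtain ⟨l, hl⟩ := exists_lt h
  exact hy (congrFun (hP.unique (y' := fun _ => 0) (s' := 0)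
    ⟨l, hl, by simp, fun i => by simp [(Fact.out : p.Prime).ne_zero]⟩ h ha) i)

lemma exists_pt1 {a : Fin (N + 1) → L} (h : (Mt p a).det ≠ 0) (ha : ∀ i, a i ≠ 0) :
    ∃ y s, Pt p a 1 y s := by
  obtain ⟨l, hl⟩ := exists_lt h
  obtain ⟨y, hy⟩ := mulVec_surjective_iff_isUnit.2
    ((isUnit_iff_isUnit_det _).2 (hl.det ha 0).isUnit) fun _ => 1
  have h1 : ∀ j < N + 1, ∑ i, l i ^ p ^ j / a i ^ geo p j * y i = 1 :=
    fun j hj => congrFun hy ⟨j, hj⟩
  obtain ⟨s, hs⟩ : ∃ s, s = 1 - ∑ i, l i ^ p ^ (N + 1) / a i ^ geo p (N + 1) * y i := ⟨_, rfl⟩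
  refine ⟨y, s, l, hl, by simpa [geo] using (h1 0 (by omega)).symm, fun i => ?_⟩
  refine sub_eq_zero.1 (congrFun (eq_zero_of_mulVec_eq_zero (hl.det ha 1)
    (v := fun i => a i * y i ^ p - y i - a i ^ geo p (N + 1) * s) (funext fun j => ?_)) i)
  have h3 := hl.pair ha (j := j + 1) (r := N + 1) (by omega) (by omega)
  have h4 := Dt_pow (p := p) (l := l) (y := y) ha j
  rw [h1 j j.2, one_pow] at h4
  simp only [mulVec, dotProduct, Dt, of_apply, mul_sub, sum_sub_distrib, ← h4,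
    ← mul_assoc _ _ s, ← sum_mul, h3, Pi.zero_apply]
  split_ifs with h5
  · rw [← h5, hs]
    ring
  · rw [h1 _ (by omega)]
    ring

omit [Fact p.Prime] in
lemma Mt_aeval {K R : Type*} [Field K] [CommRing R] [Algebra K R] (v : Fin N → R) :
    MvPolynomial.aeval v (Mt p (MvPolynomial.X : Fin N → MvPolynomial (Fin N) K)).det =
      (Mt p v).det := by
  rw [AlgHom.map_det]
  congr 1
  ext r i
  simp [Mt]

omit [CharP L p] in
/-- The twisted Moore determinant of independent elements. -/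
lemma Mt_ne {K : Type*} [Field K] [Algebra K L] {x : Fin N → L} (hx : AlgebraicIndependent K x) :
    (Mt p x).det ≠ 0 := by
  rw [← Mt_aeval (K := K), map_ne_zero_iff _ hx]
  intro h0
  have h2 := Mt_aeval (p := p) (K := K) (R := Polynomial K)
    (fun i : Fin N => Polynomial.X ^ (i : ℕ))
  rw [h0, map_zero] at h2
  refine det_vandermonde_ne_zero_iff (v := fun r : Fin N =>
    (Polynomial.X : Polynomial K) ^ geo p r) |>.2 (fun a b hab => ?_) (Eq.trans ?_ h2.symm)
  · have := congrArg Polynomial.natDegree hab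
    simp only [Polynomial.natDegree_X_pow] at this
    exact Fin.ext ((geo_mono (Fact.out : p.Prime).pos).injective this)
  · congr 1
    ext r i : 2
    simp [Mt, vandermonde_apply, ← pow_mul, mul_comm]

end Pool.Agent.Lib.MP_55ef7c_ag
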