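import Pool.Agent.Lib.MP_55ef7c_ag.InsepE

/-!
The twists `T ^ 2 - T = V ^ 3 * s` and `T ^ 3 - T = V ^ 2 * s` in any good characteristic.
-/

namespace Pool.Agent.Lib.MP_55ef7c_ag

open Finset WeierstrassCurve WeierstrassCurve.Affine

section General

variable {L : Type*} [Field L] {r : ℕ} {s : L}

/-- The two types of twists, with the condition on the characteristic. -/
def Ty (L : Type*) [Field L] (r : ℕ) : Prop := r = 2 ∧ (3 : L) ≠ 0 ∨ r = 3 ∧ (2 : L) ≠ 0

/-- The second coordinate of a point. -/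
def cT (P : (W (wA r s) (wB r s)).Point) : L := if r = 2 then -cY P else cY P

lemma t_disc (h : Ty L r) (hs : s ≠ 0) : 64 * wB r s ^ 3 + 27 * wA r s ^ 4 ≠ 0 := fun h0 => by
  rcases h with ⟨rfl, h⟩ | ⟨rfl, h⟩
  · exact mul_ne_zero (pow_ne_zero 3 h) (pow_ne_zero 4 hs) (by
      simp only [wA, wB, if_true] at h0
      linear_combination h0)
  · exact mul_ne_zero (pow_ne_zero 6 h) (pow_ne_zero 6 hs) (by
      simp only [wA, wB, show ¬ (3 = 2) by omega, if_false] at h0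
      linear_combination -h0)

lemma t_eqn (hr : r = 2 ∨ r = 3) (hs : s ≠ 0) (P : (W (wA r s) (wB r s)).Point) :
    cT P ^ r - cT P = cU P ^ (5 - r) * s := by
  have e := p_eq P
  rcases hr with rfl | rfl
  · simp only [cT, cY, cU, gU, gY, if_true, Nat.reduceSub]
    change _ + s * _ = _ + 0 * _ at e
    field_simp
    linear_combination e
  · simp only [cT, cY, cU, gU, gY, show ¬ (3 = 2) by omega, if_false, Nat.reduceSub]
    change _ + 0 * _ = _ + -s ^ 2 * _ at e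
    field_simp
    linear_combination -e

lemma exists_t (h : Ty L r) (hs : s ≠ 0) {t u : L} (e : t ^ r - t = u ^ (5 - r) * s) :
    ∃ P : (W (wA r s) (wB r s)).Point, cU P = u ∧ cT P = t := by
  have hD := t_disc h hs
  rcases h with ⟨rfl, -⟩ | ⟨rfl, -⟩
  · obtain ⟨P, h1, h2⟩ := exists_pt hD (x := s * u) (y := -(s * t)) (by
      change _ + s * _ = _ + 0 * _
      linear_combination s ^ 2 * e)
    exact ⟨P, by simp [cU, gU, h1, hs], by simp [cT, cY, gY, h2, hs, neg_div]⟩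
  · obtain ⟨P, h1, h2⟩ := exists_pt hD (x := s * t) (y := s ^ 2 * u) (by
      change _ + 0 * _ = _ + -s ^ 2 * _
      linear_combination -s ^ 3 * e)
    exact ⟨P, by simp [cU, gU, h2, hs], by simp [cT, cY, gY, h1, hs]⟩

lemma cT_mem {M : Subfield L} {P : (W (wA r s) (wB r s)).Point} : cT P ∈ M ↔ cY P ∈ M := by
  by_cases h : r = 2 <;> simp [cT, h]

lemma cT_map {θ φ : L →+* L} {P Q : (W (wA r s) (wB r s)).Point} (h : θ (cT P) = φ (cT Q)) :
    θ (cY P) = φ (cY Q) := by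
  by_cases h2 : r = 2 <;> simpa [cT, h2] using h

lemma dbl [DecidableEq L] {a b : L} (P : (W a b).Point) (hP : P ≠ 0) :
    4 * px P ^ 3 + 4 * b * px P + a ^ 2 = 0 ∨
      px (P + P) * (4 * px P ^ 3 + 4 * b * px P + a ^ 2) = (px P ^ 2 - b) ^ 2 - 2 * a ^ 2 * px P := by
  rcases P with _ | ⟨x, y, h⟩
  · exact absurd rfl hP
  have hE := W_eq.1 h.1
  by_cases hy : y = (W a b).negY x y
  · rw [W_negY] at hy
    left
    change 4 * x ^ 3 + 4 * b * x + a ^ 2 = 0
    linear_combination -4 * hE + (2 * y + a) * hy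
  · have hxy : ¬(x = x ∧ y = (W a b).negY x y) := fun h => hy h.2
    right
    rw [Point.add_some hxy]
    change (W a b).addX x x _ * (4 * x ^ 3 + 4 * b * x + a ^ 2) = (x ^ 2 - b) ^ 2 - 2 * a ^ 2 * x
    linear_combination -(add_quadratic h.1 h.1 hxy).2

end General

variable {σ K : Type*} [Field K] {r : ℕ}

/-- A binary cubic form. -/
def cub {R : Type*} [CommRing R] (c : ℤ × ℤ × ℤ × ℤ) (A B : R) : R :=
  c.1 * B ^ 3 + c.2.1 * (A * B ^ 2) + c.2.2.1 * (A ^ 2 * B) + c.2.2.2 * A ^ 3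

lemma bez_two {R : Type*} [CommRing R] (z : R) :
    cub (304, 3656, 14674, 19683) z 1 * (z * (z - 2) ^ 3) +
      cub (0, 2432, -3584, 1616) z 1 * (4 * z + 1) ^ 3 = 3 ^ 9 * z ^ 7 ∧
    cub (25856, 114688, 155648, 0) z 1 * (z * (z - 2) ^ 3) +
      cub (19683, -29348, 14624, -2432) z 1 * (4 * z + 1) ^ 3 = 3 ^ 9 := by
  simp only [cub]
  push_cast
  constructor <;> ring

lemma bez_three {R : Type*} [CommRing R] (z : R) :
    cub (0, -12, 0, 16) z 1 * (z ^ 2 + 1) ^ 2 + cub (-3, 0, -5, 0) z 1 * (4 * (z ^ 3 - z)) =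
      2 ^ 4 * z ^ 7 ∧
    cub (16, 0, -12, 0) z 1 * (z ^ 2 + 1) ^ 2 + cub (0, 5, 0, 3) z 1 * (4 * (z ^ 3 - z)) =
      2 ^ 4 := by
  simp only [cub]
  push_cast
  constructor <;> ring

lemma dbl_two {L : Type*} [Field L] {s x x' : L} (hs : s ≠ 0)
    (hd : 4 * x ^ 3 + 4 * 0 * x + s ^ 2 = 0 ∨ x' * (4 * x ^ 3 + 4 * 0 * x + s ^ 2) =
      (x ^ 2 - 0) ^ 2 - 2 * s ^ 2 * x) : (4 * (x ^ 3 / s ^ 2) + 1) ^ 3 = 0 ∨
    x' ^ 3 / s ^ 2 * (4 * (x ^ 3 / s ^ 2) + 1) ^ 3 = x ^ 3 / s ^ 2 * (x ^ 3 / s ^ 2 - 2) ^ 3 := by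
  refine hd.imp (fun hd => (pow_eq_zero_iff three_ne_zero).2 ?_) fun hd => ?_
  · field_simp
    linear_combination hd
  · have e : x' * (4 * x ^ 3 + s ^ 2) = x * (x ^ 3 - 2 * s ^ 2) := by linear_combination hd
    have := congrArg (· ^ 3) e
    field_simp
    linear_combination this

lemma dbl_three {L : Type*} [Field L] {s x x' : L} (hs : s ≠ 0)
    (hd : 4 * x ^ 3 + 4 * -s ^ 2 * x + 0 ^ 2 = 0 ∨ x' * (4 * x ^ 3 + 4 * -s ^ 2 * x + 0 ^ 2) =
      (x ^ 2 - -s ^ 2) ^ 2 - 2 * 0 ^ 2 * x) : 4 * ((x / s) ^ 3 - x / s) = 0 ∨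
    x' / s * (4 * ((x / s) ^ 3 - x / s)) = ((x / s) ^ 2 + 1) ^ 2 := by
  refine hd.imp (fun hd => ?_) fun hd => ?_
  · field_simp
    linear_combination hd
  · field_simp
    linear_combination hd

lemma bd_cub (c : ℤ × ℤ × ℤ × ℤ) {A B : MvPolynomial σ K} {n : ℕ} (hA : Bd A n) (hB : Bd B n) :
    Bd (cub c A B) (3 * n) := by
  have h : ∀ k : ℤ, Bd (k : MvPolynomial σ K) 0 := fun k => by
    rw [← map_intCast (MvPolynomial.C : K →+* _), Bd, MvPolynomial.totalDegree_C]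
  exact (((((h _).mul (hB.pow 3)).mono (by omega)).add
    (((h _).mul (hA.mul (hB.pow 2))).mono (by omega))).add
    (((h _).mul ((hA.pow 2).mul hB)).mono (by omega))).add (((h _).mul (hA.pow 3)).mono (by omega))

lemma ht_bez {z y c : Fn σ K} (u v u' v' : ℤ × ℤ × ℤ × ℤ) (hc : c ≠ 0)
    (h : cub u z 1 * y + cub v z 1 = c * z ^ 7) (h' : cub u' z 1 * y + cub v' z 1 = c) :
    4 * ht z ≤ ht y := by
  obtain ⟨A, B, hB, e, dA, dB⟩ := exists_rep' z
  obtain ⟨A', B', hB', e', dA', dB'⟩ := exists_rep' y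
  have key : ∀ u v, emb (cub u A B * A' + cub v A B * B') =
      (cub u z 1 * y + cub v z 1) * (emb B ^ 3 * emb B') := fun u v => by
    simp only [emb, cub, map_add, map_mul, map_pow, map_intCast] at *
    rw [← e, ← e']
    ring
  have := ht_le' (u := z ^ 7) (A := cub u A B * A' + cub v A B * B')
    (B := cub u' A B * A' + cub v' A B * B') (fun h0 => mul_ne_zero hc
      (mul_ne_zero (pow_ne_zero 3 (emb_ne hB)) (emb_ne hB')) (by rw [← h', ← key, h0]; simp [emb]))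
    (by rw [key, key, h, h']; ring) (((bd_cub _ dA dB).mul dA').add ((bd_cub _ dA dB).mul dB'))
    (((bd_cub _ dA dB).mul dA').add ((bd_cub _ dA dB).mul dB'))
  rw [ht_pow] at this
  omega

lemma ht_quartic {z y c F G : Fn σ K} (u v u' v' : ℤ × ℤ × ℤ × ℤ) (hc : c ≠ 0)
    (h : cub u z 1 * F + cub v z 1 * G = c * z ^ 7) (h' : cub u' z 1 * F + cub v' z 1 * G = c)
    (hy : G = 0 ∨ y * G = F) : 4 * ht z ≤ ht y := by
  by_cases hG : G = 0
  · rw [hG, mul_zero, add_zero] at h h'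
    have hF := right_ne_zero_of_mul (h' ▸ hc)
    refine (ht_bez (y := 0) (c := c / F) u u u' u' (div_ne_zero hc hF) ?_ ?_).trans
      (ht_zero.le.trans (Nat.zero_le _))
    · field_simp
      linear_combination h
    · field_simp
      linear_combination h'
  · refine ht_bez (c := c / G) u v u' v' (div_ne_zero hc hG) ?_ ?_
    · field_simp
      linear_combination h + cub u z 1 * hy.resolve_left hG
    · field_simp
      linear_combination h' + cub u' z 1 * hy.resolve_left hG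

variable [DecidableEq (Fn σ K)]

lemma t_grow (h : Ty (Fn σ K) r) {s : Fn σ K} (hs : ht s ≠ 0) (T : (W (wA r s) (wB r s)).Point)
    (hT : cU T = 1) : ∃ C, ∀ N, N ^ 2 ≤ C * hx (N • T) + C := by
  have hs0 : s ≠ 0 := fun h => hs (by rw [h, ht_zero])
  have main : ∀ z : (W (wA r s) (wB r s)).Point → Fn σ K, z 0 = 0 → ht (z T) ≠ 0 →
      (∀ P, P ≠ 0 → 4 * ht (z P) ≤ ht (z (P + P))) → (∀ P, ht (z P) ≤ 3 * hx P + 2 * ht s) →
      ∃ C, ∀ N, N ^ 2 ≤ C * hx (N • T) + C := fun z h0 h1 h2 h3 => by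
    refine sq_le_of T (c := 3 + 2 * ht s) one_lt_two fun k => ?_
    have h4 : (2 ^ k) ^ 2 ≤ ht (z (2 ^ k • T)) := by
      induction k with
      | zero => rw [pow_zero, one_nsmul]; omega
      | succ k ih =>
        have h5 := h2 (2 ^ k • T) fun h => by
          rw [h, h0, ht_zero] at ih
          exact absurd ih (by simp)
        rw [pow_succ' 2 k, mul_nsmul', two_nsmul, mul_pow]
        omega
    nlinarith [h3 (2 ^ k • T), Nat.zero_le (ht s * hx (2 ^ k • T))]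
  rcases h with ⟨rfl, h⟩ | ⟨rfl, h⟩
  · refine main (fun P => px P ^ 3 / s ^ 2) (by simp [px]) ?_ (fun P hP => ?_) fun P => ?_
    · change px T / s = 1 at hT
      rw [div_eq_iff hs0, one_mul] at hT
      rwa [hT, show s ^ 3 / s ^ 2 = s by field_simp]
    · exact ht_quartic _ _ _ _ (pow_ne_zero 9 h) (bez_two _).1 (bez_two _).2 (dbl_two hs0 (dbl P hP))
    · have := ht_div (px P ^ 3) (s ^ 2)
      rwa [ht_pow, ht_pow, ← hx_eq] at this
  · refine main (fun P => px P / s) (by simp [px]) (fun h0 => ?_) (fun P hP => ?_) fun P => ?_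
    · have e := t_eqn (Or.inr rfl) hs0 T
      have := ht_sub (cT T ^ 3) (cT T)
      rw [e, hT, one_pow, one_mul, ht_pow, show ht (cT T) = 0 from h0] at this
      omega
    · exact ht_quartic _ _ _ _ (pow_ne_zero 4 h) (bez_three _).1 (bez_three _).2
        (dbl_three hs0 (dbl P hP))
    · have := ht_div (px P) s
      rw [← hx_eq] at this
      omega

end Pool.Agent.Lib.MP_55ef7c_ag
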