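import Pool.Agent.Lib.MP_55ef7c_ag.InsepF

/-!
The unipotent map on a power of a supersingular twist, for every prime not `1` modulo `12`.
-/

namespace Pool.Agent.Lib.MP_55ef7c_ag

open Finset Filter Topology

section General

variable {L : Type*} [Field L] {p e κ j g Q : ℕ}

lemma Closed.root {K : Type*} [Field K] [Algebra K L] {M : Subfield L} (hM : Closed K M) {z : L}
    {n : ℕ} (hn : 0 < n) (h : z ^ n ∈ M) : z ∈ M :=
  (hM.2 z (n * 2) (by omega)).1 (pow_mul z n 2 ▸ M.pow_mem h 2)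

lemma alg_f1 {β ρ σ : L} (h : β ^ κ * ρ ^ ((e * j + 1) * κ + 1) - ρ = (β ^ κ) ^ g * σ) :
    (β * ρ ^ (e * j + 1)) ^ (κ + 1) - β * ρ ^ (e * j + 1) = β ^ (κ * g + 1) * ρ ^ (e * j) * σ := by
  linear_combination β * ρ ^ (e * j) * h

lemma alg_f2 {W η ρ ρ0 σ : L} (h : ρ0 ≠ 0) : (W * η ^ e) ^ (Q + 1) * ρ ^ (e * j) * σ =
    (η ^ (Q + 1) * (ρ / ρ0) ^ j) ^ e * (W ^ (Q + 1) * ρ0 ^ (e * j) * σ) := by
  rw [mul_pow _ _ e, ← pow_mul (ρ / ρ0), div_pow, mul_comm j]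
  field_simp
  ring

lemma alg_f3 {W η ρ ρ0 : L} (hW : W ≠ 0) (hη : η ≠ 0) (hρ : ρ ≠ 0) (h : ρ0 ≠ 0) :
    η ^ ((e * j + 1) * Q + 1) = (η ^ (Q + 1) * (ρ / ρ0) ^ j) ^ (e * j + 1) *
      (W * ρ0 ^ (e * j + 1)) ^ j / (W * η ^ e * ρ ^ (e * j + 1)) ^ j := by
  simp only [mul_pow, div_pow]
  field_simp
  ring

lemma alg_b1 {T : L} {m : ℕ} (h1 : T ^ κ - 1 ≠ 0)
    (h : (T ^ κ - 1) ^ (m * (κ * g) + 1) = (T ^ κ) ^ (m * (κ * g) + 1) - 1) :
    T ^ κ * (T ^ κ - 1) ^ (m * κ) * (T ^ (κ * g) / (T ^ κ - 1)) ^ (m * κ + 1) -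
      T ^ (κ * g) / (T ^ κ - 1) = (T ^ κ * (T ^ κ - 1) ^ (m * κ)) ^ g * 1 := by
  rw [pow_mul T]
  generalize T ^ κ = t at *
  generalize t - 1 = u at *
  rw [div_pow, pow_succ u, mul_pow]
  field_simp
  linear_combination -t ^ g * h

lemma alg_b2 {T T0 U w : L} (hT : T ≠ 0) (h : T ^ (κ + 1) - T = U ^ e * (T0 ^ (κ + 1) - T0)) :
    T0 * (T0 ^ κ - 1) ^ (e * j + 1) * w ^ (e * j + 1) * (U ^ (e * j + 1) * T0 ^ j / T ^ j) ^ e =
      T * (T ^ κ - 1) ^ (e * j + 1) * w ^ (e * j + 1) := by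
  have h1 : T * (T ^ κ - 1) = U ^ e * (T0 * (T0 ^ κ - 1)) := by linear_combination h
  have h2 := congrArg (· ^ (e * j + 1)) h1
  generalize T ^ κ - 1 = u, T0 ^ κ - 1 = u0 at *
  simp only [mul_pow, div_pow] at *
  field_simp
  linear_combination -w ^ (e * j + 1) * h2

lemma alg_b3 {T u w : L} {m : ℕ} (hu : u ≠ 0) (hw : w ≠ 0) :
    T * u ^ m * w ^ m * (T ^ Q / u / w) ^ m = T ^ (m * Q + 1) := by
  simp only [div_pow]
  field_simp
  ring

lemma alg_b4 {T T0 U w : L} (hT : T ≠ 0) (hT0 : T0 ≠ 0) (h1 : T ^ κ - 1 ≠ 0) (hw : w ≠ 0)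
    (h : T ^ (κ + 1) - T = U ^ e * (T0 ^ (κ + 1) - T0)) :
    (U ^ (e * j + 1) * T0 ^ j / T ^ j) ^ (Q + 1) * (T ^ Q / (T ^ κ - 1) / w /
      (T0 ^ Q / (T0 ^ κ - 1) / w)) ^ j = U ^ ((e * j + 1) * Q + 1) := by
  have h1 : T * (T ^ κ - 1) = U ^ e * (T0 * (T0 ^ κ - 1)) := by linear_combination h
  have h2 := congrArg (· ^ j) h1
  generalize T ^ κ - 1 = u, T0 ^ κ - 1 = u0 at *
  rw [show T ^ Q / u / w / (T0 ^ Q / u0 / w) = T ^ Q * u0 / (u * T0 ^ Q) by field_simp]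
  simp only [mul_pow, div_pow] at *
  field_simp
  linear_combination -(U ^ (e * j * Q + Q + 1) * T0 ^ (j * Q) * T ^ (j * Q)) * h2

end General

variable {K : Type*} [Field K] {p r e κ j : ℕ}

theorem modelT [Fact p.Prime] [CharP K p] (n : ℕ) [DecidableEq (Fn (Fin (n + 2)) K)]
    (hty : Ty (Fn (Fin (n + 2)) K) r) (hr : r = κ + 1) (he : 5 - r = e)
    (hp : p = (e * j + 1) * κ + 1) :
    ∃ (f : Fin (n + 2) → PR (n + 1) K) (d : ℕ) (D : ℕ → ℕ) (s : Fn (Fin (n + 2)) K)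
      (P : ℕ → (W (wA r s) (wB r s)).Point),
      IsMap f d ∧ AlgebraicIndependent K f ∧ (∀ k e, HasDeg (iter f k) e ↔ e = D k) ∧
      (∃ C, ∀ k, D k ≤ C * ((k + 1) ^ (n * 2) * (p ^ (n + 1)) ^ k)) ∧ ht s ≠ 0 ∧ cU (P 0) = 1 ∧
      ∃ C, ∀ k, (p ^ (n + 1)) ^ k * ht (cU (orb P k n)) ≤ C * D k := by
  have : CharP (Fn (Fin (n + 2)) K) p :=
    charP_of_injective_algebraMap (algebraMap K _).injective p
  have hr' : r = 2 ∨ r = 3 := hty.imp And.left And.left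
  have hr1 : 1 < r := by omega
  have hκ : 0 < κ := by omega
  have he0 : 0 < e := by omega
  obtain ⟨g, hg⟩ : ∃ g, g = geo p (n + 1) := ⟨_, rfl⟩
  have hq : p ^ (n + 1) = (e * j + 1) * (κ * g) + 1 := by rw [geo_mul hp, ← hg, mul_assoc]
  have g0 : gv K (n + 1) 0 = 1 := div_self (emb_ne (MvPolynomial.X_ne_zero 0))
  have gne : ∀ i, gv K (n + 1) i ≠ 0 := fun i =>
    div_ne_zero (emb_ne (MvPolynomial.X_ne_zero _)) (emb_ne (MvPolynomial.X_ne_zero _))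
  obtain ⟨η, hη⟩ : ∃ η : Fin (n + 1) → Fn (Fin (n + 2)) K,
    η = Fin.cons 1 fun j => gv K (n + 1) j.succ.succ := ⟨_, rfl⟩
  obtain ⟨V, hV⟩ : ∃ V, V = gv K (n + 1) (Fin.succ 0) := ⟨_, rfl⟩
  have hV0 : V ≠ 0 := hV ▸ gne _
  have hη0 : η 0 = 1 := by rw [hη, Fin.cons_zero]
  have hηs : ∀ i : Fin n, η i.succ = gv K (n + 1) i.succ.succ := fun i => by rw [hη, Fin.cons_succ]
  have hηne : ∀ i, η i ≠ 0 := fun i => by
    cases i using Fin.cases
    · exact hη0 ▸ one_ne_zero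
    · exact hηs _ ▸ gne _
  have hG : ∀ M : Subfield (Fn (Fin (n + 2)) K), V ∈ M → (∀ i, η i ∈ M) →
      ∀ i, gv K (n + 1) i ∈ M := fun M h1 h2 i => by
    cases i using Fin.cases with
    | zero => exact g0 ▸ M.one_mem
    | succ i =>
      cases i using Fin.cases with
      | zero => exact hV ▸ h1
      | succ i => exact hηs i ▸ h2 _
  have ha : ∀ i, (V * η i ^ e) ^ κ ≠ 0 := fun i =>
    pow_ne_zero _ (mul_ne_zero hV0 (pow_ne_zero _ (hηne i)))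
  have hdet : (Mt p fun i => (V * η i ^ e) ^ κ).det ≠ 0 := Mt_ne (K := K) (indep_gv fun M hM h => by
    have h1 := fun i => hM.root hκ (h i)
    have h2 : V ∈ M := by simpa [hη0] using h1 0
    refine hG M h2 fun i => hM.root he0 ?_
    have := M.div_mem (h1 i) h2
    rwa [mul_div_cancel_left₀ _ hV0] at this)
  obtain ⟨ρ, σ, hP⟩ := exists_pt1 hdet ha
  have hρσ : ∀ i, (V * η i ^ e) ^ κ * ρ i ^ ((e * j + 1) * κ + 1) - ρ i =
      ((V * η i ^ e) ^ κ) ^ g * σ := fun i => by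
    obtain ⟨l, -, -, h⟩ := hP
    rw [← hp, hg]
    exact h i
  obtain ⟨T, hT⟩ : ∃ T : Fin (n + 1) → Fn (Fin (n + 2)) K,
    ∀ i, T i = V * η i ^ e * ρ i ^ (e * j + 1) := ⟨_, fun _ => rfl⟩
  have hT1 : ∀ i, T i ^ r - T i = (V * η i ^ e) ^ (κ * g + 1) * ρ i ^ (e * j) * σ := fun i => by
    rw [hT, hr]
    exact alg_f1 (hρσ i)
  have hA0 : ∀ M : Subfield (Fn (Fin (n + 2)) K), Closed K M → (∀ i, η i ∈ M) → (∀ i, T i ∈ M) →
      ∀ i, gv K (n + 1) i ∈ M := fun M hM h1 h2 => by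
    obtain ⟨l, hl, hs, -⟩ := hP
    obtain ⟨k, -, hk⟩ := exists_ne_zero_of_sum_ne_zero (hs ▸ one_ne_zero)
    replace hk := right_ne_zero_of_mul hk
    have h3 := hl.mem hdet (c := (V ^ κ)⁻¹) (M := M) (by simp [hV0]) fun i => by
      rw [mul_pow, inv_mul_cancel_left₀ (pow_ne_zero _ hV0)]
      exact M.pow_mem (M.pow_mem (h1 i) _) _
    have h4 : ∀ i, ρ i / ρ k ∈ M := fun i => hM.root (Nat.succ_pos (e * j)) (by
      have := M.div_mem (M.mul_mem (h2 i) (M.pow_mem (h1 k) e)) (M.mul_mem (h2 k) (M.pow_mem (h1 i) e))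
      convert this using 1
      have := hηne i
      have := hηne k
      rw [hT, hT, div_pow]
      field_simp)
    have h5 : 1 / ρ k ∈ M := by
      rw [hs, sum_div]
      exact M.sum_mem fun i _ => mul_div_assoc (l i) _ _ ▸ M.mul_mem (h3 i) (h4 i)
    refine hG M ?_ h1
    convert M.div_mem (M.mul_mem (h2 k) (M.pow_mem h5 (e * j + 1))) (M.pow_mem (h1 k) e) using 1
    have := hηne k
    rw [hT, div_pow]
    field_simp
    rw [one_pow]
  have hσ : σ ≠ 0 := fun h0 => (indep_gv (x := Fin.cons 0 fun j => η j.succ) fun M hM h =>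
    hA0 M hM (fun i => by
      cases i using Fin.cases with
      | zero => exact hη0 ▸ M.one_mem
      | succ i => exact h i.succ) fun i => (hM.2 _ _ hr1).2 (by
        rw [hT1, h0, mul_zero]
        exact M.zero_mem)).transcendental 0 isAlgebraic_zero
  have hρ : ∀ i, ρ i ≠ 0 := fun i h0 => mul_ne_zero (pow_ne_zero g (ha i)) hσ (by
    rw [← hρσ, h0]
    simp)
  obtain ⟨U, hU⟩ : ∃ U : Fin (n + 1) → Fn (Fin (n + 2)) K,
    ∀ i, U i = η i ^ (κ * g + 1) * (ρ i / ρ 0) ^ j := ⟨_, fun _ => rfl⟩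
  obtain ⟨s, hs1⟩ : ∃ s, T 0 ^ r - T 0 = s := ⟨_, rfl⟩
  have hU0 : U 0 = 1 := by rw [hU, hη0, div_self (hρ 0), one_pow, one_pow, one_mul]
  have hUne : ∀ i, U i ≠ 0 := fun i =>
    hU i ▸ mul_ne_zero (pow_ne_zero _ (hηne i)) (pow_ne_zero _ (div_ne_zero (hρ i) (hρ 0)))
  have hTU : ∀ i, T i ^ r - T i = U i ^ (5 - r) * s := fun i => by
    rw [← hs1, hT1, hT1, hU, he, hη0, one_pow, mul_one]
    exact alg_f2 (hρ 0)
  have hA : ∀ M : Subfield (Fn (Fin (n + 2)) K), Closed K M → s ∈ M → (∀ i, U i ∈ M) →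
      ∀ i, gv K (n + 1) i ∈ M := fun M hM hs hu => by
    have h1 := fun i => (hM.2 _ _ hr1).2 (hTU i ▸ M.mul_mem (M.pow_mem (hu i) _) hs)
    refine hA0 M hM (fun i => hM.root (Nat.succ_pos ((e * j + 1) * (κ * g))) ?_) h1
    have := M.div_mem (M.mul_mem (M.pow_mem (hu i) (e * j + 1)) (M.pow_mem (h1 0) j))
      (M.pow_mem (h1 i) j)
    rwa [hU, hT, hT, hη0, one_pow, mul_one, ← alg_f3 hV0 (hηne i) (hρ i) (hρ 0)] at this
  have hs : ht s ≠ 0 := ht_ne_zero ((indep_gv (x := Fin.cons s fun j => U j.succ)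
    fun M hM h => hA M hM (h 0) fun i => by
      cases i using Fin.cases with
      | zero => exact hU0 ▸ M.one_mem
      | succ i => exact h i.succ).transcendental 0)
  have hs0 : s ≠ 0 := fun h => hs (by rw [h, ht_zero])
  obtain ⟨P, hPx⟩ : ∃ P : ℕ → (W (wA r s) (wB r s)).Point, ∀ i : Fin (n + 1),
      cU (P i) = U i ∧ cT (P i) = T i := by
    choose Q hQ using fun i => exists_t hty hs0 (hTU i)
    exact ⟨fun i => if h : i < n + 1 then Q ⟨i, h⟩ else 0, fun i => by simpa [i.2] using hQ i⟩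
  obtain ⟨T', hT'⟩ : ∃ T' : Fin (n + 1) → Fn (Fin (n + 2)) K, ∀ i, T' i = cT (orb P 1 i) :=
    ⟨_, fun _ => rfl⟩
  obtain ⟨U', hU'⟩ : ∃ U' : Fin (n + 1) → Fn (Fin (n + 2)) K, ∀ i, U' i = cU (orb P 1 i) :=
    ⟨_, fun _ => rfl⟩
  have hT'0 : T' 0 = T 0 := (hT' 0).trans (hPx 0).2
  have hU'0 : U' 0 = 1 := ((hU' 0).trans (hPx 0).1).trans hU0
  have hTU' : ∀ i, T' i ^ r - T' i = U' i ^ e * s := fun i => by
    rw [hT', hU', t_eqn hr' hs0, he]
  have hC : ∀ M : Subfield (Fn (Fin (n + 2)) K), Closed K M → (∀ i, T' i ∈ M) →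
      ∀ i, gv K (n + 1) i ∈ M := fun M hM h => by
    have hs : s ∈ M := hs1 ▸ hT'0 ▸ M.sub_mem (M.pow_mem (h 0) _) (h 0)
    refine hA M hM hs fun i => (hPx i).1 ▸ ((orb_bwd (m := n) hs (fun k hk => ?_) i
      (Nat.lt_succ_iff.1 i.2)).c hs).1
    have h1 := h ⟨k, Nat.lt_succ_iff.2 hk⟩
    have h2 := M.div_mem (M.sub_mem (M.pow_mem h1 r) h1) hs
    rw [hTU', mul_div_cancel_right₀ _ hs0, hU'] at h2
    rw [hT'] at h1
    exact c_inM hs0 hs (hM.root he0 h2) (cT_mem.1 h1)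
  have hx' : AlgebraicIndependent K T' := indep_gv hC
  have hne : ∀ i, T' i * (T' i ^ κ - 1) ≠ 0 := fun i h0 => by
    have h1 : T' i ^ r = T' i := by rw [hr]; linear_combination h0
    have h2 := congrArg ht h1
    have h3 := ht_ne_zero (hx'.transcendental i)
    rw [ht_pow] at h2
    nlinarith [Nat.pos_of_ne_zero h3]
  have hT'ne := fun i => left_ne_zero_of_mul (hne i)
  have ht'ne := fun i => right_ne_zero_of_mul (hne i)
  have hU'ne : ∀ i, U' i ≠ 0 := fun i h0 => hne i (by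
    have := hTU' i
    rw [h0, zero_pow he0.ne', zero_mul, hr] at this
    linear_combination this)
  have ha' : ∀ i, T' i ^ κ * (T' i ^ κ - 1) ^ ((e * j + 1) * κ) ≠ 0 := fun i =>
    mul_ne_zero (pow_ne_zero _ (hT'ne i)) (pow_ne_zero _ (ht'ne i))
  have hdet' : (Mt p fun i => T' i ^ κ * (T' i ^ κ - 1) ^ ((e * j + 1) * κ)).det ≠ 0 := by
    have h1 : (Polynomial.X ^ κ : Polynomial K).Monic := Polynomial.monic_X_pow κ
    have h2 := (Polynomial.monic_X_pow_sub_C (1 : K) hκ.ne').pow (n := (e * j + 1) * κ)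
    have := Mt_ne (p := p) (hx'.polynomial_aeval_of_transcendental fun _ =>
      Polynomial.transcendental _ (by
        rw [h1.natDegree_mul h2, Polynomial.natDegree_X_pow]
        omega) (by rw [(h1.mul h2).leadingCoeff]; exact one_mem _))
    simpa using this
  obtain ⟨l, hl⟩ := exists_lt hdet'
  obtain ⟨w, hw⟩ : ∃ w, w = ∑ i, l i * (T' i ^ (κ * g) / (T' i ^ κ - 1)) := ⟨_, rfl⟩
  have hP' : Pt p (fun i => T' i ^ κ * (T' i ^ κ - 1) ^ ((e * j + 1) * κ)) w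
      (fun i => T' i ^ (κ * g) / (T' i ^ κ - 1)) 1 := ⟨l, hl, hw, fun i => by
    have := alg_b1 (g := g) (m := e * j + 1) (ht'ne i) (by rw [← hq, sub_pow_char_pow, one_pow])
    rw [← hg]
    rwa [← hp] at this⟩
  have hw0 : w ≠ 0 := hP'.w_ne hdet' ha' (i := 0) (div_ne_zero (pow_ne_zero _ (hT'ne 0)) (ht'ne 0))
  obtain ⟨σ', hP''⟩ := hP'.scale hp hw0
  have hdet'' := Mt_scale hdet' (pow_ne_zero ((e * j + 1) * κ) hw0)
  have ha'' := fun i => mul_ne_zero (pow_ne_zero ((e * j + 1) * κ) hw0) (ha' i)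
  obtain ⟨η', hη'⟩ : ∃ η' : Fin (n + 1) → Fn (Fin (n + 2)) K,
    ∀ i, η' i = U' i ^ (e * j + 1) * T' 0 ^ j / T' i ^ j := ⟨_, fun _ => rfl⟩
  obtain ⟨V', hV'⟩ : ∃ V', V' = T' 0 * (T' 0 ^ κ - 1) ^ (e * j + 1) * w ^ (e * j + 1) := ⟨_, rfl⟩
  have hη'0 : η' 0 = 1 := by rw [hη', hU'0, one_pow, one_mul, div_self (pow_ne_zero _ (hT'ne 0))]
  have hrel : ∀ i, T' i ^ (κ + 1) - T' i = U' i ^ e * (T' 0 ^ (κ + 1) - T' 0) := fun i => by
    rw [← hr, hTU', hT'0, hs1]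
  have hβ : ∀ i, V' * η' i ^ e = T' i * (T' i ^ κ - 1) ^ (e * j + 1) * w ^ (e * j + 1) :=
    fun i => by rw [hV', hη', alg_b2 (hT'ne i) (hrel i)]
  have hβκ : ∀ i, (V' * η' i ^ e) ^ κ =
      w ^ ((e * j + 1) * κ) * (T' i ^ κ * (T' i ^ κ - 1) ^ ((e * j + 1) * κ)) := fun i => by
    rw [hβ, mul_pow, mul_pow, ← pow_mul, ← pow_mul, mul_comm]
  have hfw : ∀ M : Subfield (Fn (Fin (n + 2)) K), (∀ i, gv K (n + 1) i ∈ M) →
      (∀ i, T i ∈ M) ∧ ∀ i, U i ∈ M := fun M hg => by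
    have k1 : ∀ i, η i ∈ M := fun i => by
      cases i using Fin.cases with
      | zero => exact hη0 ▸ M.one_mem
      | succ i => exact hηs i ▸ hg _
    have k2 : ∀ i, V * η i ^ e ∈ M := fun i => M.mul_mem (hV ▸ hg _) (M.pow_mem (k1 i) _)
    have k3 := hP.y_mem hdet ha (fun i => M.pow_mem (k2 i) _) M.one_mem
    exact ⟨fun i => hT i ▸ M.mul_mem (k2 i) (M.pow_mem (k3 i) _), fun i =>
      hU i ▸ M.mul_mem (M.pow_mem (k1 i) _) (M.pow_mem (M.div_mem (k3 i) (k3 0)) _)⟩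
  obtain ⟨f, d, D, τ, h1, h2, h3, h4, h5, h6⟩ := abstract (K := K) (N := n)
    (g := Fin.cons 1 (Fin.cons V' fun j : Fin n => η' j.succ)) rfl (fun M _ hg i => by
      obtain ⟨k1, k2⟩ := hfw M hg
      have k3 : s ∈ M := hs1 ▸ M.sub_mem (M.pow_mem (k1 0) _) (k1 0)
      have k4 := fun i : Fin (n + 1) => (orb_fwd (m := n) (P := P) k3 (fun j hj => c_inM hs0 k3
        ((hPx ⟨j, Nat.lt_succ_iff.2 hj⟩).1.symm ▸ k2 _)
        (cT_mem.1 ((hPx ⟨j, Nat.lt_succ_iff.2 hj⟩).2.symm ▸ k1 _))) i (Nat.lt_succ_iff.1 i.2)).c k3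
      have k5 : ∀ i, T' i ∈ M := fun i => hT' i ▸ cT_mem.2 (k4 i).2
      have k6 : ∀ i, T' i ^ κ - 1 ∈ M := fun i => M.sub_mem (M.pow_mem (k5 i) _) M.one_mem
      cases i using Fin.cases with
      | zero => exact M.one_mem
      | succ i =>
        cases i using Fin.cases with
        | zero =>
          refine hV' ▸ M.mul_mem (M.mul_mem (k5 0) (M.pow_mem (k6 0) _)) (M.pow_mem ?_ _)
          exact hw ▸ M.sum_mem fun i _ => M.mul_mem (hl.mem hdet' one_ne_zero (fun i =>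
            M.mul_mem M.one_mem (M.mul_mem (M.pow_mem (k5 i) _) (M.pow_mem (k6 i) _))) i)
            (M.div_mem (M.pow_mem (k5 i) _) (k6 i))
        | succ i =>
          change η' i.succ ∈ M
          exact hη' i.succ ▸ M.div_mem (M.mul_mem (M.pow_mem (hU' i.succ ▸ (k4 i.succ).1) _)
            (M.pow_mem (k5 0) _)) (M.pow_mem (k5 _) _)) (fun M hM hg => by
      have k1 : ∀ i, V' * η' i ^ e ∈ M := fun i => M.mul_mem (hg (Fin.succ 0)) (M.pow_mem (by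
        cases i using Fin.cases with
        | zero => exact hη'0 ▸ M.one_mem
        | succ i => exact hg i.succ.succ) _)
      have k2 := hP''.y_mem hdet'' ha'' (fun i => hβκ i ▸ M.pow_mem (k1 i) _) M.one_mem
      refine hC M hM fun i => hM.root (Nat.succ_pos ((e * j + 1) * (κ * g))) ?_
      have := M.mul_mem (k1 i) (M.pow_mem (k2 i) (e * j + 1))
      rwa [hβ, alg_b3 (ht'ne i) hw0] at this)
  have t0 : τ V = V' := by rw [hV, h4]; rfl
  have t1 : ∀ i, τ (η i) = η' i := fun i => by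
    cases i using Fin.cases with
    | zero => rw [hη0, map_one, hη'0]
    | succ i => rw [hηs, h4]; rfl
  have t2 : ∀ i, τ (ρ i) = T' i ^ (κ * g) / (T' i ^ κ - 1) / w := by
    have := hP.map τ.toRingHom
    simp only [AlgHom.toRingHom_eq_coe, RingHom.coe_coe, map_pow, map_mul, map_one, t0, t1,
      hβκ] at this
    exact congrFun (this.unique hP'' hdet'' ha'')
  have tT : ∀ i, τ (T i) = T' i ^ p ^ (n + 1) := fun i => by
    rw [hT, map_mul, map_mul, map_pow, map_pow, t0, t1, t2, hβ, alg_b3 (ht'ne i) hw0, hq]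
  have tU : ∀ i, τ (U i) = U' i ^ p ^ (n + 1) := fun i => by
    rw [hU, map_mul, map_pow, map_pow, map_div₀, t1, t2, t2, hη',
      alg_b4 (hT'ne i) (hT'ne 0) (ht'ne i) hw0 (hrel i), hq]
  have t3 : τ s = s ^ p ^ (n + 1) := by
    have := congrArg τ hs1
    rw [map_sub, map_pow, tT, pow_right_comm, ← sub_pow_char_pow, hT'0, hs1] at this
    exact this.symm
  have t4 := c_step (m := n) τ.toRingHom (iterateFrobenius _ p (n + 1)) hs0 t3 (P := P)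
    (fun i hi => ⟨(hPx ⟨i, Nat.lt_succ_iff.2 hi⟩).1.symm ▸ hUne _,
      hU' ⟨i, Nat.lt_succ_iff.2 hi⟩ ▸ hU'ne _⟩) fun i hi => ⟨by
        have := (hPx ⟨i, Nat.lt_succ_iff.2 hi⟩).1
        change τ _ = _ ^ _
        rw [this, tU, hU'], cT_map (by
        have := (hPx ⟨i, Nat.lt_succ_iff.2 hi⟩).2
        change τ _ = _ ^ _
        rw [this, tT, hT'])⟩
  have t5 : ∀ k (i : Fin (n + 1)), (τ ^ k) (U i) = cU (orb P k i) ^ (p ^ (n + 1)) ^ k :=
    fun k i => by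
    induction k with
    | zero => rw [pow_zero, pow_zero, pow_one]; exact (hPx i).1.symm
    | succ k ih =>
      rw [pow_succ', AlgHom.mul_apply, ih, map_pow, pow_succ' _ k, pow_mul]
      exact congrArg (· ^ _) (t4 k i (Nat.lt_succ_iff.1 i.2))
  have t6 : ∀ k, (τ ^ k) s = s ^ (p ^ (n + 1)) ^ k := fun k => by
    induction k with
    | zero => simp
    | succ k ih => rw [pow_succ', AlgHom.mul_apply, ih, map_pow, t3, pow_succ' _ k, pow_mul]
  refine ⟨f, d, D, s, P, h1, h2, h3, ?_, hs, (hPx 0).1.trans hU0, ?_⟩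
  · obtain ⟨M, hM, hm⟩ := closed_growth τ fun k => (k + 1) ^ (n * 2) * (p ^ (n + 1)) ^ k
    choose C hC using fun i => (hm _).1 (hA M hM ((hm _).2 ⟨ht s, fun k => by
      rw [t6, ht_pow, mul_comm]
      exact Nat.mul_le_mul_left _ (Nat.le_mul_of_pos_left _ (by positivity))⟩) (fun i => by
      obtain ⟨C, hC⟩ := (((pb_sum (fun j => P (i - j)) i).mono
        (Nat.mul_le_mul_right 2 (Nat.lt_succ_iff.1 i.2))).cmul 4).add (PB.const (4 * ht s) _)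
      refine (hm _).2 ⟨C, fun k => ?_⟩
      rw [t5, ht_pow, mul_comm, ← mul_assoc]
      exact Nat.mul_le_mul_right _ ((ht_gU hr' hs0 _).1.trans (by rw [orb_eq]; exact hC k))) i)
    refine ⟨(n + 2) * ∑ i, C i, fun k => ?_⟩
    rw [mul_assoc]
    exact h6 k _ fun i => (hC i k).trans (Nat.mul_le_mul_right _
      (single_le_sum (f := C) (fun _ _ => Nat.zero_le _) (mem_univ i)))
  · obtain ⟨M, -, hm⟩ := closed_growth τ D
    obtain ⟨C, hC⟩ := (hm _).1 ((hfw M fun i => (hm _).2 ⟨1, fun k => by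
      rw [one_mul]; exact h5 k i⟩).2 (Fin.last n))
    exact ⟨C, fun k => by simpa only [t5, ht_pow, Fin.val_last] using hC k⟩

theorem insepT (hp : p.Prime) [CharP K p] (h12 : p % 12 ≠ 1) (k : ℕ) :
    ∃ (f : Fin (k + 1 + 2) → PR (k + 1 + 1) K) (d : ℕ) (D : ℕ → ℕ),
      IsMap f d ∧ AlgebraicIndependent K f ∧ (∀ n e, HasDeg (iter f n) e ↔ e = D n) ∧
      ∃ c1 c2 n0, ∀ n ≥ n0, n ^ ((k + 1) * 2) * (p ^ (k + 1 + 1)) ^ n ≤ c1 * D n ∧
        D n ≤ c2 * (n ^ ((k + 1) * 2) * (p ^ (k + 1 + 1)) ^ n) := by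
  classical
  have : Fact p.Prime := ⟨hp⟩
  have : CharP (Fn (Fin (k + 1 + 2)) K) p :=
    charP_of_injective_algebraMap (algebraMap K _).injective p
  have hc : ∀ m : ℕ, ¬ p ∣ m → (m : Fn (Fin (k + 1 + 2)) K) ≠ 0 := fun m h h0 =>
    h ((CharP.cast_eq_zero_iff _ p m).1 h0)
  obtain ⟨r, κ, e, j, hty, hr, he, hj⟩ : ∃ r κ e j, Ty (Fn (Fin (k + 1 + 2)) K) r ∧ r = κ + 1 ∧
      5 - r = e ∧ p = (e * j + 1) * κ + 1 := by
    by_cases h : p % 3 = 2
    · exact ⟨2, 1, 3, p / 3, Or.inl ⟨rfl, hc 3 fun h3 => by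
        have := (Nat.prime_dvd_prime_iff_eq hp Nat.prime_three).1 h3
        omega⟩, rfl, rfl, by omega⟩
    · have h2 := hp.eq_two_or_odd
      have h3 : p % 3 = 0 → p = 3 := fun h0 =>
        ((Nat.prime_dvd_prime_iff_eq Nat.prime_three hp).1 (by omega)).symm
      exact ⟨3, 2, 2, p / 4, Or.inr ⟨rfl, hc 2 fun h3 => by
        have := (Nat.prime_dvd_prime_iff_eq hp Nat.prime_two).1 h3
        omega⟩, rfl, rfl, by omega⟩
  obtain ⟨f, d, D, s, P, h1, h2, h3, ⟨C, h4⟩, hs, hP, C'', h5⟩ := modelT (K := K) (k + 1) hty hr he hj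
  have hs0 : s ≠ 0 := fun h => hs (by rw [h, ht_zero])
  obtain ⟨C', n0, h6⟩ := orb_low P k (t_grow hty hs _ hP) fun n =>
    (ht_gU (hty.imp And.left And.left) hs0 _).2
  refine ⟨f, d, D, h1, h2, h3, C' * C'', C * 2 ^ ((k + 1) * 2), n0 + 1, fun n hn =>
    ⟨?_, (h4 n).trans ?_⟩⟩
  · refine (Nat.mul_le_mul_right _ (h6 n (by omega))).trans ?_
    rw [mul_assoc, mul_assoc, mul_comm (ht _)]
    exact Nat.mul_le_mul_left _ (h5 n)
  · rw [mul_assoc, ← mul_assoc (2 ^ _), ← mul_pow]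
    gcongr
    omega

end Pool.Agent.Lib.MP_55ef7c_ag
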