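import Pool.Agent.Lib.MP_55ef7c_ag.Special
import Pool.Agent.Lib.MP_55ef7c_ag.Framework

/-!
Common lemmas for the models: addition formulas, scaling, subfields, polynomial bounds.
-/

namespace Pool.Agent.Lib.MP_55ef7c_ag

open MvPolynomial WeierstrassCurve WeierstrassCurve.Affine

section General

variable {L : Type*} [Field L]

/-- Abscissa of a sum. -/
def aX (x1 y1 x2 y2 : L) : L := ((y1 - y2) / (x1 - x2)) ^ 2 - x1 - x2

/-- Ordinate of a sum. -/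
def aY (a x1 y1 x2 y2 : L) : L := -((y1 - y2) / (x1 - x2) * (aX x1 y1 x2 y2 - x1) + y1) - a

lemma aX_scale {l x1 y1 x2 y2 : L} (hl : l ≠ 0) (hx : x1 ≠ x2) :
    aX (l ^ 2 * x1) (l ^ 3 * y1) (l ^ 2 * x2) (l ^ 3 * y2) = l ^ 2 * aX x1 y1 x2 y2 := by
  have := sub_ne_zero.2 hx
  have e : (l ^ 3 * y1 - l ^ 3 * y2) / (l ^ 2 * x1 - l ^ 2 * x2) = l * ((y1 - y2) / (x1 - x2)) := by
    rw [← mul_sub, ← mul_sub]; field_simp
  rw [aX, aX, e]; ring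

lemma aY_scale {l a x1 y1 x2 y2 : L} (hl : l ≠ 0) (hx : x1 ≠ x2) :
    aY (l ^ 3 * a) (l ^ 2 * x1) (l ^ 3 * y1) (l ^ 2 * x2) (l ^ 3 * y2)
      = l ^ 3 * aY a x1 y1 x2 y2 := by
  have := sub_ne_zero.2 hx
  have e : (l ^ 3 * y1 - l ^ 3 * y2) / (l ^ 2 * x1 - l ^ 2 * x2) = l * ((y1 - y2) / (x1 - x2)) := by
    rw [← mul_sub, ← mul_sub]; field_simp
  rw [aY, aY, aX_scale hl hx, e]; ring

lemma aX_scale0 {l x1 y1 : L} (hl : l ≠ 0) (hx : x1 ≠ 0) :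
    aX (l ^ 2 * x1) (l ^ 3 * y1) 0 0 = l ^ 2 * aX x1 y1 0 0 := by
  simpa using aX_scale (y1 := y1) (y2 := 0) hl hx

lemma aY_scale0 {l a x1 y1 : L} (hl : l ≠ 0) (hx : x1 ≠ 0) :
    aY (l ^ 3 * a) (l ^ 2 * x1) (l ^ 3 * y1) 0 0 = l ^ 3 * aY a x1 y1 0 0 := by
  simpa using aY_scale (a := a) (y1 := y1) (y2 := 0) hl hx

/-- The coefficient `a` of the curve through `(t, t)` and `(t r, p t r)`. -/
def cA (p r t : L) : L := ((t ^ 2 - t) - ((t * r) ^ 2 - p ^ 2 * (t * r))) / (1 - p)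

/-- The coefficient `b` of the curve through `(t, t)` and `(t r, p t r)`. -/
def cB (p r t : L) : L := cA p r t - t ^ 2 + t

lemma cA_eq1 (p r t : L) : t ^ 2 + cA p r t * t = t ^ 3 + cB p r t * t := by
  rw [cB]; ring

lemma cA_eq2 {p : L} (hp : 1 - p ≠ 0) (r t : L) :
    (p * (t * r)) ^ 2 + cA p r t * (p * (t * r)) = (t * r) ^ 3 + cB p r t * (t * r) := by
  rw [cB, cA]; field_simp; ring

/-- Normalisation of a pair of points. -/
lemma normalise {a b x1 y1 x2 y2 : L} (h1 : y1 ^ 2 + a * y1 = x1 ^ 3 + b * x1)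
    (h2 : y2 ^ 2 + a * y2 = x2 ^ 3 + b * x2) (hx1 : x1 ≠ 0) (hy1 : y1 ≠ 0) (hx2 : x2 ≠ 0)
    {l p r t : L} (hl : l = x1 / y1) (hp : p = (y2 / x2) / (y1 / x1)) (hr : r = x2 / x1)
    (ht : t = l ^ 2 * x1) :
    t = l ^ 3 * y1 ∧ t * r = l ^ 2 * x2 ∧ p * (t * r) = l ^ 3 * y2 ∧
      (1 - p ≠ 0 → cA p r t = l ^ 3 * a ∧ cB p r t = l ^ 4 * b) := by
  have e1 : t = l ^ 3 * y1 := by rw [ht, hl]; field_simp
  have e2 : t * r = l ^ 2 * x2 := by rw [ht, hr]; field_simp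
  have e3 : p * (t * r) = l ^ 3 * y2 := by rw [e2, hp, hl]; field_simp
  have hl0 : l ≠ 0 := by rw [hl]; exact div_ne_zero hx1 hy1
  have ht0 : t ≠ 0 := by rw [ht]; exact mul_ne_zero (pow_ne_zero _ hl0) hx1
  have htr : t * r ≠ 0 := by rw [e2]; exact mul_ne_zero (pow_ne_zero _ hl0) hx2
  refine ⟨e1, e2, e3, fun hp1 => ?_⟩
  have k1 : t + l ^ 3 * a = t ^ 2 + l ^ 4 * b := by
    apply mul_left_cancel₀ ht0
    linear_combination l ^ 6 * h1 + (t + l ^ 3 * y1 + l ^ 3 * a) * e1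
      - (t ^ 2 + t * (l ^ 2 * x1) + (l ^ 2 * x1) ^ 2 + l ^ 4 * b) * ht
  have k2 : p ^ 2 * (t * r) + l ^ 3 * a * p = (t * r) ^ 2 + l ^ 4 * b := by
    apply mul_left_cancel₀ htr
    linear_combination l ^ 6 * h2 + (p * (t * r) + l ^ 3 * y2 + l ^ 3 * a) * e3
      - ((t * r) ^ 2 + (t * r) * (l ^ 2 * x2) + (l ^ 2 * x2) ^ 2 + l ^ 4 * b) * e2
  have k3 : cA p r t = l ^ 3 * a := by
    rw [cA, div_eq_iff hp1]
    linear_combination k2 - k1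
  exact ⟨k3, by rw [cB, k3]; linear_combination k1⟩

variable {a b : L}

lemma px_pt0 (hD : 64 * b ^ 3 + 27 * a ^ 4 ≠ 0) : px (pt0 hD) = 0 := rfl

lemma py_pt0 (hD : 64 * b ^ 3 + 27 * a ^ 4 ≠ 0) : py (pt0 hD) = 0 := rfl

lemma pt0_ne (hD : 64 * b ^ 3 + 27 * a ^ 4 ≠ 0) : pt0 hD ≠ 0 := Point.some_ne_zero _

lemma ne_zero_of_px {P : (W a b).Point} (h : px P ≠ 0) : P ≠ 0 := by
  rintro rfl
  exact h rfl

/-- A point with given coordinates. -/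
lemma exists_pt (hD : 64 * b ^ 3 + 27 * a ^ 4 ≠ 0) {x y : L} (h : y ^ 2 + a * y = x ^ 3 + b * x) :
    ∃ P : (W a b).Point, px P = x ∧ py P = y := ⟨.some x y (W_nonsing hD h), rfl, rfl⟩

variable [DecidableEq L]

lemma p_add {P Q : (W a b).Point} (hP : P ≠ 0) (hQ : Q ≠ 0) (h : px P ≠ px Q) :
    px (P + Q) = aX (px P) (py P) (px Q) (py Q) ∧ py (P + Q) = aY a (px P) (py P) (px Q) (py Q) := by
  rcases P with _ | ⟨x1, y1, k1⟩
  · exact absurd rfl hP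
  rcases Q with _ | ⟨x2, y2, k2⟩
  · exact absurd rfl hQ
  change x1 ≠ x2 at h
  rw [Point.add_of_X_ne h]
  change (W a b).addX x1 x2 _ = aX x1 y1 x2 y2 ∧ (W a b).addY x1 x2 y1 _ = aY a x1 y1 x2 y2
  rw [W_addX, W_addY, slope_of_X_ne h]
  exact ⟨rfl, rfl⟩

lemma p_add0 (hD : 64 * b ^ 3 + 27 * a ^ 4 ≠ 0) {P : (W a b).Point} (h : px P ≠ 0) :
    px (P + pt0 hD) = aX (px P) (py P) 0 0 ∧ py (P + pt0 hD) = aY a (px P) (py P) 0 0 :=
  p_add (ne_zero_of_px h) (pt0_ne hD) h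

lemma slope_ne (hD : 64 * b ^ 3 + 27 * a ^ 4 ≠ 0) {P Q : (W a b).Point} (hP : px P ≠ 0)
    (hQ : px Q ≠ 0) (h1 : px Q ≠ px P) (h2 : px Q ≠ px (P + pt0 hD)) :
    py P / px P ≠ py Q / px Q := by
  intro h
  rw [(p_add0 hD hP).1, aX, sub_zero, sub_zero, sub_zero] at h2
  have e1 := p_eq P
  have e2 := p_eq Q
  generalize px P = x1 at *
  generalize py P = y1 at *
  generalize px Q = x2 at *
  generalize py Q = y2 at *
  obtain ⟨m, hm⟩ : ∃ m, m = y1 / x1 := ⟨_, rfl⟩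
  rw [← hm] at h h2
  obtain rfl : y1 = m * x1 := by rw [hm]; field_simp
  obtain rfl : y2 = m * x2 := by rw [h]; field_simp
  have k1 : m ^ 2 * x1 + a * m = x1 ^ 2 + b := mul_left_cancel₀ hP (by linear_combination e1)
  have k2 : m ^ 2 * x2 + a * m = x2 ^ 2 + b := mul_left_cancel₀ hQ (by linear_combination e2)
  have : (x2 - x1) * (x2 - (m ^ 2 - x1)) = 0 := by linear_combination k1 - k2
  rcases mul_eq_zero.1 this with h | h
  · exact h1 (sub_eq_zero.1 h)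
  · exact h2 (sub_eq_zero.1 h)

/-- The rescaled coordinates of `P` lie in `M`. -/
def InM (M : Subfield L) (l : L) (P : (W a b).Point) : Prop :=
  l ^ 2 * px P ∈ M ∧ l ^ 3 * py P ∈ M

omit [DecidableEq L] in
lemma InM.neg {M : Subfield L} {l : L} (ha : l ^ 3 * a ∈ M) {P : (W a b).Point} (h : InM M l P) :
    InM M l (-P) := by
  rcases P with _ | ⟨x1, y1, k1⟩
  · exact h
  refine ⟨h.1, ?_⟩
  change l ^ 3 * (W a b).negY x1 y1 ∈ M
  rw [W_negY, mul_sub, mul_neg]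
  exact M.sub_mem (M.neg_mem h.2) ha

lemma InM.add {M : Subfield L} {l : L} (hl : l ≠ 0) (ha : l ^ 3 * a ∈ M) (hb : l ^ 4 * b ∈ M)
    {P Q : (W a b).Point} (hP : InM M l P) (hQ : InM M l Q) : InM M l (P + Q) := by
  rcases P with _ | ⟨x1, y1, k1⟩
  · change InM M l (0 + Q)
    rwa [zero_add]
  rcases Q with _ | ⟨x2, y2, k2⟩
  · change InM M l (_ + 0)
    rwa [add_zero]
  by_cases hxy : x1 = x2 ∧ y1 = (W a b).negY x2 y2
  · rw [Point.add_of_Y_eq hxy.1 hxy.2]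
    exact ⟨by simp [px], by simp [py]⟩
  rw [Point.add_some hxy]
  obtain ⟨h1, h2⟩ : l ^ 2 * x1 ∈ M ∧ l ^ 3 * y1 ∈ M := hP
  obtain ⟨h3, h4⟩ : l ^ 2 * x2 ∈ M ∧ l ^ 3 * y2 ∈ M := hQ
  have hs : l * (W a b).slope x1 x2 y1 y2 ∈ M := by
    by_cases hx : x1 = x2
    · have hy : y1 ≠ (W a b).negY x2 y2 := fun h => hxy ⟨hx, h⟩
      rw [slope_of_Y_ne hx hy, W_negY]
      have : l * ((3 * x1 ^ 2 + 2 * (W a b).a₂ * x1 + (W a b).a₄ - (W a b).a₁ * y1)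
          / (y1 - (-y1 - a))) = (3 * (l ^ 2 * x1) ^ 2 + l ^ 4 * b)
          / (l ^ 3 * y1 - (-(l ^ 3 * y1) - l ^ 3 * a)) := by
        have : l ^ 3 * y1 - (-(l ^ 3 * y1) - l ^ 3 * a) = l ^ 3 * (y1 - (-y1 - a)) := by ring
        rw [this]
        simp only [W]
        by_cases h0 : y1 - (-y1 - a) = 0
        · simp [h0]
        · field_simp; ring
      rw [this]
      exact M.div_mem (M.add_mem (M.mul_mem (ofNat_mem M 3) (M.pow_mem h1 2)) hb)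
        (M.sub_mem h2 (M.sub_mem (M.neg_mem h2) ha))
    · rw [slope_of_X_ne hx]
      have := sub_ne_zero.2 hx
      have e : l * ((y1 - y2) / (x1 - x2))
          = (l ^ 3 * y1 - l ^ 3 * y2) / (l ^ 2 * x1 - l ^ 2 * x2) := by
        rw [← mul_sub, ← mul_sub]; field_simp
      rw [e]
      exact M.div_mem (M.sub_mem h2 h4) (M.sub_mem h1 h3)
  change l ^ 2 * (W a b).addX x1 x2 _ ∈ M ∧ l ^ 3 * (W a b).addY x1 x2 y1 _ ∈ M
  rw [W_addX, W_addY]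
  generalize (W a b).slope x1 x2 y1 y2 = s at hs
  have e1 : l ^ 2 * (s ^ 2 - x1 - x2) = (l * s) ^ 2 - l ^ 2 * x1 - l ^ 2 * x2 := by ring
  have e2 : l ^ 3 * (-(s * (s ^ 2 - x1 - x2 - x1) + y1) - a)
      = -((l * s) * ((l * s) ^ 2 - l ^ 2 * x1 - l ^ 2 * x2 - l ^ 2 * x1) + l ^ 3 * y1)
        - l ^ 3 * a := by ring
  have k := M.sub_mem (M.sub_mem (M.pow_mem hs 2) h1) h3
  rw [e1, e2]
  exact ⟨k, M.sub_mem (M.neg_mem (M.add_mem (M.mul_mem hs (M.sub_mem k h1)) h2)) ha⟩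

lemma InM.of_add {M : Subfield L} {l : L} (hl : l ≠ 0) (ha : l ^ 3 * a ∈ M) (hb : l ^ 4 * b ∈ M)
    {P Q : (W a b).Point} (hP : InM M l (P + Q)) (hQ : InM M l Q) : InM M l P := by
  have := hP.add hl ha hb (hQ.neg ha)
  rwa [add_neg_cancel_right] at this

end General

section Reps

variable {ι K L : Type*} [Field K] [Field L] [Algebra K L] {G : (ι → L) → Prop}
  {a x1 y1 x2 y2 : (ι → L) → L}

lemma Rep.aX (h1 : Rep K G x1) (h2 : Rep K G y1) (h3 : Rep K G x2) (h4 : Rep K G y2)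
    (hne : ∀ v, G v → x1 v - x2 v ≠ 0) : Rep K G (fun v => aX (x1 v) (y1 v) (x2 v) (y2 v)) :=
  ((((h2.sub h4).div (h1.sub h3) hne).pow 2).sub h1).sub h3

lemma Rep.aY (ha : Rep K G a) (h1 : Rep K G x1) (h2 : Rep K G y1) (h3 : Rep K G x2)
    (h4 : Rep K G y2) (hne : ∀ v, G v → x1 v - x2 v ≠ 0) :
    Rep K G (fun v => aY (a v) (x1 v) (y1 v) (x2 v) (y2 v)) :=
  (((((h2.sub h4).div (h1.sub h3) hne).mul ((h1.aX h2 h3 h4 hne).sub h1)).add h2).neg).sub ha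

lemma Rep.cA (h1 : Rep K G x1) (h2 : Rep K G y1) (h3 : Rep K G x2)
    (hne : ∀ v, G v → 1 - x1 v ≠ 0) : Rep K G (fun v => cA (x1 v) (y1 v) (x2 v)) :=
  (((h3.pow 2).sub h3).sub (((h3.mul h2).pow 2).sub ((h1.pow 2).mul (h3.mul h2)))).div
    (Rep.one.sub h1) hne

lemma Rep.cB (h1 : Rep K G x1) (h2 : Rep K G y1) (h3 : Rep K G x2)
    (hne : ∀ v, G v → 1 - x1 v ≠ 0) : Rep K G (fun v => cB (x1 v) (y1 v) (x2 v)) :=
  ((h1.cA h2 h3 hne).sub (h3.pow 2)).add h3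

end Reps

/-- Polynomial upper bound. -/
def PB (f : ℕ → ℕ) (l : ℕ) : Prop := ∃ C, ∀ n, f n ≤ C * (n + 1) ^ l

lemma PB.const (c l : ℕ) : PB (fun _ => c) l :=
  ⟨c, fun n => Nat.le_mul_of_pos_right _ (by positivity)⟩

lemma PB.add {f g : ℕ → ℕ} {l : ℕ} (h : PB f l) (h' : PB g l) : PB (fun n => f n + g n) l := by
  obtain ⟨C, h⟩ := h
  obtain ⟨C', h'⟩ := h'
  exact ⟨C + C', fun n => by rw [add_mul]; exact add_le_add (h n) (h' n)⟩

lemma PB.cmul {f : ℕ → ℕ} {l : ℕ} (h : PB f l) (c : ℕ) : PB (fun n => c * f n) l := by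
  obtain ⟨C, h⟩ := h
  exact ⟨c * C, fun n => by rw [mul_assoc]; exact Nat.mul_le_mul_left _ (h n)⟩

lemma PB.of_le {f g : ℕ → ℕ} {l : ℕ} (h : PB g l) (h' : ∀ n, f n ≤ g n) : PB f l := by
  obtain ⟨C, h⟩ := h
  exact ⟨C, fun n => (h' n).trans (h n)⟩

lemma PB.mono {f : ℕ → ℕ} {l l' : ℕ} (h : PB f l) (h' : l ≤ l') : PB f l' := by
  obtain ⟨C, h⟩ := h
  exact ⟨C, fun n => (h n).trans (Nat.mul_le_mul_left _ (Nat.pow_le_pow_right (by omega) h'))⟩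

lemma PB.choose (e : ℕ) : PB (fun n => n.choose e) e :=
  ⟨1, fun n => by
    rw [one_mul]
    exact (Nat.choose_le_pow n e).trans (Nat.pow_le_pow_left (by omega) _)⟩

lemma PB.fin {N l : ℕ} {f : ℕ → Fin N → ℕ} (h : ∀ i, PB (fun n => f n i) l) :
    ∃ C, ∀ n i, f n i ≤ C * (n + 1) ^ l := by
  choose C h using h
  exact ⟨∑ i, C i, fun n i => (h i n).trans (Nat.mul_le_mul_right _
    (Finset.single_le_sum (f := C) (fun _ _ => Nat.zero_le _) (Finset.mem_univ i)))⟩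

variable {σ K : Type*} [Field K] [DecidableEq (Fn σ K)] {a b : Fn σ K}

lemma PB.hx_add {P Q : ℕ → (W a b).Point} {l : ℕ} (h : PB (fun n => hx (P n)) l)
    (h' : PB (fun n => hx (Q n)) l) : PB (fun n => hx (P n + Q n)) l :=
  (((h.cmul 2).add (h'.cmul 2)).add (PB.const _ l)).of_le fun _ => MP_55ef7c_ag.hx_add _ _

lemma PB.hx_nsmul {j : ℕ → ℕ} {e : ℕ} (h : PB j e) (T : (W a b).Point) :
    PB (fun n => hx (j n • T)) (e * 2) := by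
  obtain ⟨C, h⟩ := h
  refine ⟨2 * C ^ 2 * (hx T + (2 * ht a + 2 * ht b)), fun n => (MP_55ef7c_ag.hx_nsmul T _).trans ?_⟩
  calc 2 * j n ^ 2 * (hx T + (2 * ht a + 2 * ht b))
      ≤ 2 * (C * (n + 1) ^ e) ^ 2 * (hx T + (2 * ht a + 2 * ht b)) := by gcongr; exact h n
    _ = _ := by rw [pow_mul]; ring

omit [DecidableEq (Fn σ K)] in
lemma ht_slope (P : (W a b).Point) : ht (py P / px P) ≤ 5 * hx P + (ht a + ht b) := by
  have h1 := ht_y (p_eq P)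
  have h2 := ht_div (py P) (px P)
  rw [hx_eq]
  omega

end Pool.Agent.Lib.MP_55ef7c_ag
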