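import Pool.Agent.Lib.MP_55ef7c_ag.Core

/-!
The map `(P, Q) ↦ (P + S, Q + P)` as a rational self-map of projective three-space.
-/

namespace Pool.Agent.Lib.MP_55ef7c_ag

open MvPolynomial WeierstrassCurve WeierstrassCurve.Affine

section General

variable {L : Type*} [Field L]

/-- Scale-invariant coordinates of a pair of points. -/
def pi3 (x1 y1 x2 y2 : L) : Fin 4 → L := ![1, (y2 / x2) / (y1 / x1), x2 / x1, (x1 / y1) ^ 2 * x1]

lemma pi3_scale {l x1 y1 x2 y2 : L} (hl : l ≠ 0) :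
    pi3 (l ^ 2 * x1) (l ^ 3 * y1) (l ^ 2 * x2) (l ^ 3 * y2) = pi3 x1 y1 x2 y2 := by
  have e : ∀ x y : L, l ^ 3 * y / (l ^ 2 * x) = l * (y / x) := fun x y => by
    rw [pow_succ' l 2, mul_assoc, mul_div_assoc, mul_div_mul_left _ _ (pow_ne_zero 2 hl)]
  have e' : ∀ x y : L, l ^ 2 * x / (l ^ 3 * y) = l⁻¹ * (x / y) := fun x y => by
    rw [← inv_div, e, mul_inv, inv_div]
  rw [pi3, pi3, e, e, e', mul_div_mul_left _ _ hl, mul_div_mul_left _ _ (pow_ne_zero 2 hl)]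
  congr 4
  field_simp

/-- The good locus. -/
def G3 (v : Fin 4 → L) : Prop := v 0 ≠ 0 ∧ G2 (v 1 / v 0) (v 2 / v 0) (v 3 / v 0)

/-- The map in normalised coordinates. -/
def phi3 (p r t : L) : Fin 4 → L :=
  pi3 (aX t t 0 0) (aY (cA p r t) t t 0 0) (aX (t * r) (p * (t * r)) t t)
    (aY (cA p r t) (t * r) (p * (t * r)) t t)

/-- The map in homogeneous coordinates. -/
def Phi3 (i : Fin 4) (v : Fin 4 → L) : L := phi3 (v 1 / v 0) (v 2 / v 0) (v 3 / v 0) i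

lemma isOp_G3 {K : Type*} [Field K] [Algebra K L] : IsOp K (G3 (L := L)) :=
  isOp_G2 (IsOp.coord 0) (Rep.coord 1 0 fun _ h => h) (Rep.coord 2 0 fun _ h => h)
    (Rep.coord 3 0 fun _ h => h)

lemma rep_Phi3 {K : Type*} [Field K] [Algebra K L] (i : Fin 4) : Rep K (G3 (L := L)) (Phi3 i) := by
  have hp : Rep K (G3 (L := L)) (fun v => v 1 / v 0) := Rep.coord 1 0 fun _ h => h.1
  have hr : Rep K (G3 (L := L)) (fun v => v 2 / v 0) := Rep.coord 2 0 fun _ h => h.1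
  have ht : Rep K (G3 (L := L)) (fun v => v 3 / v 0) := Rep.coord 3 0 fun _ h => h.1
  have hA := hp.cA hr ht fun v h => h.2.2.2.1
  have hX1 := ht.aX ht Rep.zero Rep.zero fun v h => by rw [sub_zero]; exact h.2.1
  have hY1 := hA.aY ht ht Rep.zero Rep.zero fun v h => by rw [sub_zero]; exact h.2.1
  have hX2 := (ht.mul hr).aX (hp.mul (ht.mul hr)) ht ht fun v h => h.2.2.2.2.2.1
  have hY2 := hA.aY (ht.mul hr) (hp.mul (ht.mul hr)) ht ht fun v h => h.2.2.2.2.2.1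
  fin_cases i
  · exact Rep.one
  · exact (hY2.div hX2 fun v h => h.2.2.2.2.2.2.2.2).div (hY1.div hX1 fun v h => h.2.2.2.2.2.2.1)
      fun v h => div_ne_zero h.2.2.2.2.2.2.2.1 h.2.2.2.2.2.2.1
  · exact hX2.div hX1 fun v h => h.2.2.2.2.2.2.1
  · exact ((hX1.div hY1 fun v h => h.2.2.2.2.2.2.2.1).pow 2).mul hX1

variable [DecidableEq L] {a b : L}

/-- Coordinates of a pair of points. -/
def pt3 (s : (W a b).Point × (W a b).Point) : Fin 4 → L := pi3 (px s.1) (py s.1) (px s.2) (py s.2)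

/-- Validity of the coordinates. -/
def Inv3 (s : (W a b).Point × (W a b).Point) : Prop := px s.1 ≠ 0 ∧ py s.1 ≠ 0 ∧ px s.2 ≠ 0

omit [DecidableEq L] in
lemma G3_pt3 (s : (W a b).Point × (W a b).Point) : G3 (pt3 s) ↔
    G2 ((py s.2 / px s.2) / (py s.1 / px s.1)) (px s.2 / px s.1) ((px s.1 / py s.1) ^ 2 * px s.1) := by
  simp [G3, pt3, pi3]

lemma step3 (hD : 64 * b ^ 3 + 27 * a ^ 4 ≠ 0) {s : (W a b).Point × (W a b).Point} (hs : Inv3 s)
    (hG : G3 (pt3 s)) :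
    Inv3 (s.1 + pt0 hD, s.2 + s.1) ∧ ∀ i, pt3 (s.1 + pt0 hD, s.2 + s.1) i = Phi3 i (pt3 s) := by
  rw [G3_pt3] at hG
  obtain ⟨h1, h2, h3⟩ := hs
  obtain ⟨k1, k2, k3, k4⟩ := core_eq hD h1 h2 h3 rfl rfl rfl rfl hG.2.2.1 (ne_of_G2 h1 rfl hG)
  refine ⟨⟨?_, ?_, ?_⟩, fun i => ?_⟩
  · exact right_ne_zero_of_mul (k1 ▸ hG.2.2.2.2.2.1)
  · exact right_ne_zero_of_mul (k2 ▸ hG.2.2.2.2.2.2.1)
  · exact right_ne_zero_of_mul (k3 ▸ hG.2.2.2.2.2.2.2)
  · have e : Phi3 i (pt3 s) = phi3 ((py s.2 / px s.2) / (py s.1 / px s.1)) (px s.2 / px s.1)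
        ((px s.1 / py s.1) ^ 2 * px s.1) i := by simp [Phi3, pt3, pi3]
    rw [e, phi3, k1, k2, k3, k4, pi3_scale (div_ne_zero h1 h2)]
    rfl

/-- The orbit of a pair of points. -/
def st3 (S : (W a b).Point) (s : (W a b).Point × (W a b).Point) :
    ℕ → (W a b).Point × (W a b).Point
  | 0 => s
  | n + 1 => ((st3 S s n).1 + S, (st3 S s n).2 + (st3 S s n).1)

lemma st3_eq (S : (W a b).Point) (s : (W a b).Point × (W a b).Point) (n : ℕ) :
    st3 S s n = (s.1 + n • S, s.2 + n • s.1 + n.choose 2 • S) := by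
  induction n with
  | zero => simp [st3]
  | succ n ih =>
    rw [st3, ih, Nat.choose_succ_succ' n 1, Nat.choose_one_right]
    simp only [add_nsmul, one_nsmul, Prod.mk.injEq]
    constructor <;> abel

omit [DecidableEq L] in
lemma exists_state3 {v : Fin 4 → L} (h0 : v 0 = 1) (hG : G3 v) :
    ∃ (a b : L) (_ : 64 * b ^ 3 + 27 * a ^ 4 ≠ 0) (s : (W a b).Point × (W a b).Point),
      Inv3 s ∧ pt3 s = v := by
  obtain ⟨-, h1, h2, h3, h4, -⟩ := hG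
  simp only [h0, div_one] at h1 h2 h3 h4
  obtain ⟨P, hP1, hP2⟩ := exists_pt h4 (cA_eq1 (v 1) (v 2) (v 3))
  obtain ⟨Q, hQ1, hQ2⟩ := exists_pt h4 (cA_eq2 h3 (v 2) (v 3))
  refine ⟨_, _, h4, (P, Q), ⟨hP1.trans_ne h1, hP2.trans_ne h1,
    hQ1.trans_ne (mul_ne_zero h1 h2)⟩, ?_⟩
  rw [pt3, hP1, hP2, hQ1, hQ2]
  funext i
  fin_cases i
  · exact h0.symm
  all_goals simp [pi3]; field_simp

lemma dom3 (hD : 64 * b ^ 3 + 27 * a ^ 4 ≠ 0) {s : (W a b).Point × (W a b).Point}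
    (hs' : Inv3 (s.1 + pt0 hD, s.2 + s.1)) (hG : G3 (pt3 (s.1 + pt0 hD, s.2 + s.1)))
    (M : Subfield L) (hM : ∀ i, pt3 (s.1 + pt0 hD, s.2 + s.1) i ∈ M) : ∀ i, pt3 s i ∈ M := by
  rw [G3_pt3] at hG
  obtain ⟨h1, h2, h3⟩ := hs'
  obtain ⟨e1, e2, e3, e4⟩ := normalise (p_eq _) (p_eq _) h1 h2 h3 rfl rfl rfl rfl
  obtain ⟨eA, eB⟩ := e4 hG.2.2.1
  have hp := hM 1
  have hr := hM 2
  have ht := hM 3
  simp only [pt3, pi3, Matrix.cons_val] at hp hr ht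
  have hl := div_ne_zero h1 h2
  generalize px (s.1 + pt0 hD, s.2 + s.1).1 / py (s.1 + pt0 hD, s.2 + s.1).1 = l at *
  have hA : l ^ 3 * a ∈ M := by
    rw [← eA, cA]
    exact M.div_mem (M.sub_mem (M.sub_mem (M.pow_mem ht 2) ht) (M.sub_mem
      (M.pow_mem (M.mul_mem ht hr) 2) (M.mul_mem (M.pow_mem hp 2) (M.mul_mem ht hr))))
      (M.sub_mem M.one_mem hp)
  have hB : l ^ 4 * b ∈ M := by
    rw [← eB, cB, eA]
    exact M.add_mem (M.sub_mem hA (M.pow_mem ht 2)) ht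
  have hS : InM M l (pt0 hD) := ⟨by simp [px_pt0], by simp [py_pt0]⟩
  have hP : InM M l s.1 := InM.of_add hl hA hB ⟨ht, e1 ▸ ht⟩ hS
  have hQ : InM M l s.2 :=
    InM.of_add hl hA hB ⟨e2 ▸ M.mul_mem ht hr, e3 ▸ M.mul_mem hp (M.mul_mem ht hr)⟩ hP
  intro i
  rw [pt3, ← pi3_scale hl]
  fin_cases i
  · exact M.one_mem
  · exact M.div_mem (M.div_mem hQ.2 hQ.1) (M.div_mem hP.2 hP.1)
  · exact M.div_mem hQ.1 hP.1
  · exact M.mul_mem (M.pow_mem (M.div_mem hP.1 hP.2) 2) hP.1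

end General

variable {K : Type*} [Field K]

lemma gen3 [DecidableEq (Fn (Fin 4) K)] (h : ∀ n, G3 (gen (K := K) Phi3 n)) :
    ∃ (a b : Fn (Fin 4) K) (hD : 64 * b ^ 3 + 27 * a ^ 4 ≠ 0) (s : (W a b).Point × (W a b).Point),
      ∀ n, Inv3 (st3 (pt0 hD) s n) ∧ pt3 (st3 (pt0 hD) s n) = gen Phi3 n := by
  obtain ⟨a, b, hD, s, h1, h2⟩ := exists_state3 (div_self (emb_ne (X_ne_zero 0))) (h 0)
  refine ⟨a, b, hD, s, fun n => ?_⟩
  induction n with
  | zero => exact ⟨h1, h2⟩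
  | succ n ih =>
    obtain ⟨k1, k2⟩ := step3 hD ih.1 (ih.2 ▸ h n)
    exact ⟨k1, funext fun i => by rw [gen, ← ih.2]; exact k2 i⟩

lemma ht_pt3 {σ : Type*} {a b : Fn σ K} (s : (W a b).Point × (W a b).Point) (i : Fin 4) :
    ht (pt3 s i) ≤ 11 * hx s.1 + 5 * hx s.2 + 2 * (ht a + ht b) := by
  have h1 := ht_slope s.1
  have h2 := ht_slope s.2
  have h3 := hx_eq s.1
  have h4 := hx_eq s.2
  fin_cases i
  · exact ht_one.le.trans (Nat.zero_le _)
  · exact (ht_div _ _).trans (by omega)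
  · exact (ht_div _ _).trans (by omega)
  · refine (ht_mul _ _).trans ?_
    have := ht_inv (py s.1 / px s.1)
    rw [inv_div] at this
    rw [ht_pow]
    omega

theorem quartic (K : Type*) [Field K] :
    ∃ (f : Fin (3 + 1) → MvPolynomial (Fin (3 + 1)) K) (d : ℕ) (D : ℕ → ℕ),
      IsMap f d ∧ AlgebraicIndependent K f ∧ (∀ n e, HasDeg (iter f n) e ↔ e = D n) ∧
      ∃ c1 c2 n0 : ℕ, ∀ n ≥ n0, n ^ (3 + 1) ≤ c1 * D n ∧ D n ≤ c2 * n ^ (3 + 1) := by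
  classical
  have hD := disc_ne' (K := K) (0 : Fin 4)
  have est : ∀ n, st3 (pt0 hD) (2 • pt0 hD, 4 • pt0 hD) n
      = ((2 + n) • S0 K 0, (4 + n * 2 + n.choose 2) • S0 K 0) := fun n => by
    rw [st3_eq]
    simp only [add_nsmul, mul_nsmul']
  have inv : ∀ n, Inv3 (st3 (pt0 hD) (2 • pt0 hD, 4 • pt0 hD) n) := fun n => by
    rw [est]
    exact ⟨px_S0_ne_zero _ (by omega), py_S0_ne_zero _ (by omega), px_S0_ne_zero _ (by omega)⟩
  have good : ∀ n, G3 (pt3 (st3 (pt0 hD) (2 • pt0 hD, 4 • pt0 hD) n)) := fun n => by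
    rw [G3_pt3]
    refine G2_of hD (inv n).1 (inv n).2.1 (inv n).2.2 rfl rfl rfl rfl ?_ ?_ (inv (n + 1)).1
      (inv (n + 1)).2.1 (inv (n + 1)).2.2
    · rw [est]
      exact px_S0_ne _ (by omega) (by omega)
    · rw [est, ← succ_nsmul]
      exact px_S0_ne _ (by omega) (by omega)
  refine framework (k := 3) isOp_G3 rep_Phi3 (fun _ => rfl)
    (fun n => pt3 (st3 (pt0 hD) (2 • pt0 hD, 4 • pt0 hD) n)) rfl good
    (fun n => (step3 hD (inv n) (good n)).2) ?_ ?_ ?_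
  · obtain ⟨C, hC⟩ : PB (fun n => 384 * hx ((2 + n) • S0 K (0 : Fin 4)) + 768) 3 :=
      (((PB.hx_nsmul (e := 1) ⟨2, fun n => by rw [pow_one]; omega⟩ _).cmul 384).mono (by omega)).add
        (PB.const _ _)
    refine ⟨C + 384, 2, fun n => ?_⟩
    have h1 := sq_le_hx (K := K) (0 : Fin 4) (4 + n * 2 + n.choose 2)
    have h2 : n ^ 2 ≤ 2 * (4 + n * 2 + n.choose 2) := by
      have := Nat.triangle_succ n
      have h := Nat.choose_two_right n
      have h' := Nat.two_mul_div_two_of_even (Nat.even_mul_pred_self n)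
      cases n with
      | zero => simp
      | succ n =>
        simp only [Nat.add_sub_cancel] at h h'
        rw [h]
        nlinarith
    have h3 : n ^ (3 + 1) ≤ 4 * (4 + n * 2 + n.choose 2) ^ 2 := by
      calc n ^ (3 + 1) = (n ^ 2) ^ 2 := by ring
        _ ≤ (2 * (4 + n * 2 + n.choose 2)) ^ 2 := Nat.pow_le_pow_left h2 2
        _ = _ := by ring
    have h4 : hx ((4 + n * 2 + n.choose 2) • S0 K (0 : Fin 4))
        ≤ ht (pt3 (st3 (pt0 hD) (2 • pt0 hD, 4 • pt0 hD) n) 2) + hx ((2 + n) • S0 K (0 : Fin 4)) := by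
      have h5 := (inv n).1
      rw [est] at h5 ⊢
      rw [hx_eq, hx_eq]
      refine le_trans (le_of_eq ?_) (ht_mul _ _)
      congr 1
      exact (div_mul_cancel₀ _ h5).symm
    have h6 := hC n
    have h7 : (C + 384) * (n + 1) ^ 3 = C * (n + 1) ^ 3 + 384 * (n + 1) ^ 3 := by ring
    generalize ht (pt3 (st3 (pt0 hD) (2 • pt0 hD, 4 • pt0 hD) n) 2) = H at *
    have h8 : (C + 384) * H = C * H + 384 * H := by ring
    simp only at h6
    omega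
  · intro h
    obtain ⟨a, b, hD, s, hs⟩ := gen3 h
    refine PB.fin fun i => ?_
    have h1 : PB (fun n => hx (s.1 + n • pt0 hD)) 4 :=
      (PB.const _ _).hx_add ((PB.hx_nsmul (e := 1) ⟨1, fun n => by rw [pow_one]; omega⟩ _).mono (by omega))
    have h2 : PB (fun n => hx (s.2 + n • s.1 + n.choose 2 • pt0 hD)) 4 :=
      ((PB.const _ _).hx_add ((PB.hx_nsmul (e := 1) ⟨1, fun n => by rw [pow_one]; omega⟩ _).mono
        (by omega))).hx_add ((PB.choose 2).hx_nsmul _)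
    refine (((h1.cmul 11).add (h2.cmul 5)).add (PB.const (2 * (ht a + ht b)) _)).of_le fun n => ?_
    rw [← (hs n).2, st3_eq]
    exact ht_pt3 _ i
  · intro h M hM
    obtain ⟨a, b, hD, s, hs⟩ := gen3 h
    rw [← (hs 0).2]
    rw [← (hs 1).2] at hM
    exact dom3 hD (hs 1).1 ((hs 1).2 ▸ h 1) M hM

end Pool.Agent.Lib.MP_55ef7c_ag
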