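import Pool.Agent.Lib.MP_55ef7c_ag.Core

/-!
The map `(P, Q, R) ↦ (P + S, Q + P, R + Q)` as a rational self-map of projective four-space.
-/

namespace Pool.Agent.Lib.MP_55ef7c_ag

open MvPolynomial WeierstrassCurve WeierstrassCurve.Affine

section General

variable {L : Type*} [Field L]

/-- Scale-invariant coordinates of a triple of points. -/
def pi4 (x1 y1 x2 y2 x3 y3 : L) : Fin 5 → L :=
  ![1, (y2 / x2) / (y1 / x1), (y3 / x3) / (y1 / x1), x2 / x1, x3 / x1]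

lemma pi4_scale {l x1 y1 x2 y2 x3 y3 : L} (hl : l ≠ 0) :
    pi4 (l ^ 2 * x1) (l ^ 3 * y1) (l ^ 2 * x2) (l ^ 3 * y2) (l ^ 2 * x3) (l ^ 3 * y3)
      = pi4 x1 y1 x2 y2 x3 y3 := by
  have e : ∀ x y : L, l ^ 3 * y / (l ^ 2 * x) = l * (y / x) := fun x y => by
    rw [pow_succ' l 2, mul_assoc, mul_div_assoc, mul_div_mul_left _ _ (pow_ne_zero 2 hl)]
  rw [pi4, pi4, e, e, e, mul_div_mul_left _ _ hl, mul_div_mul_left _ _ hl,
    mul_div_mul_left _ _ (pow_ne_zero 2 hl), mul_div_mul_left _ _ (pow_ne_zero 2 hl)]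

/-- Denominator of the normalised abscissa of the first point. -/
def tD (p q r w : L) : L := (p - q) + (q - 1) * r ^ 2 + (1 - p) * w ^ 2

/-- The normalised abscissa of the first point. -/
def tt (p q r w : L) : L := ((p - q) + (q - 1) * (p ^ 2 * r) + (1 - p) * (q ^ 2 * w)) / tD p q r w

/-- The good locus in affine coordinates. -/
def G4' (p q r w : L) : Prop :=
  tD p q r w ≠ 0 ∧ G2 p r (tt p q r w) ∧ w ≠ 0 ∧ tt p q r w * w - tt p q r w * r ≠ 0 ∧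
    aX (tt p q r w * w) (q * (tt p q r w * w)) (tt p q r w * r) (p * (tt p q r w * r)) ≠ 0

/-- The good locus. -/
def G4 (v : Fin 5 → L) : Prop := v 0 ≠ 0 ∧ G4' (v 1 / v 0) (v 2 / v 0) (v 3 / v 0) (v 4 / v 0)

/-- The map in normalised coordinates. -/
def phi4 (p q r w t : L) : Fin 5 → L :=
  pi4 (aX t t 0 0) (aY (cA p r t) t t 0 0) (aX (t * r) (p * (t * r)) t t)
    (aY (cA p r t) (t * r) (p * (t * r)) t t)
    (aX (t * w) (q * (t * w)) (t * r) (p * (t * r)))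
    (aY (cA p r t) (t * w) (q * (t * w)) (t * r) (p * (t * r)))

/-- The map in homogeneous coordinates. -/
def Phi4 (i : Fin 5) (v : Fin 5 → L) : L :=
  phi4 (v 1 / v 0) (v 2 / v 0) (v 3 / v 0) (v 4 / v 0)
    (tt (v 1 / v 0) (v 2 / v 0) (v 3 / v 0) (v 4 / v 0)) i

section Reps

variable {ι K : Type*} [Field K] [Algebra K L] {G : (ι → L) → Prop} {p q r w : (ι → L) → L}

lemma Rep.tD (hp : Rep K G p) (hq : Rep K G q) (hr : Rep K G r) (hw : Rep K G w) :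
    Rep K G (fun v => tD (p v) (q v) (r v) (w v)) :=
  ((hp.sub hq).add ((hq.sub Rep.one).mul (hr.pow 2))).add ((Rep.one.sub hp).mul (hw.pow 2))

lemma Rep.tt (hp : Rep K G p) (hq : Rep K G q) (hr : Rep K G r) (hw : Rep K G w)
    (hne : ∀ v, G v → MP_55ef7c_ag.tD (p v) (q v) (r v) (w v) ≠ 0) :
    Rep K G (fun v => tt (p v) (q v) (r v) (w v)) :=
  (((hp.sub hq).add ((hq.sub Rep.one).mul ((hp.pow 2).mul hr))).add
    ((Rep.one.sub hp).mul ((hq.pow 2).mul hw))).div (hp.tD hq hr hw) hne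

lemma isOp_G4' (hG : IsOp K G) (hp : Rep K G p) (hq : Rep K G q) (hr : Rep K G r)
    (hw : Rep K G w) : IsOp K (fun v => G v ∧ G4' (p v) (q v) (r v) (w v)) := by
  have h1 := hG.and (hp.tD hq hr hw)
  have hp1 := hp.mono (G' := fun v => G v ∧ tD (p v) (q v) (r v) (w v) ≠ 0) fun v h => h.1
  have hq1 := hq.mono (G' := fun v => G v ∧ tD (p v) (q v) (r v) (w v) ≠ 0) fun v h => h.1
  have hr1 := hr.mono (G' := fun v => G v ∧ tD (p v) (q v) (r v) (w v) ≠ 0) fun v h => h.1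
  have hw1 := hw.mono (G' := fun v => G v ∧ tD (p v) (q v) (r v) (w v) ≠ 0) fun v h => h.1
  have ht1 := hp1.tt hq1 hr1 hw1 fun v h => h.2
  have h2 := isOp_G2 h1 hp1 hr1 ht1
  have h3 := h2.and (hw1.mono fun v h => h.1)
  have h4 := h3.and (((ht1.mul hw1).sub (ht1.mul hr1)).mono fun v h => h.1.1)
  have h5 := h4.and (Rep.aX ((ht1.mul hw1).mono fun v h => h.1.1.1)
    ((hq1.mul (ht1.mul hw1)).mono fun v h => h.1.1.1) ((ht1.mul hr1).mono fun v h => h.1.1.1)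
    ((hp1.mul (ht1.mul hr1)).mono fun v h => h.1.1.1) fun v h => h.2)
  simpa only [G4', and_assoc] using h5

end Reps

lemma isOp_G4 {K : Type*} [Field K] [Algebra K L] : IsOp K (G4 (L := L)) :=
  isOp_G4' (IsOp.coord 0) (Rep.coord 1 0 fun _ h => h) (Rep.coord 2 0 fun _ h => h)
    (Rep.coord 3 0 fun _ h => h) (Rep.coord 4 0 fun _ h => h)

lemma rep_Phi4 {K : Type*} [Field K] [Algebra K L] (i : Fin 5) : Rep K (G4 (L := L)) (Phi4 i) := by
  have hp : Rep K (G4 (L := L)) (fun v => v 1 / v 0) := Rep.coord 1 0 fun _ h => h.1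
  have hq : Rep K (G4 (L := L)) (fun v => v 2 / v 0) := Rep.coord 2 0 fun _ h => h.1
  have hr : Rep K (G4 (L := L)) (fun v => v 3 / v 0) := Rep.coord 3 0 fun _ h => h.1
  have hw : Rep K (G4 (L := L)) (fun v => v 4 / v 0) := Rep.coord 4 0 fun _ h => h.1
  have ht := hp.tt hq hr hw fun v h => h.2.1
  have hA := hp.cA hr ht fun v h => h.2.2.1.2.2.1
  have hX1 := ht.aX ht Rep.zero Rep.zero fun v h => by rw [sub_zero]; exact h.2.2.1.1
  have hY1 := hA.aY ht ht Rep.zero Rep.zero fun v h => by rw [sub_zero]; exact h.2.2.1.1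
  have hX2 := (ht.mul hr).aX (hp.mul (ht.mul hr)) ht ht fun v h => h.2.2.1.2.2.2.2.1
  have hY2 := hA.aY (ht.mul hr) (hp.mul (ht.mul hr)) ht ht fun v h => h.2.2.1.2.2.2.2.1
  have hX3 := (ht.mul hw).aX (hq.mul (ht.mul hw)) (ht.mul hr) (hp.mul (ht.mul hr))
    fun v h => h.2.2.2.2.1
  have hY3 := hA.aY (ht.mul hw) (hq.mul (ht.mul hw)) (ht.mul hr) (hp.mul (ht.mul hr))
    fun v h => h.2.2.2.2.1
  have hm := hY1.div hX1 fun v h => h.2.2.1.2.2.2.2.2.1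
  fin_cases i
  · exact Rep.one
  · exact (hY2.div hX2 fun v h => h.2.2.1.2.2.2.2.2.2.2).div hm
      fun v h => div_ne_zero h.2.2.1.2.2.2.2.2.2.1 h.2.2.1.2.2.2.2.2.1
  · exact (hY3.div hX3 fun v h => h.2.2.2.2.2).div hm
      fun v h => div_ne_zero h.2.2.1.2.2.2.2.2.2.1 h.2.2.1.2.2.2.2.2.1
  · exact hX2.div hX1 fun v h => h.2.2.1.2.2.2.2.2.1
  · exact hX3.div hX1 fun v h => h.2.2.1.2.2.2.2.2.1

lemma cA_eq3 {p q r w : L} (hp : 1 - p ≠ 0) (hd : tD p q r w ≠ 0) :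
    (q * (tt p q r w * w)) ^ 2 + cA p r (tt p q r w) * (q * (tt p q r w * w))
      = (tt p q r w * w) ^ 3 + cB p r (tt p q r w) * (tt p q r w * w) := by
  have e : tt p q r w * tD p q r w = (p - q) + (q - 1) * (p ^ 2 * r) + (1 - p) * (q ^ 2 * w) := by
    rw [tt, div_mul_cancel₀ _ hd]
  generalize tt p q r w = t at e
  have eA : cA p r t * (1 - p) = (t ^ 2 - t) - ((t * r) ^ 2 - p ^ 2 * (t * r)) := by
    rw [cA, div_mul_cancel₀ _ hp]
  rw [cB]
  generalize cA p r t = A at eA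
  rw [tD] at e
  apply mul_left_cancel₀ hp
  linear_combination (t * w * (q - 1)) * eA - (t ^ 2 * w) * e

variable {a b : L}

lemma tt_eq {P Q R : (W a b).Point} (hx1 : px P ≠ 0) (hy1 : py P ≠ 0) (hx2 : px Q ≠ 0)
    (hx3 : px R ≠ 0) {l p q r w : L} (hl : l = px P / py P)
    (hp : p = (py Q / px Q) / (py P / px P)) (hq : q = (py R / px R) / (py P / px P))
    (hr : r = px Q / px P) (hw : w = px R / px P) (hd : tD p q r w ≠ 0) :
    tt p q r w = l ^ 2 * px P := by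
  obtain ⟨t, ht⟩ : ∃ t, t = l ^ 2 * px P := ⟨_, rfl⟩
  obtain ⟨e1, e2, e3, -⟩ := normalise (p_eq P) (p_eq Q) hx1 hy1 hx2 hl hp hr ht
  obtain ⟨-, e4, e5, -⟩ := normalise (p_eq P) (p_eq R) hx1 hy1 hx3 hl hq hw ht
  have hl0 : l ≠ 0 := by rw [hl]; exact div_ne_zero hx1 hy1
  have ht0 : t ≠ 0 := by rw [ht]; positivity
  have htr : t * r ≠ 0 := by rw [e2]; positivity
  have htw : t * w ≠ 0 := by rw [e4]; positivity
  have k1 : t + l ^ 3 * a = t ^ 2 + l ^ 4 * b := by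
    apply mul_left_cancel₀ ht0
    linear_combination l ^ 6 * p_eq P + (t + l ^ 3 * py P + l ^ 3 * a) * e1
      - (t ^ 2 + t * (l ^ 2 * px P) + (l ^ 2 * px P) ^ 2 + l ^ 4 * b) * ht
  have k2 : p ^ 2 * (t * r) + l ^ 3 * a * p = (t * r) ^ 2 + l ^ 4 * b := by
    apply mul_left_cancel₀ htr
    linear_combination l ^ 6 * p_eq Q + (p * (t * r) + l ^ 3 * py Q + l ^ 3 * a) * e3
      - ((t * r) ^ 2 + (t * r) * (l ^ 2 * px Q) + (l ^ 2 * px Q) ^ 2 + l ^ 4 * b) * e2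
  have k3 : q ^ 2 * (t * w) + l ^ 3 * a * q = (t * w) ^ 2 + l ^ 4 * b := by
    apply mul_left_cancel₀ htw
    linear_combination l ^ 6 * p_eq R + (q * (t * w) + l ^ 3 * py R + l ^ 3 * a) * e5
      - ((t * w) ^ 2 + (t * w) * (l ^ 2 * px R) + (l ^ 2 * px R) ^ 2 + l ^ 4 * b) * e4
  rw [← ht, tt, div_eq_iff hd, tD]
  apply mul_left_cancel₀ ht0
  linear_combination (p - q) * k1 + (q - 1) * k2 + (1 - p) * k3

/-- Coordinates of a triple of points. -/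
def pt4 (s : (W a b).Point × (W a b).Point × (W a b).Point) : Fin 5 → L :=
  pi4 (px s.1) (py s.1) (px s.2.1) (py s.2.1) (px s.2.2) (py s.2.2)

/-- Validity of the coordinates. -/
def Inv4 (s : (W a b).Point × (W a b).Point × (W a b).Point) : Prop :=
  px s.1 ≠ 0 ∧ py s.1 ≠ 0 ∧ px s.2.1 ≠ 0 ∧ px s.2.2 ≠ 0

lemma G4_pt4 (s : (W a b).Point × (W a b).Point × (W a b).Point) : G4 (pt4 s) ↔
    G4' ((py s.2.1 / px s.2.1) / (py s.1 / px s.1)) ((py s.2.2 / px s.2.2) / (py s.1 / px s.1))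
      (px s.2.1 / px s.1) (px s.2.2 / px s.1) := by
  simp [G4, pt4, pi4]

lemma exists_state4 {v : Fin 5 → L} (h0 : v 0 = 1) (hG : G4 v) :
    ∃ (a b : L) (_ : 64 * b ^ 3 + 27 * a ^ 4 ≠ 0)
      (s : (W a b).Point × (W a b).Point × (W a b).Point), Inv4 s ∧ pt4 s = v := by
  obtain ⟨-, hd, ⟨h1, h2, h3, h4, -⟩, h5, -⟩ := hG
  simp only [h0, div_one] at hd h1 h2 h3 h4 h5
  obtain ⟨P, hP1, hP2⟩ := exists_pt h4 (cA_eq1 _ _ _)
  obtain ⟨Q, hQ1, hQ2⟩ := exists_pt h4 (cA_eq2 h3 _ _)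
  obtain ⟨R, hR1, hR2⟩ := exists_pt h4 (cA_eq3 h3 hd)
  refine ⟨_, _, h4, (P, Q, R), ⟨hP1.trans_ne h1, hP2.trans_ne h1,
    hQ1.trans_ne (mul_ne_zero h1 h2), hR1.trans_ne (mul_ne_zero h1 h5)⟩, ?_⟩
  rw [pt4, hP1, hP2, hQ1, hQ2, hR1, hR2]
  generalize tt (v 1) (v 2) (v 3) (v 4) = t at h1
  funext i
  fin_cases i
  · exact h0.symm
  all_goals simp [pi4]; field_simp

variable [DecidableEq L]

lemma core_eq3 {P Q R : (W a b).Point} (hx1 : px P ≠ 0)
    (hy1 : py P ≠ 0) (hx2 : px Q ≠ 0) (hx3 : px R ≠ 0) {l p q r w t : L} (hl : l = px P / py P)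
    (hp : p = (py Q / px Q) / (py P / px P)) (hq : q = (py R / px R) / (py P / px P))
    (hr : r = px Q / px P) (hw : w = px R / px P) (ht : t = l ^ 2 * px P)
    (hp1 : 1 - p ≠ 0) (hne : px R ≠ px Q) :
    aX (t * w) (q * (t * w)) (t * r) (p * (t * r)) = l ^ 2 * px (R + Q) ∧
      aY (cA p r t) (t * w) (q * (t * w)) (t * r) (p * (t * r)) = l ^ 3 * py (R + Q) := by
  obtain ⟨-, e2, e3, e4⟩ := normalise (p_eq P) (p_eq Q) hx1 hy1 hx2 hl hp hr ht
  obtain ⟨-, e5, e6, -⟩ := normalise (p_eq P) (p_eq R) hx1 hy1 hx3 hl hq hw ht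
  obtain ⟨eA, -⟩ := e4 hp1
  have hl0 : l ≠ 0 := by rw [hl]; exact div_ne_zero hx1 hy1
  obtain ⟨k3, k4⟩ := p_add (ne_zero_of_px hx3) (ne_zero_of_px hx2) hne
  rw [k3, k4, ← aX_scale hl0 hne, ← aY_scale hl0 hne, ← eA, ← e2, ← e3, ← e5, ← e6]
  exact ⟨rfl, rfl⟩

lemma step4 (hD : 64 * b ^ 3 + 27 * a ^ 4 ≠ 0) {s : (W a b).Point × (W a b).Point × (W a b).Point}
    (hs : Inv4 s) (hG : G4 (pt4 s)) :
    Inv4 (s.1 + pt0 hD, s.2.1 + s.1, s.2.2 + s.2.1) ∧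
      ∀ i, pt4 (s.1 + pt0 hD, s.2.1 + s.1, s.2.2 + s.2.1) i = Phi4 i (pt4 s) := by
  rw [G4_pt4] at hG
  obtain ⟨h1, h2, h3, h4⟩ := hs
  obtain ⟨hd, hG, -, hne, hX3⟩ := hG
  have ht := tt_eq h1 h2 h3 h4 rfl rfl rfl rfl rfl hd
  have hne' : px s.2.2 ≠ px s.2.1 := fun h => hne (by rw [h, sub_self])
  obtain ⟨k1, k2, k3, k4⟩ := core_eq hD h1 h2 h3 rfl rfl rfl ht hG.2.2.1 (ne_of_G2 h1 rfl hG)
  obtain ⟨k5, k6⟩ := core_eq3 h1 h2 h3 h4 rfl rfl rfl rfl rfl ht hG.2.2.1 hne'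
  refine ⟨⟨?_, ?_, ?_, ?_⟩, fun i => ?_⟩
  · exact right_ne_zero_of_mul (k1 ▸ hG.2.2.2.2.2.1)
  · exact right_ne_zero_of_mul (k2 ▸ hG.2.2.2.2.2.2.1)
  · exact right_ne_zero_of_mul (k3 ▸ hG.2.2.2.2.2.2.2)
  · exact right_ne_zero_of_mul (k5 ▸ hX3)
  · have e : Phi4 i (pt4 s) = phi4 ((py s.2.1 / px s.2.1) / (py s.1 / px s.1))
        ((py s.2.2 / px s.2.2) / (py s.1 / px s.1)) (px s.2.1 / px s.1) (px s.2.2 / px s.1)
        (tt ((py s.2.1 / px s.2.1) / (py s.1 / px s.1))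
          ((py s.2.2 / px s.2.2) / (py s.1 / px s.1)) (px s.2.1 / px s.1) (px s.2.2 / px s.1)) i := by
      simp [Phi4, pt4, pi4]
    rw [e, phi4, k1, k2, k3, k4, k5, k6, pi4_scale (div_ne_zero h1 h2)]
    rfl

/-- The orbit of a triple of points. -/
def st4 (S : (W a b).Point) (s : (W a b).Point × (W a b).Point × (W a b).Point) :
    ℕ → (W a b).Point × (W a b).Point × (W a b).Point
  | 0 => s
  | n + 1 => ((st4 S s n).1 + S, (st4 S s n).2.1 + (st4 S s n).1,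
      (st4 S s n).2.2 + (st4 S s n).2.1)

lemma st4_eq (S : (W a b).Point) (s : (W a b).Point × (W a b).Point × (W a b).Point) (n : ℕ) :
    st4 S s n = (s.1 + n • S, s.2.1 + n • s.1 + n.choose 2 • S,
      s.2.2 + n • s.2.1 + n.choose 2 • s.1 + n.choose 3 • S) := by
  induction n with
  | zero => simp [st4]
  | succ n ih =>
    rw [st4, ih, Nat.choose_succ_succ' n 1, Nat.choose_succ_succ' n 2, Nat.choose_one_right]
    simp only [add_nsmul, one_nsmul, Prod.mk.injEq]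
    refine ⟨?_, ?_, ?_⟩ <;> abel

lemma dom4 (hD : 64 * b ^ 3 + 27 * a ^ 4 ≠ 0) {s : (W a b).Point × (W a b).Point × (W a b).Point}
    (hs' : Inv4 (s.1 + pt0 hD, s.2.1 + s.1, s.2.2 + s.2.1))
    (hG : G4 (pt4 (s.1 + pt0 hD, s.2.1 + s.1, s.2.2 + s.2.1))) (M : Subfield L)
    (hM : ∀ i, pt4 (s.1 + pt0 hD, s.2.1 + s.1, s.2.2 + s.2.1) i ∈ M) : ∀ i, pt4 s i ∈ M := by
  rw [G4_pt4] at hG
  obtain ⟨h1, h2, h3, h4⟩ := hs'
  have et := tt_eq h1 h2 h3 h4 rfl rfl rfl rfl rfl hG.1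
  obtain ⟨e1, e2, e3, e4⟩ := normalise (p_eq _) (p_eq _) h1 h2 h3 rfl rfl rfl rfl
  obtain ⟨-, e5, e6, -⟩ := normalise (p_eq _) (p_eq _) h1 h2 h4 rfl rfl rfl rfl
  obtain ⟨eA, eB⟩ := e4 hG.2.1.2.2.1
  have hp := hM 1
  have hq := hM 2
  have hr := hM 3
  have hw := hM 4
  simp only [pt4, pi4, Matrix.cons_val] at hp hq hr hw
  have ht := M.div_mem (M.add_mem (M.add_mem (M.sub_mem hp hq) (M.mul_mem (M.sub_mem hq M.one_mem)
    (M.mul_mem (M.pow_mem hp 2) hr))) (M.mul_mem (M.sub_mem M.one_mem hp)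
    (M.mul_mem (M.pow_mem hq 2) hw))) (M.add_mem (M.add_mem (M.sub_mem hp hq)
    (M.mul_mem (M.sub_mem hq M.one_mem) (M.pow_mem hr 2))) (M.mul_mem (M.sub_mem M.one_mem hp)
    (M.pow_mem hw 2)))
  rw [← tD, ← tt, et] at ht
  have hl := div_ne_zero h1 h2
  generalize px (s.1 + pt0 hD, s.2.1 + s.1, s.2.2 + s.2.1).1
    / py (s.1 + pt0 hD, s.2.1 + s.1, s.2.2 + s.2.1).1 = l at *
  have hA : l ^ 3 * a ∈ M := by
    rw [← eA, cA]
    exact M.div_mem (M.sub_mem (M.sub_mem (M.pow_mem ht 2) ht) (M.sub_mem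
      (M.pow_mem (M.mul_mem ht hr) 2) (M.mul_mem (M.pow_mem hp 2) (M.mul_mem ht hr))))
      (M.sub_mem M.one_mem hp)
  have hB : l ^ 4 * b ∈ M := by
    rw [← eB, cB, eA]
    exact M.add_mem (M.sub_mem hA (M.pow_mem ht 2)) ht
  have hS : InM M l (pt0 hD) := ⟨by simp [px_pt0], by simp [py_pt0]⟩
  have hP : InM M l s.1 := InM.of_add hl hA hB ⟨ht, e1 ▸ ht⟩ hS
  have hQ : InM M l s.2.1 :=
    InM.of_add hl hA hB ⟨e2 ▸ M.mul_mem ht hr, e3 ▸ M.mul_mem hp (M.mul_mem ht hr)⟩ hP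
  have hR : InM M l s.2.2 :=
    InM.of_add hl hA hB ⟨e5 ▸ M.mul_mem ht hw, e6 ▸ M.mul_mem hq (M.mul_mem ht hw)⟩ hQ
  intro i
  rw [pt4, ← pi4_scale hl]
  fin_cases i
  · exact M.one_mem
  · exact M.div_mem (M.div_mem hQ.2 hQ.1) (M.div_mem hP.2 hP.1)
  · exact M.div_mem (M.div_mem hR.2 hR.1) (M.div_mem hP.2 hP.1)
  · exact M.div_mem hQ.1 hP.1
  · exact M.div_mem hR.1 hP.1

end General

variable {K : Type*} [Field K]

lemma gen4 [DecidableEq (Fn (Fin 5) K)] (h : ∀ n, G4 (gen (K := K) Phi4 n)) :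
    ∃ (a b : Fn (Fin 5) K) (hD : 64 * b ^ 3 + 27 * a ^ 4 ≠ 0)
      (s : (W a b).Point × (W a b).Point × (W a b).Point),
      ∀ n, Inv4 (st4 (pt0 hD) s n) ∧ pt4 (st4 (pt0 hD) s n) = gen Phi4 n := by
  obtain ⟨a, b, hD, s, h1, h2⟩ := exists_state4 (div_self (emb_ne (X_ne_zero 0))) (h 0)
  refine ⟨a, b, hD, s, fun n => ?_⟩
  induction n with
  | zero => exact ⟨h1, h2⟩
  | succ n ih =>
    obtain ⟨k1, k2⟩ := step4 hD ih.1 (ih.2 ▸ h n)
    exact ⟨k1, funext fun i => by rw [gen, ← ih.2]; exact k2 i⟩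

lemma ht_pt4 {σ : Type*} {a b : Fn σ K} (s : (W a b).Point × (W a b).Point × (W a b).Point)
    (i : Fin 5) : ht (pt4 s i) ≤ 5 * hx s.1 + 5 * hx s.2.1 + 5 * hx s.2.2 + 2 * (ht a + ht b) := by
  have h1 := ht_slope s.1
  have h2 := ht_slope s.2.1
  have h2' := ht_slope s.2.2
  have h3 := hx_eq s.1
  have h4 := hx_eq s.2.1
  have h5 := hx_eq s.2.2
  fin_cases i
  · exact ht_one.le.trans (Nat.zero_le _)
  all_goals exact (ht_div _ _).trans (by omega)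

lemma ht_quintic {σ : Type*} {a b x m β γ : Fn σ K} (hβ : β ≠ 0) (hm : m = β * x ^ 2 + γ)
    (h : m ^ 2 * x + a * m = x ^ 2 + b) : 2 * ht x ≤ 5 * ht γ + 9 * ht β + 2 * (ht a + ht b) := by
  have e : x ^ 5 = (((-(γ / β + γ / β)) * x + (1 - a * β) / β ^ 2) * x + -(γ / β) ^ 2) * x
      + (b - a * γ) / β ^ 2 := by
    subst hm
    field_simp
    linear_combination h
  have h1 := ht_pow x 5
  have h2 := ht_div γ β
  have h3 := (ht_neg _).trans (ht_add (γ / β) (γ / β))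
  have h4 := ht_div (1 - a * β) (β ^ 2)
  have h5 := ht_sub 1 (a * β)
  have h6 := ht_mul a β
  have h7 := ht_pow β 2
  have h8 := ht_neg ((γ / β) ^ 2)
  have h9 := ht_pow (γ / β) 2
  have h10 := ht_div (b - a * γ) (β ^ 2)
  have h11 := ht_sub b (a * γ)
  have h12 := ht_mul a γ
  have h13 := ht_one (σ := σ) (K := K)
  generalize -(γ / β + γ / β) = c3 at *
  generalize (1 - a * β) / β ^ 2 = c2 at *
  generalize -(γ / β) ^ 2 = c1 at *
  generalize (b - a * γ) / β ^ 2 = c0 at *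
  have k1 := ht_mul c3 x
  have k2 := ht_add (c3 * x) c2
  have k3 := ht_mul (c3 * x + c2) x
  have k4 := ht_add ((c3 * x + c2) * x) c1
  have k5 := ht_mul ((c3 * x + c2) * x + c1) x
  have k6 := ht_add (((c3 * x + c2) * x + c1) * x) c0
  rw [e] at h1
  omega

lemma hx_le_of_tD {σ : Type*} {a b : Fn σ K} {P Q R : (W a b).Point} (hx1 : px P ≠ 0)
    (hy1 : py P ≠ 0) (hx3 : px R ≠ 0) (hne : py P / px P ≠ py Q / px Q)
    (h : tD ((py Q / px Q) / (py P / px P)) ((py R / px R) / (py P / px P)) (px Q / px P)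
      (px R / px P) = 0) : hx R ≤ 54 * (hx P + hx Q) + 15 * (ht a + ht b) := by
  have h1 := ht_slope P
  have h2 := ht_slope Q
  have hm1 : py P / px P ≠ 0 := div_ne_zero hy1 hx1
  have e3 : (py R / px R) ^ 2 * px R + a * (py R / px R) = px R ^ 2 + b := by
    field_simp
    linear_combination p_eq R
  rw [hx_eq, hx_eq, hx_eq] at *
  generalize py P / px P = m1 at *
  generalize py Q / px Q = m2 at *
  generalize py R / px R = m3 at *
  generalize px P = x1 at *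
  generalize px Q = x2 at *
  generalize px R = x3 at *
  have key : (m2 - m3) * x1 ^ 2 + (m3 - m1) * x2 ^ 2 + (m1 - m2) * x3 ^ 2 = 0 := by
    rw [tD] at h
    field_simp at h
    linear_combination h
  have hβ := sub_ne_zero.2 hne
  by_cases hα : x1 ^ 2 - x2 ^ 2 = 0
  · have : x3 ^ 2 = x1 ^ 2 := mul_left_cancel₀ hβ (by linear_combination key - (m1 - m3) * hα)
    have k1 := ht_pow x3 2
    have k2 := ht_pow x1 2
    rw [this] at k1
    omega
  · have := ht_quintic (β := (m1 - m2) / (x1 ^ 2 - x2 ^ 2))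
      (γ := (m2 * x1 ^ 2 - m1 * x2 ^ 2) / (x1 ^ 2 - x2 ^ 2)) (div_ne_zero hβ hα)
      (by field_simp; linear_combination -key) e3
    have k1 := ht_div (m1 - m2) (x1 ^ 2 - x2 ^ 2)
    have k2 := ht_div (m2 * x1 ^ 2 - m1 * x2 ^ 2) (x1 ^ 2 - x2 ^ 2)
    have k3 := ht_sub m1 m2
    have k4 := ht_sub (x1 ^ 2) (x2 ^ 2)
    have k5 := ht_sub (m2 * x1 ^ 2) (m1 * x2 ^ 2)
    have k6 := ht_mul m2 (x1 ^ 2)
    have k7 := ht_mul m1 (x2 ^ 2)
    have k8 := ht_pow x1 2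
    have k9 := ht_pow x2 2
    omega

lemma six_mul_choose (n : ℕ) : 2 * n.choose 2 + n = n ^ 2 ∧
    6 * n.choose 3 + 3 * n ^ 2 = n ^ 3 + 2 * n := by
  induction n with
  | zero => simp
  | succ n ih =>
    rw [Nat.choose_succ_succ' n 1, Nat.choose_succ_succ' n 2, Nat.choose_one_right]
    obtain ⟨h1, h2⟩ := ih
    constructor <;> nlinarith

theorem sextic (K : Type*) [Field K] :
    ∃ (f : Fin (4 + 1) → MvPolynomial (Fin (4 + 1)) K) (d : ℕ) (D : ℕ → ℕ),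
      IsMap f d ∧ AlgebraicIndependent K f ∧ (∀ n e, HasDeg (iter f n) e ↔ e = D n) ∧
      ∃ c1 c2 n0 : ℕ, ∀ n ≥ n0, n ^ (5 + 1) ≤ c1 * D n ∧ D n ≤ c2 * n ^ (5 + 1) := by
  classical
  have hD := disc_ne' (K := K) (0 : Fin 5)
  obtain ⟨st, hst⟩ : ∃ st, st = st4 (pt0 hD) (300 • pt0 hD, 90000 • pt0 hD, 27000000 • pt0 hD) :=
    ⟨_, rfl⟩
  have est : ∀ n, st n = ((300 + n) • S0 K 0, (90000 + n * 300 + n.choose 2) • S0 K 0,
        (27000000 + n * 90000 + n.choose 2 * 300 + n.choose 3) • S0 K 0) := fun n => by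
    rw [hst, st4_eq]
    simp only [add_nsmul, mul_nsmul']
  have sst : ∀ n, st (n + 1) = ((st n).1 + pt0 hD, (st n).2.1 + (st n).1,
      (st n).2.2 + (st n).2.1) := fun n => by rw [hst, st4]
  have inv : ∀ n, Inv4 (st n) := fun n => by
    rw [est]
    exact ⟨px_S0_ne_zero _ (by omega), py_S0_ne_zero _ (by omega), px_S0_ne_zero _ (by omega),
      px_S0_ne_zero _ (by omega)⟩
  have good : ∀ n, G4 (pt4 (st n)) := fun n => by
    rw [G4_pt4]
    obtain ⟨h1, h2, h3, h4⟩ := inv n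
    obtain ⟨h1', h2', h3', h4'⟩ := sst n ▸ inv (n + 1)
    have n1 : px (st n).2.1 ≠ px (st n).1 := by
      rw [est]
      exact px_S0_ne _ (by omega) (by omega)
    have n2 : px (st n).2.1 ≠ px ((st n).1 + pt0 hD) := by
      rw [est, ← succ_nsmul]
      exact px_S0_ne _ (by omega) (by omega)
    have n3 : px (st n).2.2 ≠ px (st n).2.1 := by
      rw [est]
      exact px_S0_ne _ (by omega) (by omega)
    have hd : tD ((py (st n).2.1 / px (st n).2.1) / (py (st n).1 / px (st n).1))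
        ((py (st n).2.2 / px (st n).2.2) / (py (st n).1 / px (st n).1))
        (px (st n).2.1 / px (st n).1) (px (st n).2.2 / px (st n).1) ≠ 0 := fun h0 => by
      have k := hx_le_of_tD h1 h2 h4 (slope_ne hD h1 h3 n1 n2) h0
      rw [est] at k
      have k1 := hx_nsmul (S0 K (0 : Fin 5)) (300 + n)
      have k2 := hx_nsmul (S0 K (0 : Fin 5)) (90000 + n * 300 + n.choose 2)
      have k3 := sq_le_hx (K := K) (0 : Fin 5)
        (27000000 + n * 90000 + n.choose 2 * 300 + n.choose 3)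
      rw [hx_S0, ht_one, ht_emb, totalDegree_X] at k1 k2
      rw [ht_one, ht_emb, totalDegree_X] at k
      have k4 : (300 + n) ^ 2 ≤ (90000 + n * 300 + n.choose 2) ^ 2 :=
        Nat.pow_le_pow_left (by omega) 2
      have k5 : (300 * (90000 + n * 300 + n.choose 2)) ^ 2
          ≤ (27000000 + n * 90000 + n.choose 2 * 300 + n.choose 3) ^ 2 :=
        Nat.pow_le_pow_left (by omega) 2
      have k6 : 1 ^ 2 ≤ (90000 + n * 300 + n.choose 2) ^ 2 := Nat.pow_le_pow_left (by omega) 2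
      rw [mul_pow] at k5
      simp only at k
      omega
    have ht := tt_eq h1 h2 h3 h4 rfl rfl rfl rfl rfl hd
    have hG := G2_of hD h1 h2 h3 rfl rfl rfl ht n1 n2 h1' h2' h3'
    obtain ⟨k5, -⟩ := core_eq3 h1 h2 h3 h4 rfl rfl rfl rfl rfl ht hG.2.2.1 n3
    refine ⟨hd, hG, div_ne_zero h4 h1, ?_, ?_⟩
    · rw [← mul_sub, ← sub_div]
      exact mul_ne_zero hG.1 (div_ne_zero (sub_ne_zero.2 n3) h1)
    · rw [k5]
      exact mul_ne_zero (pow_ne_zero _ (div_ne_zero h1 h2)) h4'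
  refine framework (k := 5) isOp_G4 rep_Phi4 (fun _ => rfl) (fun n => pt4 (st n)) rfl good
    (fun n => sst n ▸ (step4 hD (inv n) (good n)).2) ?_ ?_ ?_
  · obtain ⟨C, hC⟩ : PB (fun n => 3456 * hx ((300 + n) • S0 K (0 : Fin 5)) + 6912) 5 :=
      (((PB.hx_nsmul (e := 1) ⟨300, fun n => by rw [pow_one]; omega⟩ _).cmul 3456).mono
        (by omega)).add (PB.const _ _)
    refine ⟨C + 3456, 4, fun n => ?_⟩
    have h1 := sq_le_hx (K := K) (0 : Fin 5) (27000000 + n * 90000 + n.choose 2 * 300 + n.choose 3)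
    have h2 : n ^ 3 ≤ 6 * (27000000 + n * 90000 + n.choose 2 * 300 + n.choose 3) := by
      have := six_mul_choose n
      omega
    have h3 : n ^ (5 + 1) ≤ 36 * (27000000 + n * 90000 + n.choose 2 * 300 + n.choose 3) ^ 2 := by
      calc n ^ (5 + 1) = (n ^ 3) ^ 2 := by ring
        _ ≤ (6 * (27000000 + n * 90000 + n.choose 2 * 300 + n.choose 3)) ^ 2 :=
          Nat.pow_le_pow_left h2 2
        _ = _ := by ring
    have h4 : hx ((27000000 + n * 90000 + n.choose 2 * 300 + n.choose 3) • S0 K (0 : Fin 5))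
        ≤ ht (pt4 (st n) 4) + hx ((300 + n) • S0 K (0 : Fin 5)) := by
      have h5 := (inv n).1
      rw [est] at h5 ⊢
      rw [hx_eq, hx_eq]
      refine le_trans (le_of_eq ?_) (ht_mul _ _)
      congr 1
      exact (div_mul_cancel₀ _ h5).symm
    have h6 := hC n
    have h7 : (C + 3456) * (n + 1) ^ 5 = C * (n + 1) ^ 5 + 3456 * (n + 1) ^ 5 := by ring
    generalize ht (pt4 (st n) 4) = H at *
    have h8 : (C + 3456) * H = C * H + 3456 * H := by ring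
    simp only at h6
    omega
  · intro h
    obtain ⟨a, b, hD, s, hs⟩ := gen4 h
    refine PB.fin fun i => ?_
    have l1 : ∀ T : (W a b).Point, PB (fun n => hx (n • T)) 6 := fun T =>
      (PB.hx_nsmul (e := 1) ⟨1, fun n => by rw [pow_one]; omega⟩ _).mono (by omega)
    have l2 : ∀ T : (W a b).Point, PB (fun n => hx (n.choose 2 • T)) 6 := fun T =>
      ((PB.choose 2).hx_nsmul _).mono (by omega)
    have h1 : PB (fun n => hx (s.1 + n • pt0 hD)) 6 := (PB.const _ _).hx_add (l1 _)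
    have h2 : PB (fun n => hx (s.2.1 + n • s.1 + n.choose 2 • pt0 hD)) 6 :=
      ((PB.const _ _).hx_add (l1 _)).hx_add (l2 _)
    have h3 : PB (fun n => hx (s.2.2 + n • s.2.1 + n.choose 2 • s.1 + n.choose 3 • pt0 hD)) 6 :=
      (((PB.const _ _).hx_add (l1 _)).hx_add (l2 _)).hx_add ((PB.choose 3).hx_nsmul _)
    refine ((((h1.cmul 5).add (h2.cmul 5)).add (h3.cmul 5)).add
      (PB.const (2 * (ht a + ht b)) _)).of_le fun n => ?_
    rw [← (hs n).2, st4_eq]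
    exact ht_pt4 _ i
  · intro h M hM
    obtain ⟨a, b, hD, s, hs⟩ := gen4 h
    rw [← (hs 0).2]
    rw [← (hs 1).2] at hM
    exact dom4 hD (hs 1).1 ((hs 1).2 ▸ h 1) M hM

end Pool.Agent.Lib.MP_55ef7c_ag
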