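import Pool.Agent.Lib.MP_55ef7c_ag.Elliptic

/-!
The curve `y ^ 2 + y = x ^ 3 + t x`: the heights of the multiples of `(0, 0)` grow quadratically.
-/

namespace Pool.Agent.Lib.MP_55ef7c_ag

open MvPolynomial WeierstrassCurve WeierstrassCurve.Affine

/-- The point `(0, 0)`. -/
def pt0 {L : Type*} [Field L] {a b : L} (hD : 64 * b ^ 3 + 27 * a ^ 4 ≠ 0) : (W a b).Point :=
  .some 0 0 (W_nonsing hD (by ring))

variable {σ K : Type*} [Field K]

lemma disc_ne (i : σ) : (64 * X i ^ 3 + 27 : MvPolynomial σ K) ≠ 0 := by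
  intro h
  have h27 : (27 : K) = 0 := by
    have := congrArg (eval fun _ => (0 : K)) h
    simpa [map_ofNat] using this
  have h64 : (64 : K) + 27 = 0 := by
    have := congrArg (eval fun _ => (1 : K)) h
    simpa using this
  have : (1 : K) = 0 := by linear_combination -8 * h64 + 27 * h27
  exact one_ne_zero this

lemma disc_ne' (i : σ) : 64 * emb (X i : MvPolynomial σ K) ^ 3 + 27 * 1 ^ 4 ≠ 0 := by
  have := emb_ne (disc_ne (K := K) i)
  simpa [emb, map_ofNat] using this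

lemma bd_X (i : σ) : Bd (X i : MvPolynomial σ K) 1 := by
  unfold Bd; rw [totalDegree_X]

lemma dbl_aux (i : σ) {x : Fn σ K} {A B A' B' g : MvPolynomial σ K} {n : ℕ} (hB : B ≠ 0)
    (e : x * emb B = emb A) (dA : Bd A (ht x)) (dB : Bd B (ht x)) (dA' : Bd A' n) (dB' : Bd B' n)
    (h1 : A ^ 4 - 2 * X i * A ^ 2 * B ^ 2 - 2 * A * B ^ 3 + X i ^ 2 * B ^ 4 = g * A')
    (h2 : 4 * A ^ 3 * B + 4 * X i * A * B ^ 3 + B ^ 4 = g * B') : 4 * ht x ≤ n + 5 := by
  have dt := bd_X (K := K) i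
  set t : MvPolynomial σ K := X i with ht_def
  have hD : 64 * t ^ 3 + 27 ≠ 0 := disc_ne i
  obtain ⟨U, hU⟩ : ∃ U, U = (64 * t ^ 3 + 27) * A ^ 3 - 4 * t ^ 2 * (A ^ 2 * B)
    + (48 * t ^ 4 + 22 * t) * (A * B ^ 2) + (12 * t ^ 3 + 6) * B ^ 3 := ⟨_, rfl⟩
  obtain ⟨V, hV⟩ : ∃ V, V = t ^ 2 * A ^ 3 + (20 * t ^ 4 + 8 * t) * (A ^ 2 * B)
    + (26 * t ^ 3 + 12) * (A * B ^ 2) - (12 * t ^ 5 + 6 * t ^ 2) * B ^ 3 := ⟨_, rfl⟩
  obtain ⟨U', hU'⟩ : ∃ U', U' = 48 * (A ^ 2 * B) + 64 * t * B ^ 3 := ⟨_, rfl⟩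
  obtain ⟨V', hV'⟩ : ∃ V', V' = 12 * A ^ 3 - 20 * t * (A * B ^ 2) - 27 * B ^ 3 := ⟨_, rfl⟩
  have k1 : (64 * t ^ 3 + 27) * A ^ 7 = g * (U * A' + V * B') := by
    rw [hU, hV]
    linear_combination ((64 * t ^ 3 + 27) * A ^ 3 - 4 * t ^ 2 * (A ^ 2 * B)
      + (48 * t ^ 4 + 22 * t) * (A * B ^ 2) + (12 * t ^ 3 + 6) * B ^ 3) * h1
      + (t ^ 2 * A ^ 3 + (20 * t ^ 4 + 8 * t) * (A ^ 2 * B)
      + (26 * t ^ 3 + 12) * (A * B ^ 2) - (12 * t ^ 5 + 6 * t ^ 2) * B ^ 3) * h2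
  have k2 : (64 * t ^ 3 + 27) * B ^ 7 = g * (U' * A' - V' * B') := by
    rw [hU', hV']
    linear_combination (48 * (A ^ 2 * B) + 64 * t * B ^ 3) * h1
      - (12 * A ^ 3 - 20 * t * (A * B ^ 2) - 27 * B ^ 3) * h2
  have hne : g * (U' * A' - V' * B') ≠ 0 := by rw [← k2]; exact mul_ne_zero hD (pow_ne_zero _ hB)
  have m3 : Bd (A ^ 3) (3 * ht x) := dA.pow 3
  have m2 : Bd (A ^ 2 * B) (3 * ht x) := ((dA.pow 2).mul dB).mono (by omega)
  have m1 : Bd (A * B ^ 2) (3 * ht x) := (dA.mul (dB.pow 2)).mono (by omega)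
  have m0 : Bd (B ^ 3) (3 * ht x) := dB.pow 3
  have t0 : ∀ (k : ℕ) [k.AtLeastTwo], Bd (OfNat.ofNat k : MvPolynomial σ K) 5 :=
    fun k _ => (Bd.ofNat k).mono (by omega)
  have t1 : Bd t 5 := dt.mono (by omega)
  have tp : ∀ k, k ≤ 5 → Bd (t ^ k) 5 := fun k hk => (dt.pow k).mono (by omega)
  have dU : Bd U (5 + 3 * ht x) := by
    rw [hU]
    exact ((((((tp 3 (by omega)).cmul 64).add (t0 27)).mul m3).sub
      (((tp 2 (by omega)).cmul 4).mul m2)).add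
      ((((tp 4 (by omega)).cmul 48).add (t1.cmul 22)).mul m1)).add
      ((((tp 3 (by omega)).cmul 12).add (t0 6)).mul m0)
  have dV : Bd V (5 + 3 * ht x) := by
    rw [hV]
    exact ((((tp 2 (by omega)).mul m3).add
      ((((tp 4 (by omega)).cmul 20).add (t1.cmul 8)).mul m2)).add
      ((((tp 3 (by omega)).cmul 26).add (t0 12)).mul m1)).sub
      ((((tp 5 (by omega)).cmul 12).add ((tp 2 (by omega)).cmul 6)).mul m0)
  have dU' : Bd U' (5 + 3 * ht x) := by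
    rw [hU']
    exact ((t0 48).mul m2).add ((t1.cmul 64).mul m0)
  have dV' : Bd V' (5 + 3 * ht x) := by
    rw [hV']
    exact (((t0 12).mul m3).sub ((t1.cmul 20).mul m1)).sub ((t0 27).mul m0)
  have hg : emb g ≠ 0 := emb_ne (left_ne_zero_of_mul hne)
  have key : x ^ 7 * emb (U' * A' - V' * B') = emb (U * A' + V * B') := by
    apply mul_left_cancel₀ hg
    have k1' := congrArg emb k1
    have k2' := congrArg emb k2
    simp only [emb, map_mul, map_pow] at *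
    rw [← k1', ← e, mul_left_comm, ← k2']
    ring
  have := ht_le' (right_ne_zero_of_mul hne) key ((dU.mul dA').add (dV.mul dB'))
    ((dU'.mul dA').sub (dV'.mul dB'))
  rw [ht_pow] at this
  omega

variable [DecidableEq (Fn σ K)]

lemma hx_dbl (i : σ) (P : (W (1 : Fn σ K) (emb (X i))).Point) : 4 * hx P ≤ hx (P + P) + 5 := by
  rcases P with _ | ⟨x, y, h⟩
  · exact Nat.zero_le _
  obtain ⟨A, B, hB, e, dA, dB⟩ := exists_rep' x
  have hE := W_eq.1 h.1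
  have hPsi : emb (4 * A ^ 3 * B + 4 * X i * A * B ^ 3 + B ^ 4)
      = (2 * y + 1) ^ 2 * emb B ^ 4 := by
    simp only [emb, map_mul, map_add, map_pow, map_ofNat] at *
    rw [← e]
    linear_combination (-4 * (algebraMap (MvPolynomial σ K) (Fn σ K) B) ^ 4) * hE
  by_cases hy : y = (W (1 : Fn σ K) (emb (X i))).negY x y
  · rw [Point.add_self_of_Y_eq hy, hx_zero, hx_some]
    rw [W_negY] at hy
    have h0 : 2 * y + 1 = 0 := by linear_combination hy
    rw [h0] at hPsi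
    have hPsi0 : 4 * A ^ 3 * B + 4 * X i * A * B ^ 3 + B ^ 4 = 0 :=
      emb_inj (by rw [hPsi]; simp [emb])
    exact dbl_aux i (A' := 1) (B' := 0) hB e dA dB (by simp [Bd]) (by simp [Bd])
      (mul_one _).symm (by rw [hPsi0, mul_zero])
  · have hxy : ¬(x = x ∧ y = (W (1 : Fn σ K) (emb (X i))).negY x y) := fun h => hy h.2
    rw [Point.add_some hxy, hx_some, hx_some]
    obtain ⟨-, hq⟩ := add_quadratic h.1 h.1 hxy
    generalize (W (1 : Fn σ K) (emb (X i))).addX x x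
      ((W (1 : Fn σ K) (emb (X i))).slope x x y y) = T at hq ⊢
    obtain ⟨A', B', hB', hc, e', he'⟩ := exists_rep T
    have : A' * (4 * A ^ 3 * B + 4 * X i * A * B ^ 3 + B ^ 4)
        = (A ^ 4 - 2 * X i * A ^ 2 * B ^ 2 - 2 * A * B ^ 3 + X i ^ 2 * B ^ 4) * B' := emb_inj (by
      simp only [emb, map_mul, map_add, map_sub, map_pow, map_ofNat] at *
      rw [← e, ← e']
      linear_combination (-(algebraMap (MvPolynomial σ K) (Fn σ K) B) ^ 4
        * algebraMap (MvPolynomial σ K) (Fn σ K) B') * hq)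
    obtain ⟨g, h1, h2⟩ := exists_mul_of_rep hB' hc this
    exact dbl_aux i hB e dA dB (by rw [he']; exact le_max_left _ _)
      (by rw [he']; exact le_max_right _ _) h1 h2

/-- The point `(0, 0)` on `y ^ 2 + y = x ^ 3 + t x`. -/
noncomputable abbrev S0 (K : Type*) [Field K] (i : σ) : (W (1 : Fn σ K) (emb (X i))).Point :=
  pt0 (disc_ne' i)

lemma hx_two (i : σ) : hx (S0 K i + S0 K i) = 2 := by
  have hy : (0 : Fn σ K) ≠ (W (1 : Fn σ K) (emb (X i))).negY 0 0 := by rw [W_negY]; simp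
  unfold S0 pt0
  rw [Point.add_self_of_Y_ne hy, hx_some, slope_of_Y_ne rfl hy, W_addX, W_negY]
  have : ((3 * 0 ^ 2 + 2 * (W (1 : Fn σ K) (emb (X i))).a₂ * 0 + (W (1 : Fn σ K) (emb (X i))).a₄
      - (W (1 : Fn σ K) (emb (X i))).a₁ * 0) / (0 - (-0 - 1))) ^ 2 - 0 - 0 = emb (X i) ^ 2 := by
    simp [W]
  rw [this, ht_pow, ht_emb, totalDegree_X]

lemma hx_two_pow (i : σ) (k : ℕ) : 4 ^ k + 5 ≤ 3 * hx (2 ^ (k + 1) • S0 K i) := by
  induction k with
  | zero => simp [two_nsmul, hx_two]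
  | succ k ih =>
    have := hx_dbl i (2 ^ (k + 1) • S0 K i)
    rw [← add_nsmul, ← two_mul, ← pow_succ'] at this
    omega

omit [DecidableEq (Fn σ K)] in
lemma hx_S0 (i : σ) : hx (S0 K i) = 0 := ht_zero

lemma sq_le_hx (i : σ) (N : ℕ) : N ^ 2 ≤ 96 * hx (N • S0 K i) + 192 := by
  rcases Nat.eq_zero_or_pos N with rfl | hN
  · simp
  have hC : 2 * ht (1 : Fn σ K) + 2 * ht (emb (X i : MvPolynomial σ K)) = 2 := by
    rw [ht_one, ht_emb, totalDegree_X]
  obtain ⟨k, hk⟩ : ∃ k, 6 * (8 * N ^ 2 + 2) ≤ 4 ^ k :=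
    ⟨_, (Nat.lt_pow_self (by norm_num)).le⟩
  have h1 := hx_two_pow (K := K) i k
  set m := 2 ^ (k + 1) / N with hm
  set r := 2 ^ (k + 1) % N with hr
  have hdiv : 2 ^ (k + 1) = m * N + r := by rw [hm, hr, mul_comm]; exact (Nat.div_add_mod _ _).symm
  have hrN : r < N := Nat.mod_lt _ hN
  have h2 := hx_add (m • N • S0 K i) (r • S0 K i)
  have h3 := hx_nsmul (N • S0 K i) m
  have h4 := hx_nsmul (S0 K i) r
  rw [← mul_nsmul', ← add_nsmul, ← hdiv] at h2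
  rw [← mul_nsmul'] at h3
  rw [hx_S0] at h4
  rw [hC] at h2 h3 h4
  have h5 : (m * N) ^ 2 ≤ 4 * 4 ^ k := by
    have : m * N ≤ 2 ^ (k + 1) := by omega
    calc (m * N) ^ 2 ≤ (2 ^ (k + 1)) ^ 2 := Nat.pow_le_pow_left this 2
      _ = 4 * 4 ^ k := by rw [← pow_mul, mul_comm, pow_mul]; ring
  have h6 : r ^ 2 ≤ N ^ 2 := Nat.pow_le_pow_left hrN.le 2
  generalize hx (N • S0 K i) = H at *
  generalize hx (2 ^ (k + 1) • S0 K i) = H1 at *
  generalize hx ((m * N) • S0 K i) = H2 at *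
  generalize hx (r • S0 K i) = H3 at *
  have h7 : 4 ^ k ≤ 24 * (m ^ 2 * (H + 2)) := by
    have : 2 * m ^ 2 * (H + 2) = 2 * (m ^ 2 * (H + 2)) := by ring
    omega
  have h8 : 4 ^ k * N ^ 2 ≤ 4 ^ k * (96 * H + 192) := by
    calc 4 ^ k * N ^ 2 ≤ 24 * (m ^ 2 * (H + 2)) * N ^ 2 := Nat.mul_le_mul_right _ h7
      _ = 24 * (H + 2) * (m * N) ^ 2 := by ring
      _ ≤ 24 * (H + 2) * (4 * 4 ^ k) := Nat.mul_le_mul_left _ h5
      _ = 4 ^ k * (96 * H + 192) := by ring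
  exact Nat.le_of_mul_le_mul_left h8 (by positivity)

lemma nsmul_S0_ne (i : σ) {N : ℕ} (hN : 0 < N) : N • S0 K i ≠ 0 := by
  intro h
  have := sq_le_hx (K := K) i (14 * N)
  rw [mul_nsmul', h, nsmul_zero, hx_zero] at this
  nlinarith

/-- Coordinates of a point, with junk value at infinity. -/
def px {L : Type*} [Field L] {a b : L} : (W a b).Point → L
  | .zero => 0
  | .some x _ _ => x

/-- Coordinates of a point, with junk value at infinity. -/
def py {L : Type*} [Field L] {a b : L} : (W a b).Point → L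
  | .zero => 0
  | .some _ y _ => y

omit [DecidableEq (Fn σ K)] in
lemma hx_eq {a b : Fn σ K} (P : (W a b).Point) : hx P = ht (px P) := by
  cases P
  · exact ht_zero.symm
  · rfl

lemma p_eq {L : Type*} [Field L] {a b : L} (P : (W a b).Point) :
    py P ^ 2 + a * py P = px P ^ 3 + b * px P := by
  rcases P with _ | ⟨x, y, h⟩
  · simp [px, py]
  · exact W_eq.1 h.1

lemma px_ne {L : Type*} [Field L] {a b : L} {P Q : (W a b).Point} (hP : P ≠ 0) (hQ : Q ≠ 0)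
    (h1 : P ≠ Q) (h2 : P ≠ -Q) : px P ≠ px Q := by
  rcases P with _ | ⟨x1, y1, k1⟩
  · exact absurd rfl hP
  rcases Q with _ | ⟨x2, y2, k2⟩
  · exact absurd rfl hQ
  intro h
  rcases Point.X_eq_iff.1 h with h | h
  · exact h1 h
  · exact h2 h

lemma px_S0_ne (i : σ) {m n : ℕ} (hm : 0 < m) (hmn : m < n) :
    px (n • S0 K i) ≠ px (m • S0 K i) := by
  refine px_ne (nsmul_S0_ne i (by omega)) (nsmul_S0_ne i hm) ?_ ?_
  · intro h
    obtain ⟨k, rfl⟩ := Nat.exists_eq_add_of_lt hmn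
    rw [add_assoc, add_nsmul, add_eq_left] at h
    exact nsmul_S0_ne i (by omega) h
  · intro h
    rw [← add_eq_zero_iff_eq_neg, ← add_nsmul] at h
    exact nsmul_S0_ne i (by omega) h

lemma px_S0_ne_zero (i : σ) {n : ℕ} (hn : 1 < n) : px (n • S0 K i) ≠ 0 := by
  have := px_S0_ne (K := K) i one_pos hn
  rwa [one_nsmul] at this

lemma py_S0_ne_zero (i : σ) {n : ℕ} (hn : 1 < n) : py (n • S0 K i) ≠ 0 := by
  intro h
  have h1 := p_eq (n • S0 K i)
  have h2 := px_S0_ne_zero (K := K) i hn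
  rw [h] at h1
  have h3 : px (n • S0 K i) ^ 2 = emb (-X i) := by
    apply mul_left_cancel₀ h2
    simp only [emb, map_neg] at *
    linear_combination -h1
  have h4 := ht_pow (px (n • S0 K i)) 2
  rw [h3, ht_emb, totalDegree_neg, totalDegree_X] at h4
  omega

end Pool.Agent.Lib.MP_55ef7c_ag
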